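import Pool.Agent.TNM.Defs

/-!
# Hulls and kernels

Plan. `Hu κ i = toMeasurable volume (κ ⁻¹' {i})` contains the class of `i`
(`subset_toMeasurable`) and is measurable (`measurableSet_toMeasurable`). `hull_meets`: if no
point of `N` has colour `i` then `κ ⁻¹' {i} ∩ N = ∅`, and
`volume (Hu κ i ∩ N) = volume (κ ⁻¹' {i} ∩ N) = 0` by `measure_toMeasurable_inter_of_sFinite`
(look it up: `Measure.measure_toMeasurable_inter_of_sFinite`, for measurable `N`), but
`Hu κ i ∩ N = N`. `hull_null`: take a measurable `E ⊆ κ ⁻¹' S` with `κ ⁻¹' S =ᵐ E`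
(`NullMeasurableSet.exists_measurable_subset_ae_eq`). Then `volume (Hu κ j ∩ E) =
volume (κ ⁻¹' {j} ∩ E) = 0` (the intersection is empty) and `volume (Hu κ i ∩ Eᶜ) =
volume (κ ⁻¹' {i} ∩ Eᶜ) ≤ volume (κ ⁻¹' S \\ E) = 0`, and
`Hu κ i ∩ Hu κ j ⊆ (Hu κ j ∩ E) ∪ (Hu κ i ∩ Eᶜ)`. `Ke_col`: `x ∈ Hu κ (κ x)`.
-/

open Set MeasureTheory Filter Topology Metric
open Pool.Agent.Helper2.LM Pool.Agent.H99M

namespace Pool.Agent.TNM

theorem measurable_Hu (κ : ℝ × ℝ → Fin 4) (i : Fin 4) : MeasurableSet (Hu κ i) :=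
  measurableSet_toMeasurable _ _

theorem mem_Hu (κ : ℝ × ℝ → Fin 4) (x : ℝ × ℝ) : x ∈ Hu κ (κ x) := by
  apply subset_toMeasurable
  simp

theorem measurable_Ke (κ : ℝ × ℝ → Fin 4) (i : Fin 4) : MeasurableSet (Ke κ i) := by
  have h : Ke κ i = ⋂ j, ⋂ (_ : j ≠ i), (Hu κ j)ᶜ := by
    ext x
    simp only [Ke, mem_iInter, mem_compl_iff]
    rfl
  rw [h]
  exact MeasurableSet.iInter fun j => MeasurableSet.iInter fun _ => (measurable_Hu κ j).compl

theorem measurable_Wt (κ : ℝ × ℝ → Fin 4) (i j : Fin 4) : MeasurableSet (Wt κ i j) := by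
  have h : Wt κ i j = Hu κ i ∩ (Hu κ j ∩ ⋂ k, ⋂ (_ : k ≠ i), ⋂ (_ : k ≠ j), (Hu κ k)ᶜ) := by
    ext x
    simp only [Wt, mem_iInter, mem_compl_iff, mem_inter_iff]
    rfl
  rw [h]
  exact (measurable_Hu κ i).inter ((measurable_Hu κ j).inter (MeasurableSet.iInter fun k =>
    MeasurableSet.iInter fun _ => MeasurableSet.iInter fun _ => (measurable_Hu κ k).compl))

theorem measurable_Yt (κ : ℝ × ℝ → Fin 4) (a b c m : Fin 4) : MeasurableSet (Yt κ a b c m) := by
  have h : Yt κ a b c m = Hu κ a ∩ (Hu κ b ∩ (Hu κ c ∩ (Hu κ m)ᶜ)) := by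
    ext x
    simp only [Yt, mem_compl_iff, mem_inter_iff]
    rfl
  rw [h]
  exact (measurable_Hu κ a).inter ((measurable_Hu κ b).inter ((measurable_Hu κ c).inter
    (measurable_Hu κ m).compl))

theorem Ke_col {κ : ℝ × ℝ → Fin 4} {i : Fin 4} {x : ℝ × ℝ} (h : x ∈ Ke κ i) : κ x = i := by
  by_contra h'
  exact h (κ x) h' (mem_Hu κ x)

theorem Ke_sub {κ : ℝ × ℝ → Fin 4} {i : Fin 4} {x : ℝ × ℝ} (h : x ∈ Ke κ i) : x ∈ Hu κ i := by
  have h1 := mem_Hu κ x
  rwa [Ke_col h] at h1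

theorem Wt_col {κ : ℝ × ℝ → Fin 4} {i j : Fin 4} {x : ℝ × ℝ} (h : x ∈ Wt κ i j) :
    κ x = i ∨ κ x = j := by
  by_contra h'
  push Not at h'
  exact h.2.2 (κ x) h'.1 h'.2 (mem_Hu κ x)

/-- a measurable subset of the hull which is not null contains points of the colour -/
theorem hull_meets {κ : ℝ × ℝ → Fin 4} {i : Fin 4} {N : Set (ℝ × ℝ)} (mN : MeasurableSet N)
    (h : N ⊆ Hu κ i) (h0 : volume N ≠ 0) : ∃ x ∈ N, κ x = i := by
  by_contra hcon
  push Not at hcon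
  apply h0
  have h1 : volume (Hu κ i ∩ N) = volume (κ ⁻¹' {i} ∩ N) :=
    Measure.measure_toMeasurable_inter_of_sFinite mN _
  have h2 : κ ⁻¹' {i} ∩ N = ∅ := by
    ext x
    simp only [mem_inter_iff, mem_preimage, mem_singleton_iff, mem_empty_iff_false, iff_false,
      not_and]
    exact fun hx hN => hcon x hN hx
  rw [h2, measure_empty, inter_eq_self_of_subset_right h] at h1
  exact h1

/-- if a union of classes is measurable then hulls of colours inside and outside are disjoint up to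
a null set -/
theorem hull_null {κ : ℝ × ℝ → Fin 4} {S : Set (Fin 4)} (hS : NullMeasurableSet (κ ⁻¹' S))
    {i j : Fin 4} (hi : i ∈ S) (hj : j ∉ S) : volume (Hu κ i ∩ Hu κ j) = 0 := by
  obtain ⟨E, hES, mE, hE⟩ := hS.exists_measurable_subset_ae_eq
  have h1 : volume (Hu κ j ∩ E) = 0 := by
    have e1 : volume (Hu κ j ∩ E) = volume (κ ⁻¹' {j} ∩ E) :=
      Measure.measure_toMeasurable_inter_of_sFinite mE _
    have e2 : κ ⁻¹' {j} ∩ E = ∅ := by
      ext x
      simp only [mem_inter_iff, mem_preimage, mem_singleton_iff, mem_empty_iff_false, iff_false,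
        not_and]
      intro hx hxE
      have := hES hxE
      rw [mem_preimage, hx] at this
      exact hj this
    rw [e1, e2, measure_empty]
  have h2 : volume (Hu κ i ∩ Eᶜ) = 0 := by
    have e1 : volume (Hu κ i ∩ Eᶜ) = volume (κ ⁻¹' {i} ∩ Eᶜ) :=
      Measure.measure_toMeasurable_inter_of_sFinite mE.compl _
    rw [e1]
    have e2 : volume (κ ⁻¹' S \ E) = 0 := ae_le_set.1 hE.symm.le
    refine measure_mono_null (fun x hx => ?_) e2
    refine ⟨?_, hx.2⟩
    have : κ x = i := hx.1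
    rw [mem_preimage, this]
    exact hi
  refine measure_mono_null (fun x hx => ?_) (measure_union_null h1 h2)
  by_cases hxE : x ∈ E
  · exact Or.inl ⟨hx.2, hxE⟩
  · exact Or.inr ⟨hx.1, hxE⟩

end Pool.Agent.TNM
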