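import Pool.Agent.TNM.Bas

/-!
# Null sets of pairs (point, parameter)

Plan. All for `volume` on `(ℝ × ℝ) × ℝ`, the product measure (`Measure.volume_eq_prod`). For
`null_shear`, `null_T`, `null_pt` first replace `N` by the measurable null set
`N'`, then use `measure_prod_null` (sections over the first coordinate) or its
swapped version (`Measure.measurePreserving_swap`, or `Measure.ae_ae_of_ae_prod` /
`Measure.prod_apply_symm` for sections over the second coordinate). `null_shear`: for fixed `s`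
the section is a translate of the section of `N`. `null_T`: for almost every `x` the section
`{s | (x, s) ∈ N}` is null and its preimage under `T` is null (`Geo.ae_T`). `null_pt`: for fixed
`s` a translate of `N`.
-/

open Set MeasureTheory Filter Topology Metric
open Pool.Agent.Helper2.LM Pool.Agent.H99M

namespace Pool.Agent.TNM

variable {D : Set (ℝ × ℝ)} {γ : ℝ → ℝ × ℝ} {T : ℝ → ℝ}

theorem null_of_snd {N : Set ((ℝ × ℝ) × ℝ)} (mN : MeasurableSet N)
    (h : ∀ᵐ s : ℝ, volume {x : ℝ × ℝ | (x, s) ∈ N} = 0) : volume N = 0 := by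
  rw [Measure.volume_eq_prod, Measure.prod_apply_symm mN]
  have h1 : (fun s : ℝ => volume ((fun x : ℝ × ℝ => (x, s)) ⁻¹' N)) =ᵐ[volume] 0 := h
  rw [lintegral_congr_ae h1]
  simp

theorem null_of_fst {N : Set ((ℝ × ℝ) × ℝ)} (mN : MeasurableSet N)
    (h : ∀ᵐ x : ℝ × ℝ, volume {s : ℝ | (x, s) ∈ N} = 0) : volume N = 0 := by
  rw [Measure.volume_eq_prod, Measure.prod_apply mN]
  have h1 : (fun x : ℝ × ℝ => volume (Prod.mk x ⁻¹' N)) =ᵐ[volume] 0 := h
  rw [lintegral_congr_ae h1]
  simp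

theorem snd_of_null {N : Set ((ℝ × ℝ) × ℝ)} (hN : volume N = 0) :
    ∀ᵐ s : ℝ, volume {x : ℝ × ℝ | (x, s) ∈ N} = 0 := by
  obtain ⟨N', hNN, m1, h0⟩ := exists_measurable_superset_of_null hN
  rw [Measure.volume_eq_prod, Measure.prod_apply_symm m1,
    lintegral_eq_zero_iff (measurable_measure_prodMk_right m1)] at h0
  filter_upwards [h0] with s hs
  refine measure_mono_null (fun x hx => ?_) hs
  exact hNN hx

theorem fst_of_null {N : Set ((ℝ × ℝ) × ℝ)} (hN : volume N = 0) :
    ∀ᵐ x : ℝ × ℝ, volume {s : ℝ | (x, s) ∈ N} = 0 := by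
  obtain ⟨N', hNN, m1, h0⟩ := exists_measurable_superset_of_null hN
  rw [Measure.volume_eq_prod, Measure.prod_apply m1,
    lintegral_eq_zero_iff (measurable_measure_prodMk_left m1)] at h0
  filter_upwards [h0] with x hx
  refine measure_mono_null (fun s hs => ?_) hx
  exact hNN hs

theorem null_shear {β : ℝ → ℝ × ℝ} (hβ : Continuous β) {N : Set ((ℝ × ℝ) × ℝ)}
    (hN : volume N = 0) : volume {p : (ℝ × ℝ) × ℝ | (p.1 + β p.2, p.2) ∈ N} = 0 := by
  obtain ⟨N', hNN, m1, h0⟩ := exists_measurable_superset_of_null hN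
  have hc : Continuous fun p : (ℝ × ℝ) × ℝ => (p.1 + β p.2, p.2) := by fun_prop
  have h1 : volume {p : (ℝ × ℝ) × ℝ | (p.1 + β p.2, p.2) ∈ N'} = 0 := by
    apply null_of_snd (hc.measurable m1)
    filter_upwards [snd_of_null h0] with s hs
    change volume ((fun x => x + β s) ⁻¹' {x | (x, s) ∈ N'}) = 0
    rw [measure_preimage_add_right]
    exact hs
  exact measure_mono_null (fun p hp => (show (p.1 + β p.2, p.2) ∈ N' from hNN hp)) h1

theorem null_T (hG : Geo D γ T) {N : Set ((ℝ × ℝ) × ℝ)} (hN : volume N = 0) :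
    volume {p : (ℝ × ℝ) × ℝ | (p.1, T p.2) ∈ N} = 0 := by
  obtain ⟨N', hNN, m1, h0⟩ := exists_measurable_superset_of_null hN
  have hT := hG.T_cont
  have hc : Continuous fun p : (ℝ × ℝ) × ℝ => (p.1, T p.2) := by fun_prop
  have h1 : volume {p : (ℝ × ℝ) × ℝ | (p.1, T p.2) ∈ N'} = 0 := by
    apply null_of_fst (hc.measurable m1)
    filter_upwards [fst_of_null h0] with x hx
    have h2 : ∀ᵐ s : ℝ, (x, s) ∉ N' := measure_eq_zero_iff_ae_notMem.1 hx
    exact measure_eq_zero_iff_ae_notMem.2 (hG.ae_T h2)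
  exact measure_mono_null (fun p hp => (show (p.1, T p.2) ∈ N' from hNN hp)) h1

theorem null_pt {β : ℝ → ℝ × ℝ} (hβ : Continuous β) {N : Set (ℝ × ℝ)} (hN : volume N = 0) :
    volume {p : (ℝ × ℝ) × ℝ | p.1 + β p.2 ∈ N} = 0 := by
  obtain ⟨N', hNN, m1, h0⟩ := exists_measurable_superset_of_null hN
  have hc : Continuous fun p : (ℝ × ℝ) × ℝ => p.1 + β p.2 := by fun_prop
  have h1 : volume {p : (ℝ × ℝ) × ℝ | p.1 + β p.2 ∈ N'} = 0 := by
    apply null_of_snd (hc.measurable m1)
    refine Filter.Eventually.of_forall fun s => ?_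
    change volume ((fun x => x + β s) ⁻¹' N') = 0
    rw [measure_preimage_add_right]
    exact h0
  exact measure_mono_null (fun p hp => (show p.1 + β p.2 ∈ N' from hNN hp)) h1

end Pool.Agent.TNM
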