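import Pool.Agent.TNM.Defs

/-!
# Basic facts on the curves
-/

open Set MeasureTheory Filter Topology Metric
open Pool.Agent.Helper2.LM Pool.Agent.H99M

namespace Pool.Agent.TNM

variable {D : Set (ℝ × ℝ)} {γ : ℝ → ℝ × ℝ} {T : ℝ → ℝ}

theorem cT (h : Geo D γ T) : ContDiff ℝ 1 fun t => γ (T t) := h.γ_c.comp h.T_c

theorem cTT (h : Geo D γ T) : ContDiff ℝ 1 fun t => γ (T (T t)) := h.γ_c.comp (h.T_c.comp h.T_c)

theorem cw (h : Geo D γ T) : ContDiff ℝ 1 (ww γ T) := h.γ_c.add (cT h)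

theorem cwT (h : Geo D γ T) : ContDiff ℝ 1 fun t => ww γ T (T t) := (cw h).comp h.T_c

theorem cwTT (h : Geo D γ T) : ContDiff ℝ 1 fun t => ww γ T (T (T t)) :=
  (cw h).comp (h.T_c.comp h.T_c)

theorem w_half (h : Geo D γ T) (t : ℝ) : ww γ T (t + 1 / 2) = - ww γ T t := by
  simp only [ww, h.T_half, h.γ_half]
  abel

theorem T_three' (h : Geo D γ T) (t : ℝ) : T (T (T t)) = t + 1 / 2 := h.T_three t

/-- `γ (T t) - γ t`, `γ t - γ (T t)`, `γ t + γ (T (T t))` are in `D` -/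
theorem step_mem (h : Geo D γ T) (t : ℝ) : γ (T t) - γ t ∈ D := by
  rw [← h.T_two t]
  exact h.mem _

theorem step_mem' (h : Geo D γ T) (t : ℝ) : γ t - γ (T t) ∈ D := by
  have := h.neg_mem (step_mem h t)
  rwa [neg_sub] at this

/-- `γ (T (T t)) - (- γ t) = γ (T t)` -/
theorem step_mem2 (h : Geo D γ T) (t : ℝ) : γ (T (T t)) + γ t = γ (T t) := by
  rw [h.T_two t]
  abel

theorem w_TT (h : Geo D γ T) (t : ℝ) : ww γ T (T (T t)) = γ (T (T t)) - γ t := by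
  simp only [ww, h.T_three, h.γ_half]
  abel

end Pool.Agent.TNM
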