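import Pool.Agent.H99M.GeoB

/-!
# Totally non-measurable colourings: definitions

`κ` is a colouring of the plane with four colours. `Hu κ i` is the measurable hull of the class of
the colour `i`, `Ke κ i` is the set of points which are in no other hull (they have colour `i`),
`Wt κ i j` is the set of points which are exactly in the hulls of `i` and `j`.
-/

open Set MeasureTheory Filter Topology Metric
open Pool.Agent.Helper2.LM Pool.Agent.H99M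

namespace Pool.Agent.TNM

/-- the measurable hull of the class of the colour `i` -/
noncomputable def Hu (κ : ℝ × ℝ → Fin 4) (i : Fin 4) : Set (ℝ × ℝ) :=
  toMeasurable volume (κ ⁻¹' {i})

/-- the points which are in no other hull -/
def Ke (κ : ℝ × ℝ → Fin 4) (i : Fin 4) : Set (ℝ × ℝ) := {x | ∀ j, j ≠ i → x ∉ Hu κ j}

/-- the points which are exactly in the hulls of `i` and `j` -/
def Wt (κ : ℝ × ℝ → Fin 4) (i j : Fin 4) : Set (ℝ × ℝ) :=
  {x | x ∈ Hu κ i ∧ x ∈ Hu κ j ∧ ∀ k, k ≠ i → k ≠ j → x ∉ Hu κ k}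

/-- the points in the hulls of three colours `a`, `b`, `c` and not in the hull of `m` -/
def Yt (κ : ℝ × ℝ → Fin 4) (a b c m : Fin 4) : Set (ℝ × ℝ) :=
  {x | x ∈ Hu κ a ∧ x ∈ Hu κ b ∧ x ∈ Hu κ c ∧ x ∉ Hu κ m}

/-- parameters `u` near `u₀` such that, with `w = y + γ u.1` and `x = w - w(u.2)`, the points
`y`, `w`, `x + γ u.2`, `x + γ (T u.2)` are in `M` and `x` is in `Z` -/
def GU (γ : ℝ → ℝ × ℝ) (T : ℝ → ℝ) (Z M : Set (ℝ × ℝ)) (u₀ : ℝ × ℝ) (δ : ℝ) (y : ℝ × ℝ) :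
    Set (ℝ × ℝ) :=
  {u | u ∈ closedBall u₀ δ ∧ y ∈ M ∧ y + γ u.1 ∈ M ∧ y + (γ u.1 - ww γ T u.2) ∈ Z ∧
    y + (γ u.1 - ww γ T u.2 + γ u.2) ∈ M ∧ y + (γ u.1 - ww γ T u.2 + γ (T u.2)) ∈ M}

/-- a measurable set `A` which contains no two points with difference in `D`, and a measurable set
`Y` of centres, such that for almost every centre `x` and almost every `t` the trace of `A` on the
points `x + γ t`, `x + γ (T t)`, `x + γ (T (T t))`, `x + w t` satisfies the two rules below -/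
structure Pt (D : Set (ℝ × ℝ)) (γ : ℝ → ℝ × ℝ) (T : ℝ → ℝ) (A Y : Set (ℝ × ℝ)) : Prop where
  mA : MeasurableSet A
  mY : MeasurableSet Y
  av : ∀ x ∈ A, ∀ y ∈ A, x - y ∉ D
  e1 : ∀ᵐ p : (ℝ × ℝ) × ℝ, p.1 ∈ Y →
    p.1 + γ p.2 ∈ A ∨ p.1 + γ (T p.2) ∈ A ∨ p.1 + ww γ T p.2 ∈ A
  e2 : ∀ᵐ p : (ℝ × ℝ) × ℝ, p.1 ∈ Y →
    p.1 + γ p.2 ∈ A ∨ p.1 + γ (T p.2) ∈ A ∨ p.1 + γ (T (T p.2)) ∈ A

/-- pairs (centre, parameter) such that the centre is not in `Y` -/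
def NY (Y : Set (ℝ × ℝ)) : Set ((ℝ × ℝ) × ℝ) := {p | p.1 ∉ Y}

/-- pairs (centre, parameter) such that `x + δ t` is in `A` -/
def NA (δ : ℝ → ℝ × ℝ) (A : Set (ℝ × ℝ)) : Set ((ℝ × ℝ) × ℝ) := {p | p.1 + δ p.2 ∈ A}

end Pool.Agent.TNM
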