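import Pool.Agent.TNM.Bas

/-!
# Determinants

Plan. Let `e₀ = deriv γ t`, `e₁`, `e₂` the derivatives of `fun s => γ (T s)` and
`fun s => γ (T (T s))` at `t`; `e₁ = e₀ + e₂` by Geo.T_two (`γ (T s) = γ s + γ (T (T s))`), and
`e₂ = c • deriv γ (T (T t))` with `c > 0` (chain rule, Geo.T_pos), so `d = det2 e₀ e₂ > 0`
(Geo.d_ac). Since `γ (T (T (T s))) = - γ s`, the derivatives of `ww γ T`, `fun s => ww γ T (T s)`,
`fun s => ww γ T (T (T s))` at `t` are `2 e₀ + e₂`, `e₀ + 2 e₂`, `e₂ - e₀`. So the five determinants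
are `2 d`, `4 d`, `2 d`, `3 d`, `- 3 d`.
-/

open Set MeasureTheory Filter Topology Metric
open Pool.Agent.Helper2.LM Pool.Agent.H99M

namespace Pool.Agent.TNM

variable {D : Set (ℝ × ℝ)} {γ : ℝ → ℝ × ℝ} {T : ℝ → ℝ}

private theorem Dets_all (hG : Geo D γ T) (t : ℝ) : ∃ e₀ e₂ : ℝ × ℝ, 0 < det2 e₀ e₂ ∧
    HasDerivAt γ e₀ t ∧ HasDerivAt (fun s => γ (T s)) (e₀ + e₂) t ∧
    HasDerivAt (fun s => γ (T (T s))) e₂ t ∧ HasDerivAt (ww γ T) (e₀ + (e₀ + e₂)) t ∧
    HasDerivAt (fun s => ww γ T (T s)) (e₀ + e₂ + e₂) t ∧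
    HasDerivAt (fun s => ww γ T (T (T s))) (e₂ + -e₀) t := by
  have h0 : HasDerivAt γ (deriv γ t) t := (hG.γ_c.differentiable one_ne_zero t).hasDerivAt
  have hT1 : HasDerivAt T (deriv T t) t := (hG.T_c.differentiable one_ne_zero t).hasDerivAt
  have hT2 : HasDerivAt T (deriv T (T t)) (T t) :=
    (hG.T_c.differentiable one_ne_zero (T t)).hasDerivAt
  have hTT : HasDerivAt (fun s => T (T s)) (deriv T (T t) * deriv T t) t := hT2.comp t hT1
  have h2 : HasDerivAt γ (deriv γ (T (T t))) (T (T t)) :=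
    (hG.γ_c.differentiable one_ne_zero (T (T t))).hasDerivAt
  have h2' : HasDerivAt (fun s => γ (T (T s)))
      ((deriv T (T t) * deriv T t) • deriv γ (T (T t))) t :=
    h2.scomp t hTT
  have hpos : 0 < det2 (deriv γ t) ((deriv T (T t) * deriv T t) • deriv γ (T (T t))) := by
    have e : det2 (deriv γ t) ((deriv T (T t) * deriv T t) • deriv γ (T (T t))) =
        (deriv T (T t) * deriv T t) * det2 (deriv γ t) (deriv γ (T (T t))) := by
      simp only [det2, Prod.smul_fst, Prod.smul_snd, smul_eq_mul]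
      ring
    rw [e]
    exact mul_pos (mul_pos (hG.T_pos _) (hG.T_pos _)) (hG.d_ac t)
  generalize (deriv T (T t) * deriv T t) • deriv γ (T (T t)) = e₂ at h2' hpos
  generalize deriv γ t = e₀ at h0 hpos
  have h1 : HasDerivAt (fun s => γ (T s)) (e₀ + e₂) t := by
    have e : (fun s => γ (T s)) = fun s => γ s + γ (T (T s)) := by
      funext s
      rw [hG.T_two s]
      abel
    rw [e]
    exact h0.add h2'
  have h3 : HasDerivAt (fun s => γ (T (T (T s)))) (-e₀) t := by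
    have e : (fun s => γ (T (T (T s)))) = fun s => - γ s := by
      funext s
      rw [hG.T_three s, hG.γ_half s]
    rw [e]
    exact h0.neg
  exact ⟨e₀, e₂, hpos, h0, h1, h2', h0.add h1, h1.add h2', h2'.add h3⟩

theorem det_a (hG : Geo D γ T) (t : ℝ) :
    det2 (deriv (fun s => - ww γ T s) t - deriv (ww γ T) t)
      (deriv γ t - deriv (fun s => - ww γ T s) t) ≠ 0 := by
  obtain ⟨e₀, e₂, hd, h0, h1, h2, k0, k1, k2⟩ := Dets_all hG t
  have n0 : HasDerivAt (fun s => - ww γ T s) (-(e₀ + (e₀ + e₂))) t := k0.neg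
  rw [n0.deriv, k0.deriv, h0.deriv]
  have e : det2 (-(e₀ + (e₀ + e₂)) - (e₀ + (e₀ + e₂))) (e₀ - -(e₀ + (e₀ + e₂))) =
      2 * det2 e₀ e₂ := by
    simp only [det2, Prod.fst_add, Prod.snd_add, Prod.fst_sub, Prod.snd_sub, Prod.fst_neg,
      Prod.snd_neg]
    ring
  rw [e]
  positivity

theorem det_b (hG : Geo D γ T) (t : ℝ) :
    det2 (deriv (fun s => - ww γ T (T s)) t - deriv (fun s => ww γ T (T s)) t)
      (deriv γ t - deriv (fun s => - ww γ T (T s)) t) ≠ 0 := by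
  obtain ⟨e₀, e₂, hd, h0, h1, h2, k0, k1, k2⟩ := Dets_all hG t
  have n1 : HasDerivAt (fun s => - ww γ T (T s)) (-(e₀ + e₂ + e₂)) t := k1.neg
  rw [n1.deriv, k1.deriv, h0.deriv]
  have e : det2 (-(e₀ + e₂ + e₂) - (e₀ + e₂ + e₂)) (e₀ - -(e₀ + e₂ + e₂)) =
      4 * det2 e₀ e₂ := by
    simp only [det2, Prod.fst_add, Prod.snd_add, Prod.fst_sub, Prod.snd_sub, Prod.fst_neg,
      Prod.snd_neg]
    ring
  rw [e]
  positivity

theorem det_c (hG : Geo D γ T) (t : ℝ) :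
    det2 (deriv (fun s => - ww γ T (T (T s))) t - deriv (fun s => ww γ T (T (T s))) t)
      (deriv γ t - deriv (fun s => - ww γ T (T (T s))) t) ≠ 0 := by
  obtain ⟨e₀, e₂, hd, h0, h1, h2, k0, k1, k2⟩ := Dets_all hG t
  have n2 : HasDerivAt (fun s => - ww γ T (T (T s))) (-(e₂ + -e₀)) t := k2.neg
  rw [n2.deriv, k2.deriv, h0.deriv]
  have e : det2 (-(e₂ + -e₀) - (e₂ + -e₀)) (e₀ - -(e₂ + -e₀)) =
      2 * det2 e₀ e₂ := by
    simp only [det2, Prod.fst_add, Prod.snd_add, Prod.fst_sub, Prod.snd_sub, Prod.fst_neg,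
      Prod.snd_neg]
    ring
  rw [e]
  positivity

theorem det_p (hG : Geo D γ T) (t : ℝ) :
    det2 (deriv (fun s => γ (T (T s))) t - deriv γ t)
      (deriv (fun s => - γ (T s)) t - deriv (fun s => γ (T (T s))) t) ≠ 0 := by
  obtain ⟨e₀, e₂, hd, h0, h1, h2, k0, k1, k2⟩ := Dets_all hG t
  have n1 : HasDerivAt (fun s => - γ (T s)) (-(e₀ + e₂)) t := h1.neg
  rw [n1.deriv, h2.deriv, h0.deriv]
  have e : det2 (e₂ - e₀) (-(e₀ + e₂) - e₂) = 3 * det2 e₀ e₂ := by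
    simp only [det2, Prod.fst_add, Prod.snd_add, Prod.fst_sub, Prod.snd_sub, Prod.fst_neg,
      Prod.snd_neg]
    ring
  rw [e]
  positivity

theorem det_q (hG : Geo D γ T) (t : ℝ) :
    det2 (deriv (fun s => γ (T (T s))) t - deriv (fun s => - γ (T s)) t)
      (deriv γ t - deriv (fun s => γ (T (T s))) t) ≠ 0 := by
  obtain ⟨e₀, e₂, hd, h0, h1, h2, k0, k1, k2⟩ := Dets_all hG t
  have n1 : HasDerivAt (fun s => - γ (T s)) (-(e₀ + e₂)) t := h1.neg
  rw [n1.deriv, h2.deriv, h0.deriv]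
  have e : det2 (e₂ - -(e₀ + e₂)) (e₀ - e₂) = - (3 * det2 e₀ e₂) := by
    simp only [det2, Prod.fst_add, Prod.snd_add, Prod.fst_sub, Prod.snd_sub, Prod.fst_neg,
      Prod.snd_neg]
    ring
  rw [e]
  have h3 : 0 < 3 * det2 e₀ e₂ := by positivity
  exact (neg_lt_zero.2 h3).ne

end Pool.Agent.TNM
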