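import Pool.Agent.TNM.Bas
import Pool.Agent.H99M.DensB

/-!
# Points from which many good configurations are seen have density one

Plan. Let `Y` be the set in the conclusion (measurable: `{(y, u) | u ∈ closedBall u₀ δ ∧ ...}` is
measurable, `measurable_measure_prodMk_left`). Each `φ k` is Lipschitz on `closedBall u₀ 1`
(compact and convex, `ContDiff`: ContDiff.contDiffOn and
`ContDiffOn.exists_lipschitzOnWith`-type lemmas, or bound the derivative on the compact ball and use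
Convex.norm_image_sub_le_of_norm_fderiv_le); let `L` be a common constant. For `n` with
`rad n ≤ δ`, `rad n ≤ 1` put `r = rad n`, `V = closedBall u₀ r`, `B = closedBall y₀ r`. If
`y ∈ B \\ Y` then almost every `u ∈ V` is bad for `y`: `∃ k, y + φ k u ∉ G k`. By Tonelli
`volume (B \\ Y) * volume V ≤ ∑ k, ∫⁻ u in V, volume {y ∈ B | y + φ k u ∉ G k}
≤ ∑ k, volume V * volume (closedBall (y₀ + φ k u₀) ((1 + L) r) \\ G k)` (translation), hence
`volume (B \\ Y) ≤ ∑ k, volume (closedBall (y₀ + φ k u₀) ((1 + L) r) \\ G k)` (`volume V` is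
positive and finite), and this is `o (r ^ 2)` by `dens1_scale`. So the proportion of the complement
of `Y` in `B` tends to zero, and `Dens1 Y y₀` (compare `dens0_compl` / the proof of `dens1_scale` in
Pool/Agent/H99M/DensB.lean; `dens Y n y₀ = 1 - dens Yᶜ n y₀`).
-/

open Set MeasureTheory Filter Topology Metric
open Pool.Agent.Helper2.LM Pool.Agent.H99M

namespace Pool.Agent.TNM

private theorem dg_rad (n : ℕ) : 0 < rad n := by
  unfold rad
  positivity

private theorem dg_meas {m : ℕ} (φ : Fin m → ℝ × ℝ → ℝ × ℝ) (G : Fin m → Set (ℝ × ℝ))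
    (hφ : ∀ k, Continuous (φ k)) (mG : ∀ k, MeasurableSet (G k)) (u₀ : ℝ × ℝ) (δ : ℝ) :
    MeasurableSet
      {y : ℝ × ℝ | volume {u : ℝ × ℝ | u ∈ closedBall u₀ δ ∧ ∀ k, y + φ k u ∈ G k} ≠ 0} := by
  have hE : MeasurableSet {q : (ℝ × ℝ) × (ℝ × ℝ) | q.2 ∈ closedBall u₀ δ ∧
      ∀ k, q.1 + φ k q.2 ∈ G k} := by
    have h1 : {q : (ℝ × ℝ) × (ℝ × ℝ) | q.2 ∈ closedBall u₀ δ ∧ ∀ k, q.1 + φ k q.2 ∈ G k} =
        (Prod.snd ⁻¹' closedBall u₀ δ) ∩
          ⋂ k, (fun q : (ℝ × ℝ) × (ℝ × ℝ) => q.1 + φ k q.2) ⁻¹' G k := by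
      ext q
      simp only [mem_inter_iff, mem_iInter, mem_preimage, mem_ofPred_eq]
    rw [h1]
    refine (measurable_snd measurableSet_closedBall).inter (MeasurableSet.iInter fun k => ?_)
    have h2 : Continuous fun q : (ℝ × ℝ) × (ℝ × ℝ) => q.1 + φ k q.2 :=
      continuous_fst.add ((hφ k).comp continuous_snd)
    exact h2.measurable (mG k)
  have h2 : Measurable fun y : ℝ × ℝ => volume (Prod.mk y ⁻¹' {q : (ℝ × ℝ) × (ℝ × ℝ) |
      q.2 ∈ closedBall u₀ δ ∧ ∀ k, q.1 + φ k q.2 ∈ G k}) := measurable_measure_prodMk_left hE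
  exact h2 (measurableSet_singleton (0 : ENNReal)).compl

/-- Tonelli -/
private theorem dg_core {m : ℕ} (φ : Fin m → ℝ × ℝ → ℝ × ℝ) (G : Fin m → Set (ℝ × ℝ))
    (hφ : ∀ k, Continuous (φ k)) (mG : ∀ k, MeasurableSet (G k)) {y₀ u₀ : ℝ × ℝ} {δ r L : ℝ}
    (hr : 0 < r) (hrδ : r ≤ δ)
    (hLip : ∀ k, ∀ u ∈ closedBall u₀ r, dist (φ k u) (φ k u₀) ≤ L * r) :
    volume (closedBall y₀ r \
      {y : ℝ × ℝ | volume {u : ℝ × ℝ | u ∈ closedBall u₀ δ ∧ ∀ k, y + φ k u ∈ G k} ≠ 0}) ≤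
      ∑ k, volume (closedBall (y₀ + φ k u₀) ((1 + L) * r) \ G k) := by
  have mY := dg_meas φ G hφ mG u₀ δ
  set Y : Set (ℝ × ℝ) :=
    {y : ℝ × ℝ | volume {u : ℝ × ℝ | u ∈ closedBall u₀ δ ∧ ∀ k, y + φ k u ∈ G k} ≠ 0} with hY
  have hE : ∀ k, MeasurableSet {q : (ℝ × ℝ) × (ℝ × ℝ) | q.1 ∈ closedBall y₀ r ∧
      q.2 ∈ closedBall u₀ r ∧ q.1 + φ k q.2 ∉ G k} := by
    intro k
    have h1 : {q : (ℝ × ℝ) × (ℝ × ℝ) | q.1 ∈ closedBall y₀ r ∧ q.2 ∈ closedBall u₀ r ∧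
        q.1 + φ k q.2 ∉ G k} = (Prod.fst ⁻¹' closedBall y₀ r) ∩ ((Prod.snd ⁻¹' closedBall u₀ r) ∩
          (fun q : (ℝ × ℝ) × (ℝ × ℝ) => q.1 + φ k q.2) ⁻¹' (G k)ᶜ) := by
      ext q
      simp only [mem_inter_iff, mem_preimage, mem_ofPred_eq, mem_compl_iff]
    rw [h1]
    have h2 : Continuous fun q : (ℝ × ℝ) × (ℝ × ℝ) => q.1 + φ k q.2 :=
      continuous_fst.add ((hφ k).comp continuous_snd)
    exact (measurable_fst measurableSet_closedBall).inter
      ((measurable_snd measurableSet_closedBall).inter (h2.measurable (mG k).compl))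
  have hV0 : volume (closedBall u₀ r) ≠ 0 := by
    rw [vol_ball u₀ hr.le]
    exact (ENNReal.ofReal_pos.2 (by positivity)).ne'
  have hVt : volume (closedBall u₀ r) ≠ ⊤ := by
    rw [vol_ball u₀ hr.le]
    exact ENNReal.ofReal_ne_top
  -- the sections at the points of `B \ Y`
  have h1 : ∀ y ∈ closedBall y₀ r \ Y, volume (closedBall u₀ r) ≤
      ∑ k, volume (Prod.mk y ⁻¹' {q : (ℝ × ℝ) × (ℝ × ℝ) | q.1 ∈ closedBall y₀ r ∧
        q.2 ∈ closedBall u₀ r ∧ q.1 + φ k q.2 ∉ G k}) := by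
    rintro y ⟨hy1, hy2⟩
    have h3 : volume {u : ℝ × ℝ | u ∈ closedBall u₀ δ ∧ ∀ k, y + φ k u ∈ G k} = 0 := by
      rw [hY, mem_ofPred_eq, not_not] at hy2
      exact hy2
    have hsub : closedBall u₀ r ⊆ {u : ℝ × ℝ | u ∈ closedBall u₀ δ ∧ ∀ k, y + φ k u ∈ G k} ∪
        ⋃ k, Prod.mk y ⁻¹' {q : (ℝ × ℝ) × (ℝ × ℝ) | q.1 ∈ closedBall y₀ r ∧
          q.2 ∈ closedBall u₀ r ∧ q.1 + φ k q.2 ∉ G k} := by
      intro u hu
      by_cases hk : ∀ k, y + φ k u ∈ G k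
      · exact Or.inl ⟨closedBall_subset_closedBall hrδ hu, hk⟩
      · right
        rw [not_forall] at hk
        obtain ⟨k, hk⟩ := hk
        exact mem_iUnion.2 ⟨k, hy1, hu, hk⟩
    calc volume (closedBall u₀ r) ≤ _ := measure_mono hsub
      _ ≤ _ := measure_union_le _ _
      _ ≤ 0 + ∑ k, volume (Prod.mk y ⁻¹' {q : (ℝ × ℝ) × (ℝ × ℝ) | q.1 ∈ closedBall y₀ r ∧
          q.2 ∈ closedBall u₀ r ∧ q.1 + φ k q.2 ∉ G k}) := by
          rw [h3]
          exact add_le_add_right (measure_iUnion_fintype_le _ _) 0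
      _ = _ := zero_add _
  have h2 : ∀ k, (volume : Measure ((ℝ × ℝ) × (ℝ × ℝ))) {q : (ℝ × ℝ) × (ℝ × ℝ) |
      q.1 ∈ closedBall y₀ r ∧ q.2 ∈ closedBall u₀ r ∧ q.1 + φ k q.2 ∉ G k} ≤
      volume (closedBall (y₀ + φ k u₀) ((1 + L) * r) \ G k) * volume (closedBall u₀ r) := by
    intro k
    rw [Measure.volume_eq_prod, Measure.prod_apply_symm (hE k)]
    calc ∫⁻ u, volume ((fun y => (y, u)) ⁻¹' {q : (ℝ × ℝ) × (ℝ × ℝ) | q.1 ∈ closedBall y₀ r ∧
          q.2 ∈ closedBall u₀ r ∧ q.1 + φ k q.2 ∉ G k})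
        ≤ ∫⁻ u, (closedBall u₀ r).indicator
          (fun _ => volume (closedBall (y₀ + φ k u₀) ((1 + L) * r) \ G k)) u := by
          refine lintegral_mono fun u => ?_
          by_cases hu : u ∈ closedBall u₀ r
          · rw [indicator_of_mem hu]
            have h3 : ((fun y => (y, u)) ⁻¹' {q : (ℝ × ℝ) × (ℝ × ℝ) | q.1 ∈ closedBall y₀ r ∧
                q.2 ∈ closedBall u₀ r ∧ q.1 + φ k q.2 ∉ G k}) ⊆
                (fun y => y + φ k u) ⁻¹' (closedBall (y₀ + φ k u₀) ((1 + L) * r) \ G k) := by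
              rintro y ⟨hy1, _, hy3⟩
              refine ⟨?_, hy3⟩
              rw [mem_closedBall]
              have h4 := dist_add_add_le y (φ k u) y₀ (φ k u₀)
              have h5 := hLip k u hu
              have h6 : dist y y₀ ≤ r := hy1
              calc _ ≤ dist y y₀ + dist (φ k u) (φ k u₀) := h4
                _ ≤ (1 + L) * r := by linarith
            refine (measure_mono h3).trans ?_
            rw [measure_preimage_add_right]
          · rw [indicator_of_notMem hu]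
            have h3 : ((fun y => (y, u)) ⁻¹' {q : (ℝ × ℝ) × (ℝ × ℝ) | q.1 ∈ closedBall y₀ r ∧
                q.2 ∈ closedBall u₀ r ∧ q.1 + φ k q.2 ∉ G k}) = ∅ := by
              ext y
              simp only [mem_preimage, mem_ofPred_eq, mem_empty_iff_false, iff_false]
              exact fun hh => hu hh.2.1
            rw [h3, measure_empty]
      _ = volume (closedBall (y₀ + φ k u₀) ((1 + L) * r) \ G k) * volume (closedBall u₀ r) := by
          rw [lintegral_indicator measurableSet_closedBall, setLIntegral_const]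
  have h3 : volume (closedBall u₀ r) * volume (closedBall y₀ r \ Y) ≤
      (∑ k, volume (closedBall (y₀ + φ k u₀) ((1 + L) * r) \ G k)) *
        volume (closedBall u₀ r) := by
    calc volume (closedBall u₀ r) * volume (closedBall y₀ r \ Y)
        = ∫⁻ _ in closedBall y₀ r \ Y, volume (closedBall u₀ r) := by rw [setLIntegral_const]
      _ ≤ ∫⁻ y in closedBall y₀ r \ Y, ∑ k, volume (Prod.mk y ⁻¹' {q : (ℝ × ℝ) × (ℝ × ℝ) |
            q.1 ∈ closedBall y₀ r ∧ q.2 ∈ closedBall u₀ r ∧ q.1 + φ k q.2 ∉ G k}) :=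
          setLIntegral_mono' (measurableSet_closedBall.diff mY) h1
      _ ≤ ∫⁻ y, ∑ k, volume (Prod.mk y ⁻¹' {q : (ℝ × ℝ) × (ℝ × ℝ) |
            q.1 ∈ closedBall y₀ r ∧ q.2 ∈ closedBall u₀ r ∧ q.1 + φ k q.2 ∉ G k}) :=
          setLIntegral_le_lintegral _ _
      _ = ∑ k, ∫⁻ y, volume (Prod.mk y ⁻¹' {q : (ℝ × ℝ) × (ℝ × ℝ) |
            q.1 ∈ closedBall y₀ r ∧ q.2 ∈ closedBall u₀ r ∧ q.1 + φ k q.2 ∉ G k}) :=
          lintegral_finsetSum _ fun k _ => measurable_measure_prodMk_left (hE k)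
      _ = ∑ k, (volume : Measure ((ℝ × ℝ) × (ℝ × ℝ))) {q : (ℝ × ℝ) × (ℝ × ℝ) |
            q.1 ∈ closedBall y₀ r ∧ q.2 ∈ closedBall u₀ r ∧ q.1 + φ k q.2 ∉ G k} := by
          refine Finset.sum_congr rfl fun k _ => ?_
          exact (Measure.prod_apply (μ := (volume : Measure (ℝ × ℝ)))
            (ν := (volume : Measure (ℝ × ℝ))) (hE k)).symm
      _ ≤ ∑ k, volume (closedBall (y₀ + φ k u₀) ((1 + L) * r) \ G k) *
            volume (closedBall u₀ r) := Finset.sum_le_sum fun k _ => h2 k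
      _ = _ := by rw [Finset.sum_mul]
  rw [mul_comm] at h3
  exact (ENNReal.mul_le_mul_iff_left hV0 hVt).1 h3

/-- from the complement to density one -/
private theorem dg_one {Y : Set (ℝ × ℝ)} {y₀ : ℝ × ℝ}
    (h : ∀ ε : ℝ, 0 < ε → ∀ᶠ n in atTop,
      volume (closedBall y₀ (rad n) \ Y) ≤ ENNReal.ofReal (ε * rad n ^ 2)) : Dens1 Y y₀ := by
  have hB0 : ∀ n, volume (closedBall y₀ (rad n)) ≠ 0 := by
    intro n
    have := dg_rad n
    rw [vol_ball y₀ this.le]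
    exact (ENNReal.ofReal_pos.2 (by positivity)).ne'
  have hBt : ∀ n, volume (closedBall y₀ (rad n)) ≠ ⊤ := by
    intro n
    rw [vol_ball y₀ (dg_rad n).le]
    exact ENNReal.ofReal_ne_top
  have hle : ∀ n, dens Y n y₀ ≤ 1 := by
    intro n
    unfold dens
    rw [ENNReal.div_le_iff (hB0 n) (hBt n), one_mul]
    exact measure_mono inter_subset_right
  unfold Dens1
  rw [ENNReal.tendsto_nhds ENNReal.one_ne_top]
  intro ε hε
  -- a real number below `ε`
  obtain ⟨e, he0, he⟩ : ∃ e : ℝ, 0 < e ∧ ENNReal.ofReal e ≤ ε := by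
    by_cases ht : ε = ⊤
    · exact ⟨1, one_pos, by rw [ht]; exact le_top⟩
    · exact ⟨ε.toReal, ENNReal.toReal_pos hε.ne' ht, by rw [ENNReal.ofReal_toReal ht]⟩
  filter_upwards [h (4 * e) (by positivity)] with n hn
  refine ⟨?_, (hle n).trans le_self_add⟩
  rw [tsub_le_iff_right]
  have hr := dg_rad n
  have h1 : volume (closedBall y₀ (rad n)) ≤ volume (Y ∩ closedBall y₀ (rad n)) +
      volume (closedBall y₀ (rad n) \ Y) := by
    refine le_trans (measure_mono ?_) (measure_union_le _ _)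
    intro x hx
    by_cases hxY : x ∈ Y
    · exact Or.inl ⟨hxY, hx⟩
    · exact Or.inr ⟨hx, hxY⟩
  have h2 : volume (closedBall y₀ (rad n) \ Y) ≤
      ENNReal.ofReal e * volume (closedBall y₀ (rad n)) := by
    rw [vol_ball y₀ hr.le, ← ENNReal.ofReal_mul he0.le]
    refine hn.trans (le_of_eq ?_)
    congr 1
    ring
  have h3 : (1 : ENNReal) = volume (closedBall y₀ (rad n)) / volume (closedBall y₀ (rad n)) :=
    (ENNReal.div_self (hB0 n) (hBt n)).symm
  calc (1 : ENNReal) = volume (closedBall y₀ (rad n)) / volume (closedBall y₀ (rad n)) := h3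
    _ ≤ (volume (Y ∩ closedBall y₀ (rad n)) + ENNReal.ofReal e *
          volume (closedBall y₀ (rad n))) / volume (closedBall y₀ (rad n)) :=
        ENNReal.div_le_div_right (h1.trans (add_le_add_right h2 _)) _
    _ = dens Y n y₀ + ENNReal.ofReal e := by
        rw [ENNReal.add_div, ENNReal.mul_div_cancel_right (hB0 n) (hBt n)]
        rfl
    _ ≤ dens Y n y₀ + ε := add_le_add_right he _

theorem dens_good {m : ℕ} (φ : Fin m → ℝ × ℝ → ℝ × ℝ) (G : Fin m → Set (ℝ × ℝ))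
    (hφ : ∀ k, ContDiff ℝ 1 (φ k)) (mG : ∀ k, MeasurableSet (G k)) {y₀ u₀ : ℝ × ℝ}
    (h : ∀ k, Dens1 (G k) (y₀ + φ k u₀)) {δ : ℝ} (hδ : 0 < δ) :
    Dens1 {y : ℝ × ℝ | volume {u : ℝ × ℝ | u ∈ closedBall u₀ δ ∧ ∀ k, y + φ k u ∈ G k} ≠ 0} y₀ := by
  have hc : ∀ k, Continuous (φ k) := fun k => (hφ k).continuous
  refine dg_one fun ε hε => ?_
  -- a common Lipschitz constant
  have hlip : ∀ k, ∃ K : NNReal, ∀ᶠ u in 𝓝 u₀, dist (φ k u) (φ k u₀) ≤ K * dist u u₀ := by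
    intro k
    obtain ⟨K, t, ht, hK⟩ := (hφ k).contDiffAt.exists_lipschitzOnWith (x := u₀)
    refine ⟨K, ?_⟩
    filter_upwards [ht] with u hu
    exact hK.dist_le_mul u hu u₀ (mem_of_mem_nhds ht)
  choose K hK using hlip
  have hL0 : (0 : ℝ) ≤ ∑ k, (K k : ℝ) := Finset.sum_nonneg fun k _ => (K k).2
  have hKL : ∀ k, (K k : ℝ) ≤ ∑ k, (K k : ℝ) := fun k =>
    Finset.single_le_sum (f := fun k => (K k : ℝ)) (fun k _ => (K k).2) (Finset.mem_univ k)
  obtain ⟨ρ, hρ, hρ2⟩ := Metric.eventually_nhds_iff.1 (Filter.eventually_all.2 hK)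
  have hr0 : Tendsto rad atTop (𝓝 0) := by
    unfold rad
    exact tendsto_pow_atTop_nhds_zero_of_lt_one (by norm_num) (by norm_num)
  have e1 : ∀ᶠ n in atTop, rad n < min ρ δ := hr0.eventually_lt_const (lt_min hρ hδ)
  have e2 : ∀ᶠ n in atTop, ∀ k, volume (closedBall (y₀ + φ k u₀)
      ((1 + ∑ k, (K k : ℝ)) * rad n) \ G k) ≤ ENNReal.ofReal (ε / (m + 1) * rad n ^ 2) :=
    Filter.eventually_all.2 fun k => dens1_scale (mG k) (h k) (by positivity) (by positivity)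
  filter_upwards [e1, e2] with n h1 h2
  have hr := dg_rad n
  have h3 := dg_core φ G hc mG (y₀ := y₀) (u₀ := u₀) (δ := δ) (L := ∑ k, (K k : ℝ)) hr
    (h1.le.trans (min_le_right _ _)) (by
      intro k u hu
      have h4 : dist u u₀ ≤ rad n := hu
      have h5 := hρ2 (lt_of_le_of_lt h4 (h1.trans_le (min_le_left _ _))) k
      calc _ ≤ (K k : ℝ) * dist u u₀ := h5
        _ ≤ (∑ k, (K k : ℝ)) * rad n := mul_le_mul (hKL k) h4 dist_nonneg hL0)
  refine h3.trans ((Finset.sum_le_sum fun k _ => h2 k).trans ?_)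
  rw [Finset.sum_const, Finset.card_univ, Fintype.card_fin, nsmul_eq_mul,
    ← ENNReal.ofReal_natCast, ← ENNReal.ofReal_mul (Nat.cast_nonneg m)]
  refine ENNReal.ofReal_le_ofReal ?_
  have h6 : (m : ℝ) * (ε / (m + 1)) ≤ ε := by
    rw [mul_div_assoc', div_le_iff₀ (by positivity)]
    nlinarith [Nat.cast_nonneg (α := ℝ) m]
  calc (m : ℝ) * (ε / (m + 1) * rad n ^ 2) = (m : ℝ) * (ε / (m + 1)) * rad n ^ 2 := by ring
    _ ≤ ε * rad n ^ 2 := mul_le_mul_of_nonneg_right h6 (by positivity)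

theorem measurable_good {m : ℕ} (φ : Fin m → ℝ × ℝ → ℝ × ℝ) (G : Fin m → Set (ℝ × ℝ))
    (hφ : ∀ k, Continuous (φ k)) (mG : ∀ k, MeasurableSet (G k)) (u₀ : ℝ × ℝ) (δ : ℝ) :
    MeasurableSet
      {y : ℝ × ℝ | volume {u : ℝ × ℝ | u ∈ closedBall u₀ δ ∧ ∀ k, y + φ k u ∈ G k} ≠ 0} :=
  dg_meas φ G hφ mG u₀ δ

end Pool.Agent.TNM
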