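import Pool.Agent.TNM.Aep
import Pool.Agent.H99M.DensB

/-!
# Points of density one

Lebesgue's density theorem for points and for pairs (point, parameter), and common translates of
two points of density one.
-/

open Set MeasureTheory Filter Topology Metric
open Pool.Agent.Helper2.LM Pool.Agent.H99M

namespace Pool.Agent.TNM

private theorem dn_rad_pos (n : ℕ) : 0 < rad n := by
  unfold rad
  positivity

private theorem dn_tendsto_rad : Tendsto rad atTop (𝓝[>] (0 : ℝ)) := by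
  refine tendsto_nhdsWithin_iff.2 ⟨?_, Eventually.of_forall fun n => dn_rad_pos n⟩
  exact tendsto_pow_atTop_nhds_zero_of_lt_one (by norm_num) (by norm_num)

theorem ae_dens1 {S : Set (ℝ × ℝ)} (mS : MeasurableSet S) : ∀ᵐ x : ℝ × ℝ, x ∈ S → Dens1 S x := by
  have h2 := Besicovitch.ae_tendsto_measure_inter_div (volume : Measure (ℝ × ℝ)) S
  rw [ae_restrict_iff' mS] at h2
  filter_upwards [h2] with x hx hxA
  exact (hx hxA).comp dn_tendsto_rad

theorem ae_dens1_pt {β : ℝ → ℝ × ℝ} (hβ : Continuous β) {S : Set (ℝ × ℝ)}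
    (mS : MeasurableSet S) :
    ∀ᵐ p : (ℝ × ℝ) × ℝ, p.1 + β p.2 ∈ S → Dens1 S (p.1 + β p.2) := by
  have h1 : volume {x : ℝ × ℝ | x ∈ S ∧ ¬ Dens1 S x} = 0 := by
    rw [measure_eq_zero_iff_ae_notMem]
    filter_upwards [ae_dens1 mS] with x hx hxm
    exact hxm.2 (hx hxm.1)
  have h2 := null_pt hβ h1
  rw [measure_eq_zero_iff_ae_notMem] at h2
  filter_upwards [h2] with p hp hpS
  by_contra hD
  exact hp ⟨hpS, hD⟩

theorem meet2 {S₁ S₂ : Set (ℝ × ℝ)} (m₁ : MeasurableSet S₁) (m₂ : MeasurableSet S₂)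
    {p₁ p₂ : ℝ × ℝ} (h₁ : Dens1 S₁ p₁) (h₂ : Dens1 S₂ p₂) :
    ∃ z, p₁ + z ∈ S₁ ∧ p₂ + z ∈ S₂ := by
  obtain ⟨n, hn1, hn2⟩ := ((dens1_scale m₁ h₁ one_pos one_pos).and
    (dens1_scale m₂ h₂ one_pos one_pos)).exists
  have hr := dn_rad_pos n
  rw [one_mul, one_mul] at hn1 hn2
  by_contra hno
  push Not at hno
  have hsub : closedBall (0 : ℝ × ℝ) (rad n) ⊆
      ((fun z => p₁ + z) ⁻¹' (closedBall p₁ (rad n) \ S₁)) ∪
      ((fun z => p₂ + z) ⁻¹' (closedBall p₂ (rad n) \ S₂)) := by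
    intro z hz
    rw [mem_closedBall, dist_zero_right] at hz
    have e : ∀ p : ℝ × ℝ, p + z ∈ closedBall p (rad n) := by
      intro p
      rw [mem_closedBall, dist_eq_norm, add_sub_cancel_left]
      exact hz
    by_cases hS : p₁ + z ∈ S₁
    · exact Or.inr ⟨e p₂, hno z hS⟩
    · exact Or.inl ⟨e p₁, hS⟩
  have h3 : volume (closedBall (0 : ℝ × ℝ) (rad n)) ≤
      ENNReal.ofReal (rad n ^ 2) + ENNReal.ofReal (rad n ^ 2) := by
    refine (measure_mono hsub).trans ((measure_union_le _ _).trans ?_)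
    rw [measure_preimage_add, measure_preimage_add]
    exact add_le_add hn1 hn2
  rw [vol_ball _ hr.le, ← ENNReal.ofReal_add (by positivity) (by positivity),
    ENNReal.ofReal_le_ofReal_iff (by positivity)] at h3
  nlinarith [pow_pos hr 2]

end Pool.Agent.TNM
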