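import Pool.Agent.TNM.Defs

/-!
# Upper bounds for sets of paths

Plan. Tonelli on `(ℝ × ℝ) × (ℝ × ℝ)` (`Measure.volume_eq_prod`, `Measure.prod_apply_symm`:
integrate over `u = q.2` the measure of `{y | (y, u) ∈ …}`). For fixed `u` in the square the section
is a translate by `ψ u` of the section `{x | (x, u.1) ∈ N}` of `N` (`measure_preimage_add_right`),
otherwise it is empty. The integral over `u.2` of a function which does not depend on `u.2` gives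
the factor `volume (Icc (t - ρ) (t + ρ)) = ofReal (2 * ρ)`, the integral over `u.1` of the measures of
the sections of `N` is at most `volume N` (`Measure.prod_apply_symm` again). `fill_up2`: the same with
the roles of `u.1` and `u.2` exchanged.
-/

open Set MeasureTheory Filter Topology Metric
open Pool.Agent.Helper2.LM Pool.Agent.H99M

namespace Pool.Agent.TNM

private theorem fillB_sect {ψ : ℝ × ℝ → ℝ × ℝ} {N : Set ((ℝ × ℝ) × ℝ)} (u : ℝ × ℝ) (v t ρ : ℝ) :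
    volume {y : ℝ × ℝ | |u.1 - t| ≤ ρ ∧ |u.2 - t| ≤ ρ ∧ (y + ψ u, v) ∈ N} ≤
      (Icc (t - ρ) (t + ρ)).indicator (fun _ => (1 : ENNReal)) u.1 *
      ((Icc (t - ρ) (t + ρ)).indicator (fun _ => (1 : ENNReal)) u.2 *
      volume {x : ℝ × ℝ | (x, v) ∈ N}) := by
  by_cases h1 : |u.1 - t| ≤ ρ
  · by_cases h2 : |u.2 - t| ≤ ρ
    · have m1 : u.1 ∈ Icc (t - ρ) (t + ρ) := by
        rw [abs_le] at h1
        exact ⟨by linarith [h1.1], by linarith [h1.2]⟩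
      have m2 : u.2 ∈ Icc (t - ρ) (t + ρ) := by
        rw [abs_le] at h2
        exact ⟨by linarith [h2.1], by linarith [h2.2]⟩
      rw [indicator_of_mem m1, indicator_of_mem m2, one_mul, one_mul]
      have e : {y : ℝ × ℝ | |u.1 - t| ≤ ρ ∧ |u.2 - t| ≤ ρ ∧ (y + ψ u, v) ∈ N} =
          (fun y => y + ψ u) ⁻¹' {x : ℝ × ℝ | (x, v) ∈ N} := by
        ext y
        simp only [mem_ofPred_eq, mem_preimage]
        exact ⟨fun h => h.2.2, fun h => ⟨h1, h2, h⟩⟩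
      rw [e, measure_preimage_add_right]
    · have e : {y : ℝ × ℝ | |u.1 - t| ≤ ρ ∧ |u.2 - t| ≤ ρ ∧ (y + ψ u, v) ∈ N} = ∅ := by
        ext y
        simp [h2]
      rw [e, measure_empty]
      exact bot_le
  · have e : {y : ℝ × ℝ | |u.1 - t| ≤ ρ ∧ |u.2 - t| ≤ ρ ∧ (y + ψ u, v) ∈ N} = ∅ := by
      ext y
      simp [h1]
    rw [e, measure_empty]
    exact bot_le

private theorem fillB_ind {t ρ : ℝ} :
    Measurable ((Icc (t - ρ) (t + ρ)).indicator (fun _ => (1 : ENNReal))) :=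
  measurable_const.indicator measurableSet_Icc

private theorem fillB_int {t ρ : ℝ} :
    ∫⁻ v : ℝ, (Icc (t - ρ) (t + ρ)).indicator (fun _ => (1 : ENNReal)) v = ENNReal.ofReal (2 * ρ) := by
  rw [lintegral_indicator measurableSet_Icc, setLIntegral_one, Real.volume_Icc]
  congr 1
  ring

private theorem fillB_ind_le {t ρ : ℝ} (v : ℝ) :
    (Icc (t - ρ) (t + ρ)).indicator (fun _ => (1 : ENNReal)) v ≤ 1 :=
  indicator_le_self' (fun _ _ => zero_le_one) v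

private theorem fillB_N {N : Set ((ℝ × ℝ) × ℝ)} (mN : MeasurableSet N) :
    ∫⁻ v : ℝ, volume {x : ℝ × ℝ | (x, v) ∈ N} = volume N := by
  exact (Measure.prod_apply_symm (μ := (volume : Measure (ℝ × ℝ))) (ν := (volume : Measure ℝ)) mN).symm

private theorem fillB_g {N : Set ((ℝ × ℝ) × ℝ)} (mN : MeasurableSet N) :
    Measurable fun v : ℝ => volume {x : ℝ × ℝ | (x, v) ∈ N} :=
  measurable_measure_prodMk_right mN

theorem fill_up1 {ψ : ℝ × ℝ → ℝ × ℝ} (hψ : Continuous ψ) {N : Set ((ℝ × ℝ) × ℝ)}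
    (mN : MeasurableSet N) (t : ℝ) {ρ : ℝ} (hρ : 0 ≤ ρ) :
    volume {q : (ℝ × ℝ) × (ℝ × ℝ) | |q.2.1 - t| ≤ ρ ∧ |q.2.2 - t| ≤ ρ ∧
      (q.1 + ψ q.2, q.2.1) ∈ N} ≤ ENNReal.ofReal (2 * ρ) * volume N := by
  have m1 : MeasurableSet {q : (ℝ × ℝ) × (ℝ × ℝ) | |q.2.1 - t| ≤ ρ} :=
    measurableSet_le (by fun_prop) measurable_const
  have m2 : MeasurableSet {q : (ℝ × ℝ) × (ℝ × ℝ) | |q.2.2 - t| ≤ ρ} :=
    measurableSet_le (by fun_prop) measurable_const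
  have m3 : MeasurableSet {q : (ℝ × ℝ) × (ℝ × ℝ) | (q.1 + ψ q.2, q.2.1) ∈ N} := by
    have hc : Continuous fun q : (ℝ × ℝ) × (ℝ × ℝ) => (q.1 + ψ q.2, q.2.1) := by fun_prop
    exact hc.measurable mN
  have mQ := m1.inter (m2.inter m3)
  have h0 : volume {q : (ℝ × ℝ) × (ℝ × ℝ) | |q.2.1 - t| ≤ ρ ∧ |q.2.2 - t| ≤ ρ ∧
      (q.1 + ψ q.2, q.2.1) ∈ N} = ∫⁻ u : ℝ × ℝ, volume {y : ℝ × ℝ | |u.1 - t| ≤ ρ ∧
        |u.2 - t| ≤ ρ ∧ (y + ψ u, u.1) ∈ N} := by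
    conv_lhs => rw [Measure.volume_eq_prod]
    exact Measure.prod_apply_symm mQ
  rw [h0]
  calc ∫⁻ u : ℝ × ℝ, volume {y : ℝ × ℝ | |u.1 - t| ≤ ρ ∧ |u.2 - t| ≤ ρ ∧ (y + ψ u, u.1) ∈ N}
      ≤ ∫⁻ u : ℝ × ℝ, volume {x : ℝ × ℝ | (x, u.1) ∈ N} *
        (Icc (t - ρ) (t + ρ)).indicator (fun _ => (1 : ENNReal)) u.2 := by
        refine lintegral_mono fun u => (fillB_sect u u.1 t ρ).trans ?_
        refine (mul_le_mul_left (fillB_ind_le _) _).trans ?_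
        rw [one_mul, mul_comm]
    _ = (∫⁻ v : ℝ, volume {x : ℝ × ℝ | (x, v) ∈ N}) *
        ∫⁻ v : ℝ, (Icc (t - ρ) (t + ρ)).indicator (fun _ => (1 : ENNReal)) v := by
        rw [Measure.volume_eq_prod]
        exact lintegral_prod_mul (fillB_g mN).aemeasurable fillB_ind.aemeasurable
    _ = ENNReal.ofReal (2 * ρ) * volume N := by
        rw [fillB_N mN, fillB_int, mul_comm]

theorem fill_up2 {ψ : ℝ × ℝ → ℝ × ℝ} (hψ : Continuous ψ) {N : Set ((ℝ × ℝ) × ℝ)}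
    (mN : MeasurableSet N) (t : ℝ) {ρ : ℝ} (hρ : 0 ≤ ρ) :
    volume {q : (ℝ × ℝ) × (ℝ × ℝ) | |q.2.1 - t| ≤ ρ ∧ |q.2.2 - t| ≤ ρ ∧
      (q.1 + ψ q.2, q.2.2) ∈ N} ≤ ENNReal.ofReal (2 * ρ) * volume N := by
  have m1 : MeasurableSet {q : (ℝ × ℝ) × (ℝ × ℝ) | |q.2.1 - t| ≤ ρ} :=
    measurableSet_le (by fun_prop) measurable_const
  have m2 : MeasurableSet {q : (ℝ × ℝ) × (ℝ × ℝ) | |q.2.2 - t| ≤ ρ} :=
    measurableSet_le (by fun_prop) measurable_const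
  have m3 : MeasurableSet {q : (ℝ × ℝ) × (ℝ × ℝ) | (q.1 + ψ q.2, q.2.2) ∈ N} := by
    have hc : Continuous fun q : (ℝ × ℝ) × (ℝ × ℝ) => (q.1 + ψ q.2, q.2.2) := by fun_prop
    exact hc.measurable mN
  have mQ := m1.inter (m2.inter m3)
  have h0 : volume {q : (ℝ × ℝ) × (ℝ × ℝ) | |q.2.1 - t| ≤ ρ ∧ |q.2.2 - t| ≤ ρ ∧
      (q.1 + ψ q.2, q.2.2) ∈ N} = ∫⁻ u : ℝ × ℝ, volume {y : ℝ × ℝ | |u.1 - t| ≤ ρ ∧
        |u.2 - t| ≤ ρ ∧ (y + ψ u, u.2) ∈ N} := by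
    conv_lhs => rw [Measure.volume_eq_prod]
    exact Measure.prod_apply_symm mQ
  rw [h0]
  calc ∫⁻ u : ℝ × ℝ, volume {y : ℝ × ℝ | |u.1 - t| ≤ ρ ∧ |u.2 - t| ≤ ρ ∧ (y + ψ u, u.2) ∈ N}
      ≤ ∫⁻ u : ℝ × ℝ, (Icc (t - ρ) (t + ρ)).indicator (fun _ => (1 : ENNReal)) u.1 *
        volume {x : ℝ × ℝ | (x, u.2) ∈ N} := by
        refine lintegral_mono fun u => (fillB_sect u u.2 t ρ).trans ?_
        refine mul_le_mul_right ?_ _
        refine (mul_le_mul_left (fillB_ind_le _) _).trans ?_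
        rw [one_mul]
    _ = (∫⁻ v : ℝ, (Icc (t - ρ) (t + ρ)).indicator (fun _ => (1 : ENNReal)) v) *
        ∫⁻ v : ℝ, volume {x : ℝ × ℝ | (x, v) ∈ N} := by
        rw [Measure.volume_eq_prod]
        exact lintegral_prod_mul fillB_ind.aemeasurable (fillB_g mN).aemeasurable
    _ = ENNReal.ofReal (2 * ρ) * volume N := by
        rw [fillB_N mN, fillB_int]

end Pool.Agent.TNM
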