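import Pool.Agent.TNM.Defs

/-!
# Bounds for bad sets of pairs

See `nb_Y`, `nb_A`, `loc_lip`.
-/

open Set MeasureTheory Filter Topology Metric
open Pool.Agent.Helper2.LM Pool.Agent.H99M

namespace Pool.Agent.TNM

theorem nb_Y {Y : Set (ℝ × ℝ)} (mY : MeasurableSet Y) (x₀ : ℝ × ℝ) (t : ℝ) {R : ℝ}
    (hR : 0 ≤ R) :
    volume (NY Y ∩ closedBall (x₀, t) R) ≤ ENNReal.ofReal (2 * R) * volume (closedBall x₀ R \ Y) := by
  have h1 : NY Y ∩ closedBall (x₀, t) R ⊆ (closedBall x₀ R \ Y) ×ˢ closedBall t R := by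
    rintro p ⟨h1, h2⟩
    rw [← closedBall_prod_same] at h2
    exact ⟨⟨h2.1, h1⟩, h2.2⟩
  refine (measure_mono h1).trans ?_
  rw [Measure.volume_eq_prod (ℝ × ℝ) ℝ, Measure.prod_prod, Real.volume_closedBall, mul_comm]

theorem nb_A {δ : ℝ → ℝ × ℝ} (hδ : Continuous δ) {A : Set (ℝ × ℝ)} (mA : MeasurableSet A)
    (x₀ : ℝ × ℝ) (t : ℝ) {R L : ℝ} (hR : 0 ≤ R) (hL0 : 0 ≤ L)
    (hL : ∀ s, |s - t| ≤ R → ‖δ s - δ t‖ ≤ L * |s - t|) :
    volume (NA δ A ∩ closedBall (x₀, t) R) ≤
      ENNReal.ofReal (2 * R) * volume (A ∩ closedBall (x₀ + δ t) ((1 + L) * R)) := by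
  have mM : MeasurableSet (NA δ A ∩ closedBall (x₀, t) R) :=
    ((measurable_fst.add (hδ.measurable.comp measurable_snd)) mA).inter
      isClosed_closedBall.measurableSet
  rw [Measure.volume_eq_prod (ℝ × ℝ) ℝ, Measure.prod_apply_symm mM]
  have h1 : ∀ s : ℝ, volume ((fun x : ℝ × ℝ => (x, s)) ⁻¹' (NA δ A ∩ closedBall (x₀, t) R)) ≤
      (closedBall t R).indicator
        (fun _ => volume (A ∩ closedBall (x₀ + δ t) ((1 + L) * R))) s := by
    intro s
    by_cases hs : s ∈ closedBall t R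
    · rw [indicator_of_mem hs]
      have h2 : (fun x : ℝ × ℝ => (x, s)) ⁻¹' (NA δ A ∩ closedBall (x₀, t) R) ⊆
          (fun x => x + δ s) ⁻¹' (A ∩ closedBall (x₀ + δ t) ((1 + L) * R)) := by
        rintro x ⟨h3, h4⟩
        rw [← closedBall_prod_same] at h4
        refine ⟨h3, ?_⟩
        have h5 : dist x x₀ ≤ R := h4.1
        have h6 : |s - t| ≤ R := hs
        rw [mem_closedBall, dist_eq_norm]
        rw [dist_eq_norm] at h5
        have h7 : x + δ s - (x₀ + δ t) = (x - x₀) + (δ s - δ t) := by abel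
        rw [h7]
        calc ‖(x - x₀) + (δ s - δ t)‖ ≤ ‖x - x₀‖ + ‖δ s - δ t‖ := norm_add_le _ _
          _ ≤ R + L * |s - t| := add_le_add h5 (hL s h6)
          _ ≤ R + L * R := by
            have := mul_le_mul_of_nonneg_left h6 hL0
            linarith
          _ = (1 + L) * R := by ring
      refine (measure_mono h2).trans ?_
      rw [measure_preimage_add_right]
    · rw [indicator_of_notMem hs]
      have h2 : (fun x : ℝ × ℝ => (x, s)) ⁻¹' (NA δ A ∩ closedBall (x₀, t) R) = ∅ := by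
        ext x
        simp only [mem_preimage, mem_empty_iff_false, iff_false]
        rintro ⟨-, h4⟩
        rw [← closedBall_prod_same] at h4
        exact hs h4.2
      rw [h2, measure_empty]
  refine (lintegral_mono h1).trans ?_
  rw [lintegral_indicator isClosed_closedBall.measurableSet, setLIntegral_const,
    Real.volume_closedBall, mul_comm]

theorem loc_lip {δ : ℝ → ℝ × ℝ} (hδ : ContDiff ℝ 1 δ) (t₀ R : ℝ) :
    ∃ L : ℝ, 0 < L ∧ ∀ s t, |s - t₀| ≤ R → |t - t₀| ≤ R → ‖δ s - δ t‖ ≤ L * |s - t| := by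
  have hc : Continuous (deriv δ) := hδ.continuous_deriv le_rfl
  obtain ⟨C, hC⟩ := (isCompact_Icc (a := t₀ - R) (b := t₀ + R)).exists_bound_of_continuousOn
    hc.continuousOn
  have hd : Differentiable ℝ δ := hδ.differentiable one_ne_zero
  refine ⟨max C 1, lt_of_lt_of_le one_pos (le_max_right _ _), fun s t hs ht => ?_⟩
  have hs' : s ∈ Icc (t₀ - R) (t₀ + R) := by
    rw [abs_le] at hs
    constructor <;> linarith
  have ht' : t ∈ Icc (t₀ - R) (t₀ + R) := by
    rw [abs_le] at ht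
    constructor <;> linarith
  have h := Convex.norm_image_sub_le_of_norm_deriv_le (f := δ) (C := C)
    (fun x _ => hd x) hC (convex_Icc _ _) ht' hs'
  rw [Real.norm_eq_abs] at h
  exact h.trans (mul_le_mul_of_nonneg_right (le_max_left _ _) (abs_nonneg _))

end Pool.Agent.TNM
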