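import Pool.Agent.TNM.FillA
import Pool.Agent.TNM.FillB
import Pool.Agent.TNM.Nb

/-!
# Two implications along two curves force a set to be filled

Two paths of implications: `fill_low` against `fill_up1`, `fill_up2`.
-/

open Set MeasureTheory Filter Topology Metric
open Pool.Agent.Helper2.LM Pool.Agent.H99M

namespace Pool.Agent.TNM

private theorem fill_tri {a b c d : ℝ × ℝ} {r s : ℝ} (h1 : ‖a - b‖ ≤ r) (h2 : ‖c - d‖ ≤ s) :
    ‖(a - b) + (c - d)‖ ≤ r + s := (norm_add_le _ _).trans (add_le_add h1 h2)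

theorem fill {β₁ β₂ β₃ : ℝ → ℝ × ℝ} (h₁ : ContDiff ℝ 1 β₁) (h₂ : ContDiff ℝ 1 β₂)
    (h₃ : ContDiff ℝ 1 β₃) {t₀ : ℝ}
    (h : det2 (deriv β₂ t₀ - deriv β₁ t₀) (deriv β₃ t₀ - deriv β₂ t₀) ≠ 0) :
    ∃ η K c : ℝ, 0 < η ∧ 0 < K ∧ 0 < c ∧
      ∀ (x₀ : ℝ × ℝ) (t r : ℝ) (S₁ S₂ S₃ : Set (ℝ × ℝ)) (N₁ N₂ : Set ((ℝ × ℝ) × ℝ)),
        |t - t₀| ≤ η → 0 < r → r ≤ η → MeasurableSet S₁ → MeasurableSet S₃ →
        MeasurableSet N₁ → MeasurableSet N₂ →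
        (∀ p : (ℝ × ℝ) × ℝ, p ∉ N₁ → p.1 + β₁ p.2 ∈ S₁ → p.1 + β₂ p.2 ∈ S₂) →
        (∀ p : (ℝ × ℝ) × ℝ, p ∉ N₂ → p.1 + β₂ p.2 ∈ S₂ → p.1 + β₃ p.2 ∈ S₃) →
          ENNReal.ofReal c * (volume (S₁ ∩ closedBall (x₀ + β₁ t) r) *
              volume (closedBall (x₀ + β₃ t) r \ S₃)) ≤
            ENNReal.ofReal (K * r) * (volume (N₁ ∩ closedBall (x₀, t) (K * r)) +
              volume (N₂ ∩ closedBall (x₀, t) (K * r))) := by
  have d₁ : Differentiable ℝ β₁ := h₁.differentiable one_ne_zero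
  have d₂ : Differentiable ℝ β₂ := h₂.differentiable one_ne_zero
  have d₃ : Differentiable ℝ β₃ := h₃.differentiable one_ne_zero
  have hα : ContDiff ℝ 1 (fun s => β₂ s - β₁ s) := h₂.sub h₁
  have hβ : ContDiff ℝ 1 (fun s => β₃ s - β₂ s) := h₃.sub h₂
  have h' : det2 (deriv (fun s => β₂ s - β₁ s) t₀) (deriv (fun s => β₃ s - β₂ s) t₀) ≠ 0 := by
    rw [deriv_fun_sub (d₂ t₀) (d₁ t₀), deriv_fun_sub (d₃ t₀) (d₂ t₀)]
    exact h
  obtain ⟨η₀, K₀, c₀, hη₀, hK₀, hc₀, key⟩ := fill_low hα hβ h'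
  obtain ⟨L₁, hL₁, l₁⟩ := loc_lip h₁ t₀ (1 + K₀)
  obtain ⟨L₂, hL₂, l₂⟩ := loc_lip h₂ t₀ (1 + K₀)
  refine ⟨min η₀ 1, 2 * K₀ + 1 + L₁ * K₀ + 2 * (L₂ * K₀), c₀, lt_min hη₀ one_pos,
    by positivity, hc₀, ?_⟩
  intro x₀ t r S₁ S₂ S₃ N₁ N₂ ht hr hrη mS₁ mS₃ mN₁ mN₂ i₁ i₂
  have hr1 : r ≤ 1 := hrη.trans (min_le_right _ _)
  have ht1 : |t - t₀| ≤ 1 := ht.trans (min_le_right _ _)
  generalize hK : 2 * K₀ + 1 + L₁ * K₀ + 2 * (L₂ * K₀) = K
  have hKr : 2 * (K₀ * r) ≤ K * r := by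
    rw [← hK]
    nlinarith [mul_pos hK₀ hr, mul_pos (mul_pos hL₁ hK₀) hr, mul_pos (mul_pos hL₂ hK₀) hr]
  have e := key t r (x₀ + β₁ t) (S₁ ∩ closedBall (x₀ + β₁ t) r)
    (closedBall (x₀ + β₃ t) r \ S₃) (ht.trans (min_le_left _ _)) hr
    (hrη.trans (min_le_left _ _)) (mS₁.inter measurableSet_closedBall)
    (measurableSet_closedBall.diff mS₃) inter_subset_right (by
      have h0 : x₀ + β₁ t + (fun s => β₂ s - β₁ s) t + (fun s => β₃ s - β₂ s) t =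
          x₀ + β₃ t := by
        beta_reduce
        abel
      rw [h0]
      exact sdiff_subset)
  refine e.trans ?_
  have c₁ : Continuous β₁ := h₁.continuous
  have c₂ : Continuous β₂ := h₂.continuous
  have up1 := fill_up1 (ψ := fun u : ℝ × ℝ => - β₁ u.1)
    (by fun_prop) (mN₁.inter (measurableSet_closedBall (x := (x₀, t)) (ε := K * r))) t
    (ρ := K₀ * r) (by positivity)
  have up2 := fill_up2 (ψ := fun u : ℝ × ℝ => (β₂ u.1 - β₁ u.1) - β₂ u.2)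
    (by fun_prop) (mN₂.inter (measurableSet_closedBall (x := (x₀, t)) (ε := K * r))) t
    (ρ := K₀ * r) (by positivity)
  have hsub : {q : (ℝ × ℝ) × (ℝ × ℝ) | q.1 ∈ S₁ ∩ closedBall (x₀ + β₁ t) r ∧
      |q.2.1 - t| ≤ K₀ * r ∧ |q.2.2 - t| ≤ K₀ * r ∧
        q.1 + (fun s => β₂ s - β₁ s) q.2.1 + (fun s => β₃ s - β₂ s) q.2.2 ∈
          closedBall (x₀ + β₃ t) r \ S₃} ⊆
      {q : (ℝ × ℝ) × (ℝ × ℝ) | |q.2.1 - t| ≤ K₀ * r ∧ |q.2.2 - t| ≤ K₀ * r ∧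
        (q.1 + (fun u : ℝ × ℝ => - β₁ u.1) q.2, q.2.1) ∈
          N₁ ∩ closedBall (x₀, t) (K * r)} ∪
      {q : (ℝ × ℝ) × (ℝ × ℝ) | |q.2.1 - t| ≤ K₀ * r ∧ |q.2.2 - t| ≤ K₀ * r ∧
        (q.1 + (fun u : ℝ × ℝ => (β₂ u.1 - β₁ u.1) - β₂ u.2) q.2, q.2.2) ∈
          N₂ ∩ closedBall (x₀, t) (K * r)} := by
    rintro ⟨y, u, v⟩ ⟨⟨hy1, hy2⟩, hu, hv, hF1, hF2⟩
    simp only at hy1 hy2 hu hv hF1 hF2
    rw [mem_closedBall, dist_eq_norm] at hy2
    have hu0 : |u - t₀| ≤ 1 + K₀ := by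
      have := abs_sub_le u t t₀
      nlinarith [mul_le_of_le_one_right hK₀.le hr1]
    have hv0 : |v - t₀| ≤ 1 + K₀ := by
      have := abs_sub_le v t t₀
      nlinarith [mul_le_of_le_one_right hK₀.le hr1]
    have ht0 : |t - t₀| ≤ 1 + K₀ := by linarith
    have e1 : ‖β₁ t - β₁ u‖ ≤ L₁ * (K₀ * r) := by
      refine (l₁ t u ht0 hu0).trans (mul_le_mul_of_nonneg_left ?_ hL₁.le)
      rw [abs_sub_comm]
      exact hu
    have huv : |u - v| ≤ 2 * (K₀ * r) := by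
      have := abs_sub_le u t v
      rw [abs_sub_comm t v] at this
      linarith
    have e2 : ‖β₂ u - β₂ v‖ ≤ L₂ * (2 * (K₀ * r)) :=
      (l₂ u v hu0 hv0).trans (mul_le_mul_of_nonneg_left huv hL₂.le)
    have hKu : K₀ * r ≤ K * r := by nlinarith [mul_pos hK₀ hr]
    have m1 : (y + - β₁ u, u) ∈ closedBall (x₀, t) (K * r) := by
      rw [mem_closedBall, Prod.dist_eq, max_le_iff]
      refine ⟨?_, ?_⟩
      · rw [dist_eq_norm]
        have h0 : (y + - β₁ u, u).1 - (x₀, t).1 =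
            (y - (x₀ + β₁ t)) + (β₁ t - β₁ u) := by
          simp only
          abel
        rw [h0]
        refine (fill_tri hy2 e1).trans ?_
        rw [← hK]
        nlinarith [mul_pos hK₀ hr, mul_pos (mul_pos hL₁ hK₀) hr,
          mul_pos (mul_pos hL₂ hK₀) hr]
      · rw [Real.dist_eq]
        exact hu.trans hKu
    have m2 : (y + ((β₂ u - β₁ u) - β₂ v), v) ∈ closedBall (x₀, t) (K * r) := by
      rw [mem_closedBall, Prod.dist_eq, max_le_iff]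
      refine ⟨?_, ?_⟩
      · rw [dist_eq_norm]
        have h0 : (y + ((β₂ u - β₁ u) - β₂ v), v).1 - (x₀, t).1 =
            ((y - (x₀ + β₁ t)) + (β₁ t - β₁ u)) + (β₂ u - β₂ v) := by
          simp only
          abel
        rw [h0]
        refine ((norm_add_le _ _).trans (add_le_add (fill_tri hy2 e1) e2)).trans ?_
        rw [← hK]
        nlinarith [mul_pos hK₀ hr, mul_pos (mul_pos hL₁ hK₀) hr,
          mul_pos (mul_pos hL₂ hK₀) hr]
      · rw [Real.dist_eq]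
        exact hv.trans hKu
    by_cases n1 : (y + - β₁ u, u) ∈ N₁
    · left
      exact ⟨hu, hv, n1, m1⟩
    · right
      refine ⟨hu, hv, ?_, m2⟩
      by_contra n2
      have s2 := i₁ _ n1 (by
        have h0 : (y + - β₁ u, u).1 + β₁ (y + - β₁ u, u).2 = y := by
          simp only
          abel
        rw [h0]
        exact hy1)
      have s3 := i₂ _ n2 (by
        have h0 : (y + ((β₂ u - β₁ u) - β₂ v), v).1 +
            β₂ (y + ((β₂ u - β₁ u) - β₂ v), v).2 =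
            (y + - β₁ u, u).1 + β₂ (y + - β₁ u, u).2 := by
          simp only
          abel
        rw [h0]
        exact s2)
      apply hF2
      have h0 : y + (β₂ u - β₁ u) + (β₃ v - β₂ v) =
          (y + ((β₂ u - β₁ u) - β₂ v), v).1 + β₃ (y + ((β₂ u - β₁ u) - β₂ v), v).2 := by
        simp only
        abel
      rw [h0]
      exact s3
  refine ((measure_mono hsub).trans ((measure_union_le _ _).trans
    (add_le_add up1 up2))).trans ?_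
  rw [← mul_add]
  gcongr

end Pool.Agent.TNM
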