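import Pool.Agent.TNM.Defs
import Pool.Agent.H99M.LocL

/-!
# Lower bound for the number of two-step paths between two sets

Plan. Take `η₀ K₀ c₀` from `loc_lower` (at `x₀ = y₀ = t₀`), `η = η₀ / 2` (and `η ≤ η₀`),
`K = 2 K₀`, `c = c₀`. For `y ∈ E` the set `Q = {v | y + v ∈ F}` (same measure as `F`,
`measure_preimage_add`) is inside `closedBall (α t + β t) (2 * r)`, because
`‖y - z‖ ≤ r` and `F ⊆ closedBall (z + α t + β t) r`. So
`ofReal c * volume F ≤ volume {u | |u.1 - t| ≤ K₀ * (2 * r) ∧ |u.2 - t| ≤ K₀ * (2 * r) ∧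
y + α u.1 + β u.2 ∈ F}`. Integrate over `y ∈ E` (`Measure.volume_eq_prod`, `Measure.prod_apply`: the
measure of the set on the right hand side is the integral of the measures of its sections, which are
this set for `y ∈ E` and empty otherwise; `setLIntegral` / `lintegral_indicator`).
-/

open Set MeasureTheory Filter Topology Metric
open Pool.Agent.Helper2.LM Pool.Agent.H99M

namespace Pool.Agent.TNM

theorem fill_low {α β : ℝ → ℝ × ℝ} (hα : ContDiff ℝ 1 α) (hβ : ContDiff ℝ 1 β) {t₀ : ℝ}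
    (h : det2 (deriv α t₀) (deriv β t₀) ≠ 0) :
    ∃ η K c : ℝ, 0 < η ∧ 0 < K ∧ 0 < c ∧
      ∀ (t r : ℝ) (z : ℝ × ℝ) (E F : Set (ℝ × ℝ)), |t - t₀| ≤ η → 0 < r → r ≤ η →
        MeasurableSet E → MeasurableSet F → E ⊆ closedBall z r →
        F ⊆ closedBall (z + α t + β t) r →
          ENNReal.ofReal c * (volume E * volume F) ≤
            volume {q : (ℝ × ℝ) × (ℝ × ℝ) | q.1 ∈ E ∧ |q.2.1 - t| ≤ K * r ∧
              |q.2.2 - t| ≤ K * r ∧ q.1 + α q.2.1 + β q.2.2 ∈ F} := by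
  obtain ⟨η₀, K₀, c₀, hη₀, hK₀, hc₀, hloc⟩ := loc_lower hα hβ h
  refine ⟨η₀ / 2, 2 * K₀, c₀, half_pos hη₀, by positivity, hc₀, ?_⟩
  intro t r z E F ht hr hrη hE hF hEz hFz
  have hαc : Continuous α := hα.continuous
  have hβc : Continuous β := hβ.continuous
  let S : Set ((ℝ × ℝ) × (ℝ × ℝ)) := {q : (ℝ × ℝ) × (ℝ × ℝ) | q.1 ∈ E ∧ |q.2.1 - t| ≤ 2 * K₀ * r ∧
              |q.2.2 - t| ≤ 2 * K₀ * r ∧ q.1 + α q.2.1 + β q.2.2 ∈ F}
  have hS : MeasurableSet S := by
    have h1 : MeasurableSet {q : (ℝ × ℝ) × (ℝ × ℝ) | q.1 ∈ E} := measurable_fst hE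
    have h2 : MeasurableSet {q : (ℝ × ℝ) × (ℝ × ℝ) | |q.2.1 - t| ≤ 2 * K₀ * r} :=
      (isClosed_le (by fun_prop) continuous_const).measurableSet
    have h3 : MeasurableSet {q : (ℝ × ℝ) × (ℝ × ℝ) | |q.2.2 - t| ≤ 2 * K₀ * r} :=
      (isClosed_le (by fun_prop) continuous_const).measurableSet
    have h4c : Continuous fun q : (ℝ × ℝ) × (ℝ × ℝ) => q.1 + α q.2.1 + β q.2.2 := by fun_prop
    have h4 : MeasurableSet {q : (ℝ × ℝ) × (ℝ × ℝ) | q.1 + α q.2.1 + β q.2.2 ∈ F} := h4c.measurable hF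
    exact h1.inter (h2.inter (h3.inter h4))
  change ENNReal.ofReal c₀ * (volume E * volume F) ≤ volume S
  rw [Measure.volume_eq_prod (ℝ × ℝ) (ℝ × ℝ), Measure.prod_apply hS]
  have hsec : ∀ y ∈ E, ENNReal.ofReal c₀ * volume F ≤ volume (Prod.mk y ⁻¹' S) := by
    intro y hy
    have hQ : MeasurableSet ((fun v : ℝ × ℝ => y + v) ⁻¹' F) := (measurable_const_add y) hF
    have h1 := hloc t t (2 * r) (by linarith) (by linarith) (by linarith) (by linarith)
      ((fun v : ℝ × ℝ => y + v) ⁻¹' F) hQ (by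
        intro v hv
        have h2 : ‖(y + v) - (z + α t + β t)‖ ≤ r := mem_closedBall_iff_norm.1 (hFz hv)
        have h3 : ‖y - z‖ ≤ r := mem_closedBall_iff_norm.1 (hEz hy)
        rw [mem_closedBall_iff_norm]
        have h4 : v - (α t + β t) = ((y + v) - (z + α t + β t)) - (y - z) := by abel
        rw [h4]
        have h5 := norm_sub_le ((y + v) - (z + α t + β t)) (y - z)
        linarith)
    rw [measure_preimage_add] at h1
    refine h1.trans (measure_mono ?_)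
    rintro u ⟨hu1, hu2, hu3⟩
    refine ⟨hy, ?_, ?_, ?_⟩
    · change |u.1 - t| ≤ 2 * K₀ * r
      linarith
    · change |u.2 - t| ≤ 2 * K₀ * r
      linarith
    · change y + α u.1 + β u.2 ∈ F
      rw [add_assoc]
      exact hu3
  calc ENNReal.ofReal c₀ * (volume E * volume F) = ∫⁻ _ in E, ENNReal.ofReal c₀ * volume F := by
        rw [setLIntegral_const]
        ring
    _ ≤ ∫⁻ y in E, volume (Prod.mk y ⁻¹' S) := setLIntegral_mono' hE hsec
    _ ≤ ∫⁻ y, volume (Prod.mk y ⁻¹' S) := setLIntegral_le_lintegral _ _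

end Pool.Agent.TNM
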