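import Pool.Agent.TNM.Fill
import Pool.Agent.H99M.DensB

/-!
# Filling near a point of density one
-/

open Set MeasureTheory Filter Topology Metric
open Pool.Agent.Helper2.LM Pool.Agent.H99M

namespace Pool.Agent.TNM

private theorem fy_rad_pos (n : ℕ) : 0 < rad n := by
  unfold rad
  positivity

private theorem fy_rad_small {x : ℝ} (hx : 0 < x) : ∀ᶠ n in atTop, rad n < x := by
  have h1 : Tendsto rad atTop (𝓝 0) := by
    have h2 : rad = fun n : ℕ => (1 / 2 : ℝ) ^ n := by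
      funext n
      rfl
    rw [h2]
    exact tendsto_pow_atTop_nhds_zero_of_lt_one (by norm_num) (by norm_num)
  exact h1.eventually_lt_const hx

private theorem fy_bad {δ : ℝ → ℝ × ℝ} (hδ : Continuous δ) {Y V : Set (ℝ × ℝ)}
    (mY : MeasurableSet Y) (mV : MeasurableSet V) {N₀ : Set ((ℝ × ℝ) × ℝ)}
    (h0 : volume N₀ = 0) (x₀ : ℝ × ℝ) (t : ℝ) {R L : ℝ} (hR : 0 ≤ R) (hL0 : 0 ≤ L)
    (hL : ∀ s, |s - t| ≤ R → ‖δ s - δ t‖ ≤ L * |s - t|) {m : ENNReal}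
    (hY : volume (closedBall x₀ R \ Y) ≤ m)
    (hV : volume (V ∩ closedBall (x₀ + δ t) ((1 + L) * R)) ≤ m) :
    volume ((NY Y ∪ NA δ V ∪ N₀) ∩ closedBall (x₀, t) R) ≤
      ENNReal.ofReal (2 * R) * (2 * m) := by
  have e1 : (NY Y ∪ NA δ V ∪ N₀) ∩ closedBall (x₀, t) R ⊆
      (NY Y ∩ closedBall (x₀, t) R) ∪ (NA δ V ∩ closedBall (x₀, t) R) ∪ N₀ := by
    rintro p ⟨(hp | hp) | hp, hB⟩
    · exact Or.inl (Or.inl ⟨hp, hB⟩)
    · exact Or.inl (Or.inr ⟨hp, hB⟩)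
    · exact Or.inr hp
  calc volume ((NY Y ∪ NA δ V ∪ N₀) ∩ closedBall (x₀, t) R)
      ≤ volume ((NY Y ∩ closedBall (x₀, t) R) ∪ (NA δ V ∩ closedBall (x₀, t) R) ∪ N₀) :=
        measure_mono e1
    _ ≤ volume ((NY Y ∩ closedBall (x₀, t) R) ∪ (NA δ V ∩ closedBall (x₀, t) R)) +
          volume N₀ := measure_union_le _ _
    _ ≤ volume (NY Y ∩ closedBall (x₀, t) R) + volume (NA δ V ∩ closedBall (x₀, t) R) +
          volume N₀ := add_le_add (measure_union_le _ _) le_rfl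
    _ = volume (NY Y ∩ closedBall (x₀, t) R) + volume (NA δ V ∩ closedBall (x₀, t) R) := by
        rw [h0, add_zero]
    _ ≤ ENNReal.ofReal (2 * R) * m + ENNReal.ofReal (2 * R) * m := by
        refine add_le_add ((nb_Y mY x₀ t hR).trans ?_) ((nb_A hδ mV x₀ t hR hL0 hL).trans ?_)
        · exact mul_le_mul_right hY _
        · exact mul_le_mul_right hV _
    _ = ENNReal.ofReal (2 * R) * (2 * m) := by
        rw [← mul_add, ← two_mul]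

theorem fillY {β₁ β₂ β₃ δ₁ δ₂ : ℝ → ℝ × ℝ} (h₁ : ContDiff ℝ 1 β₁) (h₂ : ContDiff ℝ 1 β₂)
    (h₃ : ContDiff ℝ 1 β₃) (k₁ : ContDiff ℝ 1 δ₁) (k₂ : ContDiff ℝ 1 δ₂) {t₀ : ℝ}
    (h : det2 (deriv β₂ t₀ - deriv β₁ t₀) (deriv β₃ t₀ - deriv β₂ t₀) ≠ 0)
    {Y V S₁ S₂ S₃ : Set (ℝ × ℝ)} (mY : MeasurableSet Y) (mV : MeasurableSet V)
    (m₁ : MeasurableSet S₁) (m₃ : MeasurableSet S₃) {x₀ : ℝ × ℝ} (hx : Dens1 Y x₀)
    (i₁ : ∀ᵐ p : (ℝ × ℝ) × ℝ, p.1 ∈ Y → p.1 + β₁ p.2 ∈ S₁ →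
      p.1 + β₂ p.2 ∈ S₂ ∨ p.1 + δ₁ p.2 ∈ V)
    (i₂ : ∀ᵐ p : (ℝ × ℝ) × ℝ, p.1 ∈ Y → p.1 + β₂ p.2 ∈ S₂ →
      p.1 + β₃ p.2 ∈ S₃ ∨ p.1 + δ₂ p.2 ∈ V) :
    ∃ η K : ℝ, 0 < η ∧ 0 < K ∧ ∀ C ε : ℝ, 0 < C → 0 < ε → ∃ ε' : ℝ, 0 < ε' ∧
      ∀ᶠ n in atTop, ∀ t : ℝ, |t - t₀| ≤ η →
        volume (V ∩ closedBall (x₀ + δ₁ t) (K * (C * rad n))) ≤ ENNReal.ofReal (ε' * rad n ^ 2) →
        volume (V ∩ closedBall (x₀ + δ₂ t) (K * (C * rad n))) ≤ ENNReal.ofReal (ε' * rad n ^ 2) →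
          volume (S₁ ∩ closedBall (x₀ + β₁ t) (C * rad n)) *
              volume (closedBall (x₀ + β₃ t) (C * rad n) \ S₃) ≤
            ENNReal.ofReal (ε * rad n ^ 4) := by
  obtain ⟨η₀, K₀, c₀, hη₀, hK₀, hc₀, hfill⟩ := fill h₁ h₂ h₃ h
  obtain ⟨L₁, hL₁, lip₁⟩ := loc_lip k₁ t₀ 2
  obtain ⟨L₂, hL₂, lip₂⟩ := loc_lip k₂ t₀ 2
  obtain ⟨N₀, hsub, mN₀, hN₀⟩ := exists_measurable_superset_of_null (ae_iff.1 (i₁.and i₂))
  obtain ⟨L, hLdef⟩ : ∃ L, L = max L₁ L₂ := ⟨_, rfl⟩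
  have hLL₁ : L₁ ≤ L := hLdef ▸ le_max_left _ _
  have hLL₂ : L₂ ≤ L := hLdef ▸ le_max_right _ _
  have hL : 0 < L := lt_of_lt_of_le hL₁ hLL₁
  refine ⟨min η₀ 1, (1 + L) * K₀, lt_min hη₀ one_pos, by positivity, fun C ε hC hε => ?_⟩
  refine ⟨ε * c₀ / (8 * K₀ ^ 2 * C ^ 2), by positivity, ?_⟩
  obtain ⟨ε', hε'⟩ : ∃ ε', ε' = ε * c₀ / (8 * K₀ ^ 2 * C ^ 2) := ⟨_, rfl⟩
  rw [← hε']
  have hε'0 : 0 < ε' := by
    rw [hε']
    positivity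
  filter_upwards [dens1_scale mY hx (show 0 < K₀ * C by positivity) hε'0,
    fy_rad_small (show 0 < η₀ / C by positivity),
    fy_rad_small (show 0 < 1 / (K₀ * C) by positivity)] with n hn hn1 hn2
  intro t ht hV₁ hV₂
  have hr := fy_rad_pos n
  obtain ⟨r, hrdef⟩ : ∃ r, r = C * rad n := ⟨_, rfl⟩
  have hr0 : 0 < r := by
    rw [hrdef]
    positivity
  have hr1 : r ≤ η₀ := by
    rw [hrdef]
    have := (lt_div_iff₀ hC).1 hn1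
    linarith
  have hr2 : K₀ * r ≤ 1 := by
    rw [hrdef]
    have := (lt_div_iff₀ (show 0 < K₀ * C by positivity)).1 hn2
    nlinarith
  rw [← hrdef] at hV₁ hV₂ ⊢
  have ht1 : |t - t₀| ≤ η₀ := ht.trans (min_le_left _ _)
  have ht2 : |t - t₀| ≤ 1 := ht.trans (min_le_right _ _)
  have hs : ∀ s, |s - t| ≤ K₀ * r → |s - t₀| ≤ 2 := by
    intro s h3
    have h4 : |s - t₀| ≤ |s - t| + |t - t₀| := abs_sub_le _ _ _
    linarith
  have hR : 0 ≤ K₀ * r := by positivity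
  have hYm : volume (closedBall x₀ (K₀ * r) \ Y) ≤ ENNReal.ofReal (ε' * rad n ^ 2) := by
    have e : K₀ * C * rad n = K₀ * r := by
      rw [hrdef]
      ring
    rw [e] at hn
    exact hn
  have e5 : (1 + L) * K₀ * r = (1 + L) * (K₀ * r) := by ring
  rw [e5] at hV₁ hV₂
  have b₁ := fy_bad k₁.continuous mY mV hN₀ x₀ t hR hL.le (fun s h3 =>
    (lip₁ s t (hs s h3) (by linarith)).trans
      (mul_le_mul_of_nonneg_right hLL₁ (abs_nonneg _))) hYm hV₁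
  have b₂ := fy_bad k₂.continuous mY mV hN₀ x₀ t hR hL.le (fun s h3 =>
    (lip₂ s t (hs s h3) (by linarith)).trans
      (mul_le_mul_of_nonneg_right hLL₂ (abs_nonneg _))) hYm hV₂
  have mNY : MeasurableSet (NY Y) := measurable_fst mY.compl
  have mNA : ∀ {δ : ℝ → ℝ × ℝ}, Continuous δ → MeasurableSet (NA δ V) := by
    intro δ hδ
    have h3 : Measurable fun p : (ℝ × ℝ) × ℝ => p.1 + δ p.2 :=
      measurable_fst.add (hδ.measurable.comp measurable_snd)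
    exact h3 mV
  have key := hfill x₀ t r S₁ S₂ S₃ (NY Y ∪ NA δ₁ V ∪ N₀) (NY Y ∪ NA δ₂ V ∪ N₀) ht1 hr0 hr1 m₁ m₃
    ((mNY.union (mNA k₁.continuous)).union mN₀) ((mNY.union (mNA k₂.continuous)).union mN₀)
    (fun p hp h3 => by
      have hpY : p.1 ∈ Y := by
        by_contra h4
        exact hp (Or.inl (Or.inl h4))
      have hpV : p.1 + δ₁ p.2 ∉ V := fun h4 => hp (Or.inl (Or.inr h4))
      have hp0 : (p.1 ∈ Y → p.1 + β₁ p.2 ∈ S₁ → p.1 + β₂ p.2 ∈ S₂ ∨ p.1 + δ₁ p.2 ∈ V) ∧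
          (p.1 ∈ Y → p.1 + β₂ p.2 ∈ S₂ → p.1 + β₃ p.2 ∈ S₃ ∨ p.1 + δ₂ p.2 ∈ V) := by
        by_contra h4
        exact hp (Or.inr (hsub h4))
      exact (hp0.1 hpY h3).resolve_right hpV)
    (fun p hp h3 => by
      have hpY : p.1 ∈ Y := by
        by_contra h4
        exact hp (Or.inl (Or.inl h4))
      have hpV : p.1 + δ₂ p.2 ∉ V := fun h4 => hp (Or.inl (Or.inr h4))
      have hp0 : (p.1 ∈ Y → p.1 + β₁ p.2 ∈ S₁ → p.1 + β₂ p.2 ∈ S₂ ∨ p.1 + δ₁ p.2 ∈ V) ∧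
          (p.1 ∈ Y → p.1 + β₂ p.2 ∈ S₂ → p.1 + β₃ p.2 ∈ S₃ ∨ p.1 + δ₂ p.2 ∈ V) := by
        by_contra h4
        exact hp (Or.inr (hsub h4))
      exact (hp0.2 hpY h3).resolve_right hpV)
  have hm0 : 0 ≤ ε' * rad n ^ 2 := by positivity
  have h2m : (2 : ENNReal) * ENNReal.ofReal (ε' * rad n ^ 2) =
      ENNReal.ofReal (2 * (ε' * rad n ^ 2)) := by
    rw [ENNReal.ofReal_mul (by norm_num : (0 : ℝ) ≤ 2), ENNReal.ofReal_ofNat]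
  rw [h2m, ← ENNReal.ofReal_mul (by positivity)] at b₁ b₂
  have hfin : ENNReal.ofReal (K₀ * r) *
      (ENNReal.ofReal (2 * (K₀ * r) * (2 * (ε' * rad n ^ 2))) +
        ENNReal.ofReal (2 * (K₀ * r) * (2 * (ε' * rad n ^ 2)))) =
      ENNReal.ofReal c₀ * ENNReal.ofReal (ε * rad n ^ 4) := by
    rw [← ENNReal.ofReal_add (by positivity) (by positivity), ← ENNReal.ofReal_mul (by positivity),
      ← ENNReal.ofReal_mul (by positivity)]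
    congr 1
    rw [hrdef, hε']
    field_simp
    ring
  have h9 : ENNReal.ofReal c₀ * (volume (S₁ ∩ closedBall (x₀ + β₁ t) r) *
      volume (closedBall (x₀ + β₃ t) r \ S₃)) ≤
      ENNReal.ofReal c₀ * ENNReal.ofReal (ε * rad n ^ 4) := by
    rw [← hfin]
    exact key.trans (mul_le_mul_right (add_le_add b₁ b₂) _)
  exact (ENNReal.mul_le_mul_iff_right (by
    rw [Ne, ENNReal.ofReal_eq_zero]
    push Not
    exact hc₀) ENNReal.ofReal_ne_top).1 h9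

end Pool.Agent.TNM
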