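import Pool.Agent.TNM.Hul
import Pool.Agent.TNM.Bas

/-!
# A two-parameter family of points in a hull contains points of the colour

Take a compact `K ⊆ U` with `volume K ≠ 0` (inner regularity). Let
`F u = z + α u.1 + β u.2`, a `C¹` map; `F '' K` is compact, hence measurable, and is contained in
`Hu κ i`. If it were null then `K` would be null by `Pool.Agent.Helper2.LM.m3_null` (M3.lean) with
`N = F '' K`, `S = K`: the derivative of `F` at `u` is `(a, b) ↦ a • α' u.1 + b • β' u.2`, an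
isomorphism because the determinant is not zero. So `hull_meets` applies to `F '' K`.
-/

open Set MeasureTheory Filter Topology Metric
open Pool.Agent.Helper2.LM Pool.Agent.H99M

namespace Pool.Agent.TNM

private theorem img_equiv {γ₁ γ₂ : ℝ → ℝ × ℝ} (h₁ : ContDiff ℝ 1 γ₁) (h₂ : ContDiff ℝ 1 γ₂)
    (x : ℝ × ℝ) (s t : ℝ) (hdet : det2 (deriv γ₁ s) (deriv γ₂ t) ≠ 0) :
    ∃ L : (ℝ × ℝ) ≃L[ℝ] (ℝ × ℝ), HasFDerivAt (fun z : ℝ × ℝ => x + γ₁ z.1 + γ₂ z.2)
      (L : ℝ × ℝ →L[ℝ] ℝ × ℝ) (s, t) := by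
  have d1 : HasDerivAt γ₁ (deriv γ₁ s) s := (h₁.differentiable one_ne_zero s).hasDerivAt
  have d2 : HasDerivAt γ₂ (deriv γ₂ t) t := (h₂.differentiable one_ne_zero t).hasDerivAt
  set v := deriv γ₁ s with hv
  set w := deriv γ₂ t with hw
  let L : ℝ × ℝ →L[ℝ] ℝ × ℝ :=
    (ContinuousLinearMap.fst ℝ ℝ ℝ).smulRight v + (ContinuousLinearMap.snd ℝ ℝ ℝ).smulRight w
  have hLd : HasFDerivAt (fun z : ℝ × ℝ => x + γ₁ z.1 + γ₂ z.2) L (s, t) := by
    have e1 : HasFDerivAt (fun z : ℝ × ℝ => γ₁ z.1)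
        ((ContinuousLinearMap.fst ℝ ℝ ℝ).smulRight v) (s, t) := by
      have := HasFDerivAt.comp (s, t) (f := fun z : ℝ × ℝ => z.1) (g := γ₁)
        d1.hasFDerivAt hasFDerivAt_fst
      exact this.congr_fderiv (by ext <;> simp)
    have e2 : HasFDerivAt (fun z : ℝ × ℝ => γ₂ z.2)
        ((ContinuousLinearMap.snd ℝ ℝ ℝ).smulRight w) (s, t) := by
      have := HasFDerivAt.comp (s, t) (f := fun z : ℝ × ℝ => z.2) (g := γ₂)
        d2.hasFDerivAt hasFDerivAt_snd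
      exact this.congr_fderiv (by ext <;> simp)
    exact (e1.const_add x).add e2
  have hinj : Function.Injective (L : ℝ × ℝ →ₗ[ℝ] ℝ × ℝ) := by
    rw [← LinearMap.ker_eq_bot, LinearMap.ker_eq_bot']
    rintro ⟨a, b⟩ hab
    have hab' : a • v + b • w = 0 := hab
    have q1 : a * v.1 + b * w.1 = 0 := by
      have := congrArg Prod.fst hab'
      simpa using this
    have q2 : a * v.2 + b * w.2 = 0 := by
      have := congrArg Prod.snd hab'
      simpa using this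
    unfold det2 at hdet
    have ha : a * (v.1 * w.2 - v.2 * w.1) = 0 := by linear_combination w.2 * q1 - w.1 * q2
    have hb : b * (v.1 * w.2 - v.2 * w.1) = 0 := by linear_combination v.1 * q2 - v.2 * q1
    have ha' := (mul_eq_zero.1 ha).resolve_right hdet
    have hb' := (mul_eq_zero.1 hb).resolve_right hdet
    rw [ha', hb']
    rfl
  refine ⟨(LinearEquiv.ofInjectiveEndo (L : ℝ × ℝ →ₗ[ℝ] ℝ × ℝ) hinj).toContinuousLinearEquiv, ?_⟩
  exact hLd.congr_fderiv (by ext <;> rfl)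

theorem img_meets {κ : ℝ × ℝ → Fin 4} {α β : ℝ → ℝ × ℝ} (hα : ContDiff ℝ 1 α)
    (hβ : ContDiff ℝ 1 β) {z : ℝ × ℝ} {U : Set (ℝ × ℝ)} (mU : MeasurableSet U)
    (hU : volume U ≠ 0) (hd : ∀ u ∈ U, det2 (deriv α u.1) (deriv β u.2) ≠ 0) {i : Fin 4}
    (h : ∀ u ∈ U, z + α u.1 + β u.2 ∈ Hu κ i) : ∃ u ∈ U, κ (z + α u.1 + β u.2) = i := by
  have hpos : 0 < volume U := pos_iff_ne_zero.2 hU
  obtain ⟨K, hKU, hK, hK0⟩ := mU.exists_lt_isCompact hpos
  have hF : ContDiff ℝ 1 (fun u : ℝ × ℝ => z + α u.1 + β u.2) :=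
    (contDiff_const.add (hα.comp contDiff_fst)).add (hβ.comp contDiff_snd)
  have hN : IsCompact ((fun u : ℝ × ℝ => z + α u.1 + β u.2) '' K) := hK.image hF.continuous
  have mN := hN.measurableSet
  have hsub : ((fun u : ℝ × ℝ => z + α u.1 + β u.2) '' K) ⊆ Hu κ i := by
    rintro _ ⟨u, hu, rfl⟩
    exact h u (hKU hu)
  have h0 : volume ((fun u : ℝ × ℝ => z + α u.1 + β u.2) '' K) ≠ 0 := by
    intro h0
    apply hK0.ne'
    apply m3_null volume hF h0
    · intro u hu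
      exact mem_image_of_mem _ hu
    · rintro ⟨s, t⟩ hu
      exact img_equiv hα hβ z s t (hd _ (hKU hu))
  obtain ⟨x, ⟨u, hu, rfl⟩, hx⟩ := hull_meets mN hsub h0
  exact ⟨u, hKU hu, hx⟩

end Pool.Agent.TNM
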