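import Pool.Agent.TNM.Six

/-!
# Implications

Ten propositional consequences of the rules `six`, `adj` with the half period `per3`.
-/

open Set MeasureTheory Filter Topology Metric
open Pool.Agent.Helper2.LM Pool.Agent.H99M

namespace Pool.Agent.TNM

variable {D : Set (ℝ × ℝ)} {γ : ℝ → ℝ × ℝ} {T : ℝ → ℝ}

private theorem imp_prop {G0 G1 G2 G3 G4 G5 H0 H1 H2 H3 H4 H5 : Prop}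
    (a0 : G0 ∨ G1 ∨ H0) (a1 : G1 ∨ G2 ∨ H1) (a2 : G2 ∨ G3 ∨ H2) (a3 : G3 ∨ G4 ∨ H3)
    (a4 : G4 ∨ G5 ∨ H4) (a5 : G5 ∨ G0 ∨ H5)
    (b0 : G0 ∨ G1 ∨ G2) (b1 : G1 ∨ G2 ∨ G3) (b2 : G2 ∨ G3 ∨ G4) (b3 : G3 ∨ G4 ∨ G5)
    (b4 : G4 ∨ G5 ∨ G0) (b5 : G5 ∨ G0 ∨ G1)
    (c0 : ¬ (G0 ∧ G1)) (c1 : ¬ (G1 ∧ G2)) (c2 : ¬ (G2 ∧ G3)) (c3 : ¬ (G3 ∧ G4))
    (c4 : ¬ (G4 ∧ G5)) (c5 : ¬ (G5 ∧ G0))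
    (d0 : ¬ (H0 ∧ G0)) (d1 : ¬ (H1 ∧ G1)) (d2 : ¬ (H2 ∧ G2)) (d3 : ¬ (H3 ∧ G3))
    (d4 : ¬ (H4 ∧ G4)) (d5 : ¬ (H5 ∧ G5))
    (e0 : ¬ (H0 ∧ G1)) (e1 : ¬ (H1 ∧ G2)) (e2 : ¬ (H2 ∧ G3)) (e3 : ¬ (H3 ∧ G4))
    (e4 : ¬ (H4 ∧ G5)) (e5 : ¬ (H5 ∧ G0)) :
    (H0 → H3) ∧ (H1 → H4) ∧ (H2 → H5) ∧ (H3 → ¬ G0) ∧ (H4 → G0) ∧ (H5 → ¬ G0) ∧
      (G0 → G2 ∨ H1) ∧ (G2 → G4 ∨ H0) ∧ (G4 → G2 ∨ H2) ∧ (G2 → G0 ∨ H0) := by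
  refine ⟨?_, ?_, ?_, ?_, ?_, ?_, ?_, ?_, ?_, ?_⟩ <;> grind

theorem imps (hG : Geo D γ T) {A Y : Set (ℝ × ℝ)} (h : Pt D γ T A Y) :
    ∀ᵐ p : (ℝ × ℝ) × ℝ, p.1 ∈ Y →
      (p.1 + ww γ T p.2 ∈ A → p.1 + - ww γ T p.2 ∈ A) ∧
      (p.1 + ww γ T (T p.2) ∈ A → p.1 + - ww γ T (T p.2) ∈ A) ∧
      (p.1 + ww γ T (T (T p.2)) ∈ A → p.1 + - ww γ T (T (T p.2)) ∈ A) ∧
      (p.1 + - ww γ T p.2 ∈ A → p.1 + γ p.2 ∉ A) ∧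
      (p.1 + - ww γ T (T p.2) ∈ A → p.1 + γ p.2 ∈ A) ∧
      (p.1 + - ww γ T (T (T p.2)) ∈ A → p.1 + γ p.2 ∉ A) ∧
      (p.1 + γ p.2 ∈ A → p.1 + γ (T (T p.2)) ∈ A ∨ p.1 + ww γ T (T p.2) ∈ A) ∧
      (p.1 + γ (T (T p.2)) ∈ A → p.1 + - γ (T p.2) ∈ A ∨ p.1 + ww γ T p.2 ∈ A) ∧
      (p.1 + - γ (T p.2) ∈ A → p.1 + γ (T (T p.2)) ∈ A ∨ p.1 + ww γ T (T (T p.2)) ∈ A) ∧
      (p.1 + γ (T (T p.2)) ∈ A → p.1 + γ p.2 ∈ A ∨ p.1 + ww γ T p.2 ∈ A) := by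
  filter_upwards [six hG h] with p hp hpY
  have h6 := hp hpY
  have hadj := fun i => adj hG h.av p.1 p.2 i
  have g3 := per3 hG 0 p.2
  have g4 := per3 hG 1 p.2
  have g5 := per3 hG 2 p.2
  have g6 := per3 hG 3 p.2
  have g7 := per3 hG 4 p.2
  have q0 := h6 0
  have q1 := h6 1
  have q2 := h6 2
  have q3 := h6 3
  have q4 := h6 4
  have q5 := h6 5
  have r0 := hadj 0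
  have r1 := hadj 1
  have r2 := hadj 2
  have r3 := hadj 3
  have r4 := hadj 4
  have r5 := hadj 5
  norm_num only at g3 g4 g5 g6 g7 q0 q1 q2 q3 q4 q5 r0 r1 r2 r3 r4 r5
  have t0 : T^[0] p.2 = p.2 := rfl
  have t1 : T^[1] p.2 = T p.2 := rfl
  have t2 : T^[2] p.2 = T (T p.2) := rfl
  rw [g3.1, neg_neg] at g6
  rw [g4.1, neg_neg] at g7
  simp only [g3.1, g3.2, g4.1, g4.2, g5.1, g5.2, g6.1, g7.1, t0, t1, t2] at q0 q1 q2 q3 q4 q5 r0 r1 r2 r3 r4 r5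
  have h3 : T (T (T p.2)) = T^[3] p.2 := rfl
  exact imp_prop q0.1 q1.1 q2.1 q3.1 q4.1 q5.1 q0.2 q1.2 q2.2 q3.2 q4.2 q5.2
    r0.1 r1.1 r2.1 r3.1 r4.1 r5.1 r0.2.1 r1.2.1 r2.2.1 r3.2.1 r4.2.1 r5.2.1
    r0.2.2 r1.2.2 r2.2.2 r3.2.2 r4.2.2 r5.2.2

end Pool.Agent.TNM
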