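import Pool.Agent.TNM.Bas
import Pool.Agent.H99M.DensB

/-!
# Dichotomy

-/

open Set MeasureTheory Filter Topology Metric
open Pool.Agent.Helper2.LM Pool.Agent.H99M

namespace Pool.Agent.TNM

variable {D : Set (ℝ × ℝ)} {γ : ℝ → ℝ × ℝ} {T : ℝ → ℝ}

private theorem per_gam (hG : Geo D γ T) (t : ℝ) : γ (Int.fract t) = γ t := by
  have h1 : Function.Periodic γ 1 := by
    intro s
    have h2 : s + 1 = s + 1 / 2 + 1 / 2 := by ring
    rw [h2, hG.γ_half, hG.γ_half, neg_neg]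
  have h3 := h1.sub_zsmul_eq ⌊t⌋ (x := t)
  rw [zsmul_one] at h3
  exact h3

private theorem ivt_cpt {p : ℕ → ℝ → Prop}
    (h : ∀ t₀ : ℝ, ∃ η : ℝ, 0 < η ∧ ∀ᶠ n in atTop, ∀ t : ℝ, |t - t₀| ≤ η → p n t) :
    ∀ᶠ n in atTop, ∀ t ∈ Icc (0 : ℝ) 1, p n t := by
  refine IsCompact.induction_on (p := fun s : Set ℝ => ∀ᶠ n in atTop, ∀ t ∈ s, p n t)
    isCompact_Icc ?_ ?_ ?_ ?_
  · exact Eventually.of_forall fun n t ht => absurd ht (notMem_empty t)
  · intro s u hsu hu
    filter_upwards [hu] with n hn t ht using hn t (hsu ht)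
  · intro s u hs hu
    filter_upwards [hs, hu] with n h1 h2 t ht
    rcases ht with ht | ht
    · exact h1 t ht
    · exact h2 t ht
  · intro x _
    obtain ⟨η, hη, hn⟩ := h x
    refine ⟨closedBall x η, mem_nhdsWithin_of_mem_nhds (closedBall_mem_nhds x hη), ?_⟩
    filter_upwards [hn] with n hn t ht
    apply hn
    rwa [mem_closedBall, Real.dist_eq] at ht

theorem dich (hG : Geo D γ T) {A : Set (ℝ × ℝ)} (mA : MeasurableSet A) {x₀ : ℝ × ℝ}
    (h : ∀ t₀ : ℝ, ∃ η : ℝ, 0 < η ∧ ∀ᶠ n in atTop, ∀ t : ℝ, |t - t₀| ≤ η →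
      ENNReal.ofReal (rad n ^ 2) ≤ volume (A ∩ closedBall (x₀ + γ t) (rad n)) →
      ¬ ENNReal.ofReal (rad n ^ 2) ≤ volume (closedBall (x₀ + γ t) (rad n) \ A)) :
    ∀ᶠ n in atTop,
      (∀ t : ℝ, volume (A ∩ closedBall (x₀ + γ t) (rad n)) < ENNReal.ofReal (rad n ^ 2)) ∨
      (∀ t : ℝ, volume (closedBall (x₀ + γ t) (rad n) \ A) < ENNReal.ofReal (rad n ^ 2)) := by
  have h1 := ivt_cpt (p := fun n t =>
      ENNReal.ofReal (rad n ^ 2) ≤ volume (A ∩ closedBall (x₀ + γ t) (rad n)) →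
      ¬ ENNReal.ofReal (rad n ^ 2) ≤ volume (closedBall (x₀ + γ t) (rad n) \ A)) h
  filter_upwards [h1] with n hn
  have hr : 0 < rad n := by
    unfold rad
    positivity
  have hr2 : 0 < rad n ^ 2 := by positivity
  have hall : ∀ t : ℝ, ENNReal.ofReal (rad n ^ 2) ≤ volume (A ∩ closedBall (x₀ + γ t) (rad n)) →
      ¬ ENNReal.ofReal (rad n ^ 2) ≤ volume (closedBall (x₀ + γ t) (rad n) \ A) := by
    intro t
    have h2 := hn (Int.fract t) ⟨Int.fract_nonneg t, (Int.fract_lt_one t).le⟩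
    rw [per_gam hG] at h2
    exact h2
  have hB : ∀ t : ℝ, volume (closedBall (x₀ + γ t) (rad n)) = ENNReal.ofReal (4 * rad n ^ 2) :=
    fun t => vol_ball _ hr.le
  have hBt : ∀ t : ℝ, volume (closedBall (x₀ + γ t) (rad n)) ≠ ⊤ := fun t => by
    rw [hB]
    exact ENNReal.ofReal_ne_top
  have hat : ∀ t : ℝ, volume (A ∩ closedBall (x₀ + γ t) (rad n)) ≠ ⊤ := fun t =>
    ne_top_of_le_ne_top (hBt t) (measure_mono inter_subset_right)
  have hbt : ∀ t : ℝ, volume (closedBall (x₀ + γ t) (rad n) \ A) ≠ ⊤ := fun t =>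
    ne_top_of_le_ne_top (hBt t) (measure_mono sdiff_subset)
  have hadd : ∀ t : ℝ, (volume (A ∩ closedBall (x₀ + γ t) (rad n))).toReal +
      (volume (closedBall (x₀ + γ t) (rad n) \ A)).toReal = 4 * rad n ^ 2 := by
    intro t
    rw [← ENNReal.toReal_add (hat t) (hbt t), inter_comm, measure_inter_add_sdiff _ mA, hB,
      ENNReal.toReal_ofReal (by positivity)]
  have hf : ∀ t : ℝ, (dens A n (x₀ + γ t)).toReal =
      (volume (A ∩ closedBall (x₀ + γ t) (rad n))).toReal / (4 * rad n ^ 2) := by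
    intro t
    unfold dens
    rw [ENNReal.toReal_div, hB, ENNReal.toReal_ofReal (by positivity)]
  have hc : Continuous fun t : ℝ => (dens A n (x₀ + γ t)).toReal := by
    have h3 : Continuous fun t : ℝ => dens A n (x₀ + γ t) :=
      (m2_continuous_dens mA n).comp (continuous_const.add hG.γ_c.continuous)
    refine continuous_iff_continuousAt.2 fun t => ?_
    have h4 : dens A n (x₀ + γ t) ≠ ⊤ :=
      ne_top_of_le_ne_top ENNReal.one_ne_top (dens_le_one A n _)
    exact (ENNReal.tendsto_toReal h4).comp h3.continuousAt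
  have hlt : ∀ (t : ℝ), volume (A ∩ closedBall (x₀ + γ t) (rad n)) < ENNReal.ofReal (rad n ^ 2) ↔
      (dens A n (x₀ + γ t)).toReal < 1 / 4 := by
    intro t
    rw [hf, ENNReal.lt_ofReal_iff_toReal_lt (hat t), div_lt_iff₀ (by positivity)]
    constructor
    · intro h4
      linarith
    · intro h4
      linarith
  have hgt : ∀ (t : ℝ), volume (closedBall (x₀ + γ t) (rad n) \ A) < ENNReal.ofReal (rad n ^ 2) ↔
      3 / 4 < (dens A n (x₀ + γ t)).toReal := by
    intro t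
    have h5 := hadd t
    rw [hf, ENNReal.lt_ofReal_iff_toReal_lt (hbt t), lt_div_iff₀ (by positivity)]
    constructor
    · intro h4
      linarith
    · intro h4
      linarith
  have hdi : ∀ t : ℝ, (dens A n (x₀ + γ t)).toReal < 1 / 4 ∨
      3 / 4 < (dens A n (x₀ + γ t)).toReal := by
    intro t
    rw [← hlt, ← hgt]
    by_contra hcon
    push Not at hcon
    exact hall t hcon.1 hcon.2
  by_contra hcon
  push Not at hcon
  obtain ⟨⟨t1, h6⟩, t2, h7⟩ := hcon
  have h8 : 3 / 4 < (dens A n (x₀ + γ t1)).toReal := by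
    rcases hdi t1 with h9 | h9
    · exact absurd ((hlt t1).2 h9) (not_lt.2 h6)
    · exact h9
  have h10 : (dens A n (x₀ + γ t2)).toReal < 1 / 4 := by
    rcases hdi t2 with h9 | h9
    · exact h9
    · exact absurd ((hgt t2).2 h9) (not_lt.2 h7)
  obtain ⟨t, ht⟩ := mem_range_of_exists_le_of_exists_ge hc (c := 1 / 2)
    ⟨t2, by linarith⟩ ⟨t1, by linarith⟩
  have ht' : (dens A n (x₀ + γ t)).toReal = 1 / 2 := ht
  rcases hdi t with h11 | h11
  · rw [ht'] at h11
    norm_num at h11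
  · rw [ht'] at h11
    norm_num at h11

end Pool.Agent.TNM
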