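import Pool.Agent.TNM.Aep
import Pool.Agent.H99M.DensB

/-!
# The two cases of the dichotomy are impossible

Plan. `not_big`: use `t = 0` and `T 0`; `v = γ (T 0) - γ 0 ∈ D` (`step_mem`). The translation by `v`
maps `closedBall (x₀ + γ 0) r` to `closedBall (x₀ + γ (T 0)) r`. The set of `x` in the first ball with
`x ∉ A` or `x + v ∉ A` has measure less than `ofReal (2 * r ^ 2) < ofReal (4 * r ^ 2)` (`vol_ball`), so
there is `x` with `x ∈ A`, `x + v ∈ A`, contradiction to `av (x + v) _ x _`.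
`not_small`: by `e2` and `snd_of_null` there is `t` such that for almost every `x`: if `x ∈ Y` then
`x + γ t ∈ A` or `x + γ (T t) ∈ A` or `x + γ (T (T t)) ∈ A`. So for every `n`
`volume (Y ∩ closedBall x₀ r) ≤ volume (A ∩ closedBall (x₀ + γ t) r) +
volume (A ∩ closedBall (x₀ + γ (T t)) r) + volume (A ∩ closedBall (x₀ + γ (T (T t))) r)`
(translations), which is less than `ofReal (3 * r ^ 2)` if all three are less than `ofReal (r ^ 2)`;
but `volume (closedBall x₀ r \\ Y) ≤ ofReal (r ^ 2)` for large `n` (`dens1_scale` with `C = 1`,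
`ε = 1`), so `volume (Y ∩ closedBall x₀ r) ≥ ofReal (3 * r ^ 2)`.
-/

open Set MeasureTheory Filter Topology Metric
open Pool.Agent.Helper2.LM Pool.Agent.H99M

namespace Pool.Agent.TNM

variable {D : Set (ℝ × ℝ)} {γ : ℝ → ℝ × ℝ} {T : ℝ → ℝ}

private theorem ivtb_rad (n : ℕ) : 0 < rad n := by
  unfold rad
  positivity

private theorem ivtb_four (r : ℝ) (hr : 0 < r) :
    ENNReal.ofReal (4 * r ^ 2) = ENNReal.ofReal (r ^ 2) +
      (ENNReal.ofReal (r ^ 2) + ENNReal.ofReal (r ^ 2) + ENNReal.ofReal (r ^ 2)) := by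
  rw [← ENNReal.ofReal_add (by positivity) (by positivity),
    ← ENNReal.ofReal_add (by positivity) (by positivity),
    ← ENNReal.ofReal_add (by positivity) (by positivity)]
  congr 1
  ring

private theorem ivtb_shift (x x₀ v : ℝ × ℝ) (r : ℝ) (h : x ∈ closedBall x₀ r) :
    x + v ∈ closedBall (x₀ + v) r := by
  rw [mem_closedBall] at h ⊢
  rwa [dist_add_right]

theorem not_big (hG : Geo D γ T) {A : Set (ℝ × ℝ)} (mA : MeasurableSet A)
    (av : ∀ x ∈ A, ∀ y ∈ A, x - y ∉ D) (x₀ : ℝ × ℝ) (n : ℕ) :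
    ¬ ∀ t : ℝ, volume (closedBall (x₀ + γ t) (rad n) \ A) < ENNReal.ofReal (rad n ^ 2) := by
  intro h
  have hr := ivtb_rad n
  set v : ℝ × ℝ := γ (T 0) - γ 0 with hv
  have hvD : v ∈ D := step_mem hG 0
  have h1 : volume ((closedBall (x₀ + γ 0) (rad n) \ A) ∪
      (fun x : ℝ × ℝ => x + v) ⁻¹' (closedBall (x₀ + γ (T 0)) (rad n) \ A)) <
      volume (closedBall (x₀ + γ 0) (rad n)) := by
    refine (measure_union_le _ _).trans_lt ?_
    rw [measure_preimage_add_right, vol_ball _ hr.le, ivtb_four _ hr]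
    refine (ENNReal.add_lt_add (h 0) (h (T 0))).trans_le ?_
    refine add_le_add_right ?_ _
    exact le_add_self
  have h2 : ¬ closedBall (x₀ + γ 0) (rad n) ⊆ (closedBall (x₀ + γ 0) (rad n) \ A) ∪
      (fun x : ℝ × ℝ => x + v) ⁻¹' (closedBall (x₀ + γ (T 0)) (rad n) \ A) :=
    fun hs => absurd (measure_mono hs) (not_le.2 h1)
  rw [not_subset] at h2
  obtain ⟨x, hx, hxn⟩ := h2
  rw [mem_union, not_or] at hxn
  obtain ⟨hx1, hx2⟩ := hxn
  have hxA : x ∈ A := by
    by_contra hc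
    exact hx1 ⟨hx, hc⟩
  have hxv : x + v ∈ A := by
    by_contra hc
    refine hx2 ⟨?_, hc⟩
    have := ivtb_shift x (x₀ + γ 0) v (rad n) hx
    have he : x₀ + γ 0 + v = x₀ + γ (T 0) := by
      rw [hv]
      abel
    rwa [he] at this
  exact av (x + v) hxv x hxA (by rwa [add_sub_cancel_left])

theorem not_small (hG : Geo D γ T) {A Y : Set (ℝ × ℝ)} (h : Pt D γ T A Y) {x₀ : ℝ × ℝ}
    (hx : Dens1 Y x₀) : ∀ᶠ n in atTop,
      ¬ ∀ t : ℝ, volume (A ∩ closedBall (x₀ + γ t) (rad n)) < ENNReal.ofReal (rad n ^ 2) := by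
  have h0 := ae_iff.1 h.e2
  have h1 := snd_of_null h0
  obtain ⟨t, ht⟩ := h1.exists
  filter_upwards [dens1_scale h.mY hx one_pos one_pos] with n hn hsm
  rw [one_mul, one_mul] at hn
  have hr := ivtb_rad n
  have hB := vol_ball x₀ hr.le
  have hsub : closedBall x₀ (rad n) ⊆ (closedBall x₀ (rad n) \ Y) ∪
      ({x : ℝ × ℝ | (x, t) ∈ {p : (ℝ × ℝ) × ℝ | ¬ (p.1 ∈ Y →
        p.1 + γ p.2 ∈ A ∨ p.1 + γ (T p.2) ∈ A ∨ p.1 + γ (T (T p.2)) ∈ A)}} ∪
      ((fun x : ℝ × ℝ => x + γ t) ⁻¹' (A ∩ closedBall (x₀ + γ t) (rad n)) ∪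
      (fun x : ℝ × ℝ => x + γ (T t)) ⁻¹' (A ∩ closedBall (x₀ + γ (T t)) (rad n)) ∪
      (fun x : ℝ × ℝ => x + γ (T (T t))) ⁻¹' (A ∩ closedBall (x₀ + γ (T (T t))) (rad n)))) := by
    intro x hxb
    by_cases hY : x ∈ Y
    · right
      by_cases hN : x + γ t ∈ A ∨ x + γ (T t) ∈ A ∨ x + γ (T (T t)) ∈ A
      · right
        rcases hN with hN | hN | hN
        · exact Or.inl (Or.inl ⟨hN, ivtb_shift x x₀ _ _ hxb⟩)
        · exact Or.inl (Or.inr ⟨hN, ivtb_shift x x₀ _ _ hxb⟩)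
        · exact Or.inr ⟨hN, ivtb_shift x x₀ _ _ hxb⟩
      · left
        exact fun hc => hN (hc hY)
    · exact Or.inl ⟨hxb, hY⟩
  have h2 : volume (closedBall x₀ (rad n)) < volume (closedBall x₀ (rad n)) := by
    refine (measure_mono hsub).trans_lt ?_
    refine (measure_union_le _ _).trans_lt ?_
    rw [hB, ivtb_four _ hr]
    refine ENNReal.add_lt_add_of_le_of_lt ?_ hn ?_
    · exact (lt_of_le_of_lt hn ENNReal.ofReal_lt_top).ne
    refine (measure_union_le _ _).trans_lt ?_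
    rw [ht, zero_add]
    refine (measure_union_le _ _).trans_lt ?_
    refine ENNReal.add_lt_add ?_ ?_
    · refine (measure_union_le _ _).trans_lt ?_
      rw [measure_preimage_add_right, measure_preimage_add_right]
      exact ENNReal.add_lt_add (hsm t) (hsm (T t))
    · rw [measure_preimage_add_right]
      exact hsm (T (T t))
  exact lt_irrefl _ h2

end Pool.Agent.TNM
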