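import Pool.Agent.TNM.Hul
import Pool.Agent.TNM.Aep

/-!
# Kernels avoid hulls

Plan. First set: for fixed `s` the section `{x | x ∈ Ke κ i ∧ x + γ s ∈ Hu κ i}` has the same
measure as its translate `N = {y | y - γ s ∈ Ke κ i ∧ y ∈ Hu κ i}`, a measurable subset of the
hull. If it is not null then `hull_meets` gives `y ∈ N` with `κ y = i`, and `κ (y - γ s) = i` by
`Ke_col`, but `y - (y - γ s) = γ s ∈ D` (Geo.mem), contradiction to `hκ`. Then `null_of_snd`.
Second set: in the same way with `N = {x | x ∈ Hu κ i ∧ x + γ s ∈ Ke κ i}` (no translation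
needed; use `hκ (x + γ s) x`).
-/

open Set MeasureTheory Filter Topology Metric
open Pool.Agent.Helper2.LM Pool.Agent.H99M

namespace Pool.Agent.TNM

variable {D : Set (ℝ × ℝ)} {γ : ℝ → ℝ × ℝ} {T : ℝ → ℝ}

theorem ker_hull (hG : Geo D γ T) {κ : ℝ × ℝ → Fin 4} (hκ : ∀ x y, κ x = κ y → x - y ∉ D)
    (i : Fin 4) :
    volume {p : (ℝ × ℝ) × ℝ | p.1 ∈ Ke κ i ∧ p.1 + γ p.2 ∈ Hu κ i} = 0 ∧
      volume {p : (ℝ × ℝ) × ℝ | p.1 ∈ Hu κ i ∧ p.1 + γ p.2 ∈ Ke κ i} = 0 := by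
  have hγ : Continuous γ := hG.γ_c.continuous
  have hm : Measurable fun p : (ℝ × ℝ) × ℝ => p.1 + γ p.2 :=
    (continuous_fst.add (hγ.comp continuous_snd)).measurable
  constructor
  · refine null_of_snd ((measurable_fst (measurable_Ke κ i)).inter (hm (measurable_Hu κ i))) ?_
    refine Filter.Eventually.of_forall fun s => ?_
    have hN : MeasurableSet {y : ℝ × ℝ | y - γ s ∈ Ke κ i ∧ y ∈ Hu κ i} :=
      ((measurable_id.sub_const (γ s)) (measurable_Ke κ i)).inter (measurable_Hu κ i)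
    have e : {x : ℝ × ℝ | (x, s) ∈ {p : (ℝ × ℝ) × ℝ | p.1 ∈ Ke κ i ∧ p.1 + γ p.2 ∈ Hu κ i}} =
        (fun x => x + γ s) ⁻¹' {y : ℝ × ℝ | y - γ s ∈ Ke κ i ∧ y ∈ Hu κ i} := by
      ext x
      simp only [mem_ofPred_eq, mem_preimage, add_sub_cancel_right]
    rw [e, measure_preimage_add_right]
    by_contra h0
    obtain ⟨y, hy, hyi⟩ := hull_meets hN (fun y hy => hy.2) h0
    have h1 : κ (y - γ s) = i := Ke_col hy.1
    refine hκ y (y - γ s) (by rw [hyi, h1]) ?_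
    rw [sub_sub_cancel]
    exact (hG.D_iff _).2 ⟨s, rfl⟩
  · refine null_of_snd ((measurable_fst (measurable_Hu κ i)).inter (hm (measurable_Ke κ i))) ?_
    refine Filter.Eventually.of_forall fun s => ?_
    have hN : MeasurableSet {x : ℝ × ℝ | x ∈ Hu κ i ∧ x + γ s ∈ Ke κ i} :=
      (measurable_Hu κ i).inter ((measurable_id.add_const (γ s)) (measurable_Ke κ i))
    by_contra h0
    obtain ⟨x, hx, hxi⟩ := hull_meets hN (fun y hy => hy.1) h0
    have h1 : κ (x + γ s) = i := Ke_col hx.2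
    refine hκ (x + γ s) x (by rw [hxi, h1]) ?_
    rw [add_sub_cancel_left]
    exact (hG.D_iff _).2 ⟨s, rfl⟩

end Pool.Agent.TNM
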