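import Pool.Agent.TNM.Th
import Pool.Agent.TNM.Kh

/-!
# The pattern of the kernel of a colour around points which are in the three other hulls
-/

open Set MeasureTheory Filter Topology Metric
open Pool.Agent.Helper2.LM Pool.Agent.H99M

namespace Pool.Agent.TNM

variable {D : Set (ℝ × ℝ)} {γ : ℝ → ℝ × ℝ} {T : ℝ → ℝ}

/-- almost every point `p.1 + β p.2` of the hull of `m` is in the kernel of `m` -/
private theorem pt_rem {κ : ℝ × ℝ → Fin 4} {m : Fin 4}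
    (hm : ∀ j, j ≠ m → volume (Hu κ m ∩ Hu κ j) = 0) {β : ℝ → ℝ × ℝ} (hβ : Continuous β) :
    ∀ᵐ p : (ℝ × ℝ) × ℝ, p.1 + β p.2 ∈ Hu κ m → p.1 + β p.2 ∈ Ke κ m := by
  have h1 : ∀ j : Fin 4, ∀ᵐ p : (ℝ × ℝ) × ℝ, j ≠ m → p.1 + β p.2 ∈ Hu κ m →
      p.1 + β p.2 ∉ Hu κ j := by
    intro j
    by_cases hj : j = m
    · exact Eventually.of_forall fun p h => absurd hj h
    · have h2 := null_pt hβ (hm j hj)
      have h3 : ∀ᵐ p : (ℝ × ℝ) × ℝ, p ∉ {p : (ℝ × ℝ) × ℝ | p.1 + β p.2 ∈ Hu κ m ∩ Hu κ j} :=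
        measure_eq_zero_iff_ae_notMem.1 h2
      filter_upwards [h3] with p hp _ hp1 hp2
      exact hp ⟨hp1, hp2⟩
  filter_upwards [ae_all_iff.2 h1] with p hp hp1 j hj
  exact hp j hj hp1

theorem pt_of (hG : Geo D γ T) {κ : ℝ × ℝ → Fin 4} (hκ : ∀ x y, κ x = κ y → x - y ∉ D)
    {a b c m : Fin 4} (hab : a ≠ b) (hac : a ≠ c) (hbc : b ≠ c) (ham : a ≠ m) (hbm : b ≠ m)
    (hcm : c ≠ m) (hm : ∀ j, j ≠ m → volume (Hu κ m ∩ Hu κ j) = 0) :
    Pt D γ T (Ke κ m) (Yt κ a b c m) := by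
  have hγ : Continuous γ := hG.γ_c.continuous
  have hT : Continuous T := hG.T_c.continuous
  have hw : Continuous (ww γ T) := by
    unfold ww
    exact hγ.add (hγ.comp hT)
  have r0 := pt_rem hm hγ
  have r1 := pt_rem hm (β := fun t => γ (T t)) (hγ.comp hT)
  have r2 := pt_rem hm (β := fun t => γ (T (T t))) (hγ.comp (hT.comp hT))
  have r3 := pt_rem hm hw
  refine ⟨measurable_Ke κ m, measurable_Yt κ a b c m, ?_, ?_, ?_⟩
  · intro x hx y hy
    exact hκ x y (by rw [Ke_col hx, Ke_col hy])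
  · have h1 := measure_eq_zero_iff_ae_notMem.1 (two_hulls hG hκ hab ham hbm)
    filter_upwards [h1, r0, r1, r3] with p hp q0 q1 q3 hY
    obtain ⟨ya, yb, yc, ym⟩ := hY
    by_contra hcon
    push Not at hcon
    obtain ⟨c0, c1, c3⟩ := hcon
    exact hp ⟨⟨ya, yb, ym⟩, fun h => c0 (q0 h), fun h => c1 (q1 h), fun h => c3 (q3 h)⟩
  · have h1 : ∀ j : Fin 4, ∀ᵐ p : (ℝ × ℝ) × ℝ, ¬ (p.1 ∈ Hu κ j ∧ p.1 + γ p.2 ∈ Ke κ j) :=
      fun j => measure_eq_zero_iff_ae_notMem.1 (ker_hull hG hκ j).2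
    have h2 : ∀ j q : Fin 4, ∀ᵐ p : (ℝ × ℝ) × ℝ, j ≠ q → j ≠ m → q ≠ m →
        ¬ ((p.1 + γ p.2 ∈ Hu κ j ∧ p.1 + γ p.2 ∈ Hu κ q ∧ p.1 + γ p.2 ∉ Hu κ m) ∧
          p.1 + γ p.2 + γ (T (T p.2)) ∉ Hu κ m ∧ p.1 + γ p.2 + γ (T (T (T p.2))) ∉ Hu κ m ∧
          p.1 + γ p.2 + ww γ T (T (T p.2)) ∉ Hu κ m) := by
      intro j q
      by_cases hjq : j ≠ q
      · by_cases hjm : j ≠ m
        · by_cases hqm : q ≠ m
          · have n1 := null_shear hγ (null_T hG (null_T hG (two_hulls hG hκ hjq hjm hqm)))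
            filter_upwards [measure_eq_zero_iff_ae_notMem.1 n1] with p hp _ _ _
            exact hp
          · exact Eventually.of_forall fun p _ _ h => absurd h hqm
        · exact Eventually.of_forall fun p _ h => absurd h hjm
      · exact Eventually.of_forall fun p h => absurd h hjq
    have h2' : ∀ᵐ p : (ℝ × ℝ) × ℝ, ∀ j q : Fin 4, j ≠ q → j ≠ m → q ≠ m →
        ¬ ((p.1 + γ p.2 ∈ Hu κ j ∧ p.1 + γ p.2 ∈ Hu κ q ∧ p.1 + γ p.2 ∉ Hu κ m) ∧
          p.1 + γ p.2 + γ (T (T p.2)) ∉ Hu κ m ∧ p.1 + γ p.2 + γ (T (T (T p.2))) ∉ Hu κ m ∧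
          p.1 + γ p.2 + ww γ T (T (T p.2)) ∉ Hu κ m) := by
      rw [ae_all_iff]
      intro j
      rw [ae_all_iff]
      exact h2 j
    filter_upwards [ae_all_iff.2 h1, h2', r0, r1, r2] with p p1 p2 q0 q1 q2 hY
    obtain ⟨ya, yb, yc, ym⟩ := hY
    by_contra hcon
    push Not at hcon
    obtain ⟨c0, c1, c2⟩ := hcon
    have ynm : p.1 + γ p.2 ∉ Hu κ m := fun h => c0 (q0 h)
    obtain ⟨j, hj⟩ : ∃ j, κ (p.1 + γ p.2) = j := ⟨_, rfl⟩
    have hyj : p.1 + γ p.2 ∈ Hu κ j := by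
      rw [← hj]
      exact mem_Hu κ _
    have hjm : j ≠ m := by
      rintro rfl
      exact ynm hyj
    have hj3 : j = a ∨ j = b ∨ j = c := by
      revert hab hac hbc ham hbm hcm hjm
      clear * -
      revert a b c m j
      decide
    have hxj : p.1 ∈ Hu κ j := by
      rcases hj3 with h | h | h
      · rw [h]; exact ya
      · rw [h]; exact yb
      · rw [h]; exact yc
    have hnk : p.1 + γ p.2 ∉ Ke κ j := fun h => p1 j ⟨hxj, h⟩
    have hex : ∃ q, q ≠ j ∧ p.1 + γ p.2 ∈ Hu κ q := by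
      by_contra hno
      push Not at hno
      exact hnk fun q hq => hno q hq
    obtain ⟨q, hqj, hyq⟩ := hex
    have hqm : q ≠ m := by
      rintro rfl
      exact ynm hyq
    have hh := p2 j q (Ne.symm hqj) hjm hqm
    have e1 : p.1 + γ p.2 + γ (T (T p.2)) = p.1 + γ (T p.2) := by
      rw [hG.T_two]
      abel
    have e2 : p.1 + γ p.2 + γ (T (T (T p.2))) = p.1 := by
      rw [hG.T_three, hG.γ_half]
      abel
    have e3 : p.1 + γ p.2 + ww γ T (T (T p.2)) = p.1 + γ (T (T p.2)) := by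
      unfold ww
      rw [hG.T_three, hG.γ_half]
      abel
    rw [e1, e2, e3] at hh
    exact hh ⟨⟨hyj, hyq, ynm⟩, fun h => c1 (q1 h), ym, fun h => c2 (q2 h)⟩

end Pool.Agent.TNM
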