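import Pool.Agent.TNM.StA

/-!
# `A` and its complement are not both visible at `x₀ + γ t`

Plan. Let `η₁ K₁` be from `fillY` for `(β₁, β₂, β₃) = (γ, fun s => γ (T (T s)), fun s => - γ (T s))`,
`δ₁ = fun s => ww γ T (T s)`, `δ₂ = ww γ T`, `V = S₁ = S₂ = S₃ = A` (`det_p`; implications 7 and 8 of
`imps`), used with `C = 1`, `ε = 2`, which gives `ε₁`; let `η₂ K₂` be from `fillY` for
`(fun s => - γ (T s), fun s => γ (T (T s)), γ)`, `δ₁ = fun s => ww γ T (T (T s))`, `δ₂ = ww γ T`,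
`V = S₁ = S₂ = S₃ = A` (`det_q`; implications 9 and 10), used with `C = 1`, `ε = 1`, which gives
`ε₂`. Use `st1` with `C = max 1 (max K₁ K₂)` and `ε = min ε₁ ε₂`. Let `n` be large,
`|t - t₀| ≤ η`, `r = rad n`, and suppose that both `volume (A ∩ closedBall (x₀ + γ t) r)` and
`volume (closedBall (x₀ + γ t) r \\ A)` are at least `ofReal (r ^ 2)`. By `st1` the smallness
hypotheses of both `fillY` hold. The first gives
`volume (closedBall (x₀ + - γ (T t)) r \\ A) * ofReal (r ^ 2) ≤ ofReal (2 * r ^ 4)`, so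
`volume (closedBall (x₀ + - γ (T t)) r \\ A) ≤ ofReal (2 * r ^ 2)` and
`volume (A ∩ closedBall (x₀ + - γ (T t)) r) ≥ ofReal (2 * r ^ 2)` (`vol_ball`: the ball has measure
`ofReal (4 * r ^ 2)`). The second gives `ofReal (2 * r ^ 2) * ofReal (r ^ 2) ≤ ofReal (1 * r ^ 4)`,
contradiction.
-/

open Set MeasureTheory Filter Topology Metric
open Pool.Agent.Helper2.LM Pool.Agent.H99M

namespace Pool.Agent.TNM

variable {D : Set (ℝ × ℝ)} {γ : ℝ → ℝ × ℝ} {T : ℝ → ℝ}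

private theorem stb_pos (n : ℕ) : 0 < rad n := by
  unfold rad
  positivity

private theorem stb_canc {r c : ℝ} (hr : 0 < r) {P : ENNReal}
    (h : ENNReal.ofReal (r ^ 2) * P ≤ ENNReal.ofReal (c * r ^ 4)) : P ≤ ENNReal.ofReal (c * r ^ 2) := by
  have e : ENNReal.ofReal (c * r ^ 4) = ENNReal.ofReal (r ^ 2) * ENNReal.ofReal (c * r ^ 2) := by
    rw [← ENNReal.ofReal_mul (by positivity)]
    congr 1
    ring
  rw [e] at h
  refine (ENNReal.mul_le_mul_iff_right ?_ ENNReal.ofReal_ne_top).1 h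
  rw [Ne, ENNReal.ofReal_eq_zero]
  push Not
  positivity

private theorem stb_mono {A : Set (ℝ × ℝ)} {c : ℝ × ℝ} {K C ε ε' : ℝ} {n : ℕ} (hK : K ≤ C) (hε : ε ≤ ε')
    (h : volume (A ∩ closedBall c (C * rad n)) ≤ ENNReal.ofReal (ε * rad n ^ 2)) :
    volume (A ∩ closedBall c (K * (1 * rad n))) ≤ ENNReal.ofReal (ε' * rad n ^ 2) := by
  have hr := stb_pos n
  rw [one_mul]
  calc volume (A ∩ closedBall c (K * rad n)) ≤ volume (A ∩ closedBall c (C * rad n)) := by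
        refine measure_mono (inter_subset_inter_right _ (closedBall_subset_closedBall ?_))
        exact mul_le_mul_of_nonneg_right hK hr.le
    _ ≤ ENNReal.ofReal (ε * rad n ^ 2) := h
    _ ≤ ENNReal.ofReal (ε' * rad n ^ 2) := by
        refine ENNReal.ofReal_le_ofReal (mul_le_mul_of_nonneg_right hε ?_)
        positivity

theorem no_mid (hG : Geo D γ T) {A Y : Set (ℝ × ℝ)} (h : Pt D γ T A Y) {x₀ : ℝ × ℝ}
    (hx : Dens1 Y x₀) (t₀ : ℝ) :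
    ∃ η : ℝ, 0 < η ∧ ∀ᶠ n in atTop, ∀ t : ℝ, |t - t₀| ≤ η →
      ENNReal.ofReal (rad n ^ 2) ≤ volume (A ∩ closedBall (x₀ + γ t) (rad n)) →
      ¬ ENNReal.ofReal (rad n ^ 2) ≤ volume (closedBall (x₀ + γ t) (rad n) \ A) := by
  have him := imps hG h
  have i7 : ∀ᵐ p : (ℝ × ℝ) × ℝ, p.1 ∈ Y → p.1 + γ p.2 ∈ A →
      p.1 + (fun s => γ (T (T s))) p.2 ∈ A ∨ p.1 + (fun s => ww γ T (T s)) p.2 ∈ A := by
    filter_upwards [him] with p hp hY
    exact (hp hY).2.2.2.2.2.2.1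
  have i8 : ∀ᵐ p : (ℝ × ℝ) × ℝ, p.1 ∈ Y → p.1 + (fun s => γ (T (T s))) p.2 ∈ A →
      p.1 + (fun s => - γ (T s)) p.2 ∈ A ∨ p.1 + ww γ T p.2 ∈ A := by
    filter_upwards [him] with p hp hY
    exact (hp hY).2.2.2.2.2.2.2.1
  have i9 : ∀ᵐ p : (ℝ × ℝ) × ℝ, p.1 ∈ Y → p.1 + (fun s => - γ (T s)) p.2 ∈ A →
      p.1 + (fun s => γ (T (T s))) p.2 ∈ A ∨ p.1 + (fun s => ww γ T (T (T s))) p.2 ∈ A := by
    filter_upwards [him] with p hp hY
    exact (hp hY).2.2.2.2.2.2.2.2.1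
  have i10 : ∀ᵐ p : (ℝ × ℝ) × ℝ, p.1 ∈ Y → p.1 + (fun s => γ (T (T s))) p.2 ∈ A →
      p.1 + γ p.2 ∈ A ∨ p.1 + ww γ T p.2 ∈ A := by
    filter_upwards [him] with p hp hY
    exact (hp hY).2.2.2.2.2.2.2.2.2
  obtain ⟨η₁, K₁, hη₁, hK₁, F₁⟩ := fillY (β₁ := γ) (β₂ := fun s => γ (T (T s)))
    (β₃ := fun s => - γ (T s)) (δ₁ := fun s => ww γ T (T s)) (δ₂ := ww γ T) (t₀ := t₀)
    (Y := Y) (V := A) (S₁ := A) (S₂ := A) (S₃ := A)
    hG.γ_c (cTT hG) (cT hG).neg (cwT hG) (cw hG) (det_p hG t₀) h.mY h.mA h.mA h.mA hx i7 i8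
  obtain ⟨η₂, K₂, hη₂, hK₂, F₂⟩ := fillY (β₁ := fun s => - γ (T s)) (β₂ := fun s => γ (T (T s)))
    (β₃ := γ) (δ₁ := fun s => ww γ T (T (T s))) (δ₂ := ww γ T) (t₀ := t₀)
    (Y := Y) (V := A) (S₁ := A) (S₂ := A) (S₃ := A)
    (cT hG).neg (cTT hG) hG.γ_c (cwTT hG) (cw hG) (det_q hG t₀) h.mY h.mA h.mA h.mA hx i9 i10
  obtain ⟨η₃, hη₃, F₃⟩ := st1 hG h hx t₀
  obtain ⟨ε₁, hε₁, E₁⟩ := F₁ 1 2 one_pos two_pos
  obtain ⟨ε₂, hε₂, E₂⟩ := F₂ 1 1 one_pos one_pos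
  have E₃ := F₃ (max 1 (max K₁ K₂)) (min ε₁ ε₂) (le_max_left _ _) (lt_min hε₁ hε₂)
  refine ⟨min η₁ (min η₂ η₃), lt_min hη₁ (lt_min hη₂ hη₃), ?_⟩
  filter_upwards [E₁, E₂, E₃] with n h1 h2 h3
  intro t ht hA hcA
  have hr := stb_pos n
  have ht1 : |t - t₀| ≤ η₁ := ht.trans (min_le_left _ _)
  have ht2 : |t - t₀| ≤ η₂ := ht.trans ((min_le_right _ _).trans (min_le_left _ _))
  have ht3 : |t - t₀| ≤ η₃ := ht.trans ((min_le_right _ _).trans (min_le_right _ _))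
  obtain ⟨b0, b1, b2⟩ := h3 t ht3 hA hcA
  have k1 : K₁ ≤ max 1 (max K₁ K₂) := (le_max_left _ _).trans (le_max_right _ _)
  have k2 : K₂ ≤ max 1 (max K₁ K₂) := (le_max_right _ _).trans (le_max_right _ _)
  have g1 := h1 t ht1 (stb_mono k1 (min_le_left _ _) b1) (stb_mono k1 (min_le_left _ _) b0)
  have g2 := h2 t ht2 (stb_mono k2 (min_le_right _ _) b2) (stb_mono k2 (min_le_right _ _) b0)
  rw [one_mul] at g1 g2
  have c1 : volume (closedBall (x₀ + - γ (T t)) (rad n) \ A) ≤ ENNReal.ofReal (2 * rad n ^ 2) :=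
    stb_canc hr (le_trans (mul_le_mul_left hA _) g1)
  have c2 : volume (A ∩ closedBall (x₀ + - γ (T t)) (rad n)) ≤ ENNReal.ofReal (1 * rad n ^ 2) := by
    refine stb_canc hr (le_trans ?_ g2)
    rw [mul_comm]
    exact mul_le_mul_right hcA _
  have c3 : volume (closedBall (x₀ + - γ (T t)) (rad n)) ≤ ENNReal.ofReal (3 * rad n ^ 2) := by
    rw [← measure_diff_add_inter (closedBall (x₀ + - γ (T t)) (rad n)) h.mA, inter_comm]
    refine (add_le_add c1 c2).trans ?_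
    rw [← ENNReal.ofReal_add (by positivity) (by positivity)]
    refine ENNReal.ofReal_le_ofReal ?_
    linarith
  rw [vol_ball _ hr.le, ENNReal.ofReal_le_ofReal_iff (by positivity)] at c3
  have : 0 < rad n ^ 2 := by positivity
  linarith

end Pool.Agent.TNM
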