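import Pool.Agent.TNM.Sig
import Pool.Agent.TNM.Pat
import Pool.Agent.TNM.StB
import Pool.Agent.TNM.IvtA
import Pool.Agent.TNM.IvtB
import Pool.Agent.H99M.Main

/-!
# Totally non-measurable colourings: assembly
-/

open Set MeasureTheory Filter Topology Metric
open Pool.Agent.Helper2.LM Pool.Agent.H99M

namespace Pool.Agent.TNM

variable {D : Set (ℝ × ℝ)} {γ : ℝ → ℝ × ℝ} {T : ℝ → ℝ}

/-- the set of centres of a pattern is null -/
theorem pt_null (hG : Geo D γ T) {A Y : Set (ℝ × ℝ)} (h : Pt D γ T A Y) : volume Y = 0 := by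
  by_contra hY
  have h1 := ae_dens1 h.mY
  obtain ⟨x₀, -, hd⟩ : ∃ x, x ∈ Y ∧ Dens1 Y x := by
    by_contra hcon
    push Not at hcon
    apply hY
    refine measure_mono_null (fun x hx => ?_) h1
    simp only [mem_compl_iff, mem_setOf_eq, not_forall]
    exact ⟨hx, hcon x hx⟩
  have h2 := dich hG h.mA (x₀ := x₀) (fun t₀ => no_mid hG h hd t₀)
  have h3 := not_small hG h hd
  obtain ⟨n, hn1, hn2⟩ := (h2.and h3).exists
  rcases hn1 with h4 | h4
  · exact hn2 h4
  · exact not_big hG h.mA h.av x₀ n h4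

private theorem Main_split' : ∀ f : Fin 4 → Bool, (∃ i, f i = true) → (∃ j, f j = false) →
    (∃ m, ∀ j, j ≠ m → ((f m = true ∧ f j = false) ∨ (f m = false ∧ f j = true))) ∨
      ∃ a b c d : Fin 4, (a ≠ b ∧ a ≠ c ∧ a ≠ d ∧ b ≠ c ∧ b ≠ d ∧ c ≠ d) ∧ f a = true ∧ f b = true ∧
        f c = false ∧ f d = false := by
  decide

private theorem Main_split {S : Set (Fin 4)} (hS : S.Nonempty) (hS' : Sᶜ.Nonempty) :
    (∃ m, ∀ j, j ≠ m → ((m ∈ S ∧ j ∉ S) ∨ (m ∉ S ∧ j ∈ S))) ∨
      ∃ a b c d, (a ≠ b ∧ a ≠ c ∧ a ≠ d ∧ b ≠ c ∧ b ≠ d ∧ c ≠ d) ∧ a ∈ S ∧ b ∈ S ∧ c ∉ S ∧ d ∉ S := by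
  classical
  have h := Main_split' (fun i => decide (i ∈ S)) (by
    obtain ⟨i, hi⟩ := hS
    exact ⟨i, by simpa using hi⟩) (by
    obtain ⟨j, hj⟩ := hS'
    exact ⟨j, by simpa using hj⟩)
  simpa only [decide_eq_true_eq, decide_eq_false_iff_not] using h

private theorem Main_rest : ∀ m : Fin 4, ∃ a b c : Fin 4, a ≠ b ∧ a ≠ c ∧ b ≠ c ∧ a ≠ m ∧ b ≠ m ∧
    c ≠ m ∧ ∀ i, i = a ∨ i = b ∨ i = c ∨ i = m := by
  decide

private theorem Main_four : ∀ a b c d : Fin 4, a ≠ b → a ≠ c → a ≠ d → b ≠ c → b ≠ d → c ≠ d →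
    ∀ i, i = a ∨ i = b ∨ i = c ∨ i = d := by
  decide

private theorem Main_hull {κ : ℝ × ℝ → Fin 4} {i j : Fin 4} (h : volume (Hu κ i ∩ Hu κ j) = 0) :
    ∀ᵐ x : ℝ × ℝ, x ∈ Hu κ i → x ∉ Hu κ j := by
  refine measure_mono_null (fun x hx => ?_) h
  simp only [mem_compl_iff, mem_setOf_eq, not_forall, not_not] at hx
  obtain ⟨h1, h2⟩ := hx
  exact ⟨h1, h2⟩

/-- one colour is separated from the three others -/
private theorem Main_one (hG : Geo D γ T) {κ : ℝ × ℝ → Fin 4}
    (hκ : ∀ x y, κ x = κ y → x - y ∉ D) {m : Fin 4}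
    (hm : ∀ j, j ≠ m → volume (Hu κ m ∩ Hu κ j) = 0) : False := by
  obtain ⟨a, b, c, hab, hac, hbc, ham, hbm, hcm, hall⟩ := Main_rest m
  have hY := pt_null hG (pt_of hG hκ hab hac hbc ham hbm hcm hm)
  set σ : Fin 4 → Fin 4 := fun i => if i = a then b else if i = b then c else a with hσ
  have σa : σ a = b := by simp [hσ]
  have σb : σ b = c := by simp [hσ, hab.symm]
  have σc : σ c = a := by simp [hσ, hac.symm, hbc.symm]
  have σm : σ m = a := by simp [hσ, ham.symm, hbm.symm]
  have hσ' : ∀ i, σ i ≠ i := by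
    intro i
    rcases hall i with rfl | rfl | rfl | rfl
    · rw [σa]; exact hab.symm
    · rw [σb]; exact hbc.symm
    · rw [σc]; exact hac
    · rw [σm]; exact ham
  have hYae : ∀ᵐ x : ℝ × ℝ, x ∉ Yt κ a b c m := measure_eq_zero_iff_ae_notMem.1 hY
  obtain ⟨A, hA⟩ := avoid_sigma hG hκ σ hσ' (by
    filter_upwards [hYae, Main_hull (hm a ham), Main_hull (hm b hbm), Main_hull (hm c hcm)] with
      x hx1 hxa hxb hxc
    by_cases m1 : x ∈ Hu κ m
    · refine ⟨m, Or.inl fun j hj => ?_⟩
      rcases hall j with rfl | rfl | rfl | rfl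
      · exact hxa m1
      · exact hxb m1
      · exact hxc m1
      · exact absurd rfl hj
    · by_cases ia : x ∈ Hu κ a
      · by_cases ib : x ∈ Hu κ b
        · by_cases ic : x ∈ Hu κ c
          · exact absurd ⟨ia, ib, ic, m1⟩ hx1
          · refine ⟨a, Or.inr ?_⟩
            rw [σa]
            refine ⟨ia, ib, fun k hk1 hk2 => ?_⟩
            rcases hall k with rfl | rfl | rfl | rfl
            · exact absurd rfl hk1
            · exact absurd rfl hk2
            · exact ic
            · exact m1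
        · by_cases ic : x ∈ Hu κ c
          · refine ⟨c, Or.inr ?_⟩
            rw [σc]
            refine ⟨ic, ia, fun k hk1 hk2 => ?_⟩
            rcases hall k with rfl | rfl | rfl | rfl
            · exact absurd rfl hk2
            · exact ib
            · exact absurd rfl hk1
            · exact m1
          · refine ⟨a, Or.inl fun k hk => ?_⟩
            rcases hall k with rfl | rfl | rfl | rfl
            · exact absurd rfl hk
            · exact ib
            · exact ic
            · exact m1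
      · by_cases ib : x ∈ Hu κ b
        · by_cases ic : x ∈ Hu κ c
          · refine ⟨b, Or.inr ?_⟩
            rw [σb]
            refine ⟨ib, ic, fun k hk1 hk2 => ?_⟩
            rcases hall k with rfl | rfl | rfl | rfl
            · exact ia
            · exact absurd rfl hk1
            · exact absurd rfl hk2
            · exact m1
          · refine ⟨b, Or.inl fun k hk => ?_⟩
            rcases hall k with rfl | rfl | rfl | rfl
            · exact ia
            · exact absurd rfl hk
            · exact ic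
            · exact m1
        · refine ⟨c, Or.inl fun k hk => ?_⟩
          rcases hall k with rfl | rfl | rfl | rfl
          · exact ia
          · exact ib
          · exact absurd rfl hk
          · exact m1)
  exact no_avoid hG hA

/-- two colours are separated from the two others -/
private theorem Main_two (hG : Geo D γ T) {κ : ℝ × ℝ → Fin 4}
    (hκ : ∀ x y, κ x = κ y → x - y ∉ D) {a b c d : Fin 4} (hab : a ≠ b) (hac : a ≠ c)
    (had : a ≠ d) (hbc : b ≠ c) (hbd : b ≠ d) (hcd : c ≠ d)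
    (h1 : volume (Hu κ a ∩ Hu κ c) = 0) (h2 : volume (Hu κ a ∩ Hu κ d) = 0)
    (h3 : volume (Hu κ b ∩ Hu κ c) = 0) (h4 : volume (Hu κ b ∩ Hu κ d) = 0) : False := by
  have hall := Main_four a b c d hab hac had hbc hbd hcd
  set σ : Fin 4 → Fin 4 := fun i => if i = a then b else if i = b then a else
    if i = c then d else c with hσ
  have σa : σ a = b := by simp [hσ]
  have σb : σ b = a := by simp [hσ, hab.symm]
  have σc : σ c = d := by simp [hσ, hac.symm, hbc.symm]
  have σd : σ d = c := by simp [hσ, had.symm, hbd.symm, hcd.symm]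
  have hσ' : ∀ i, σ i ≠ i := by
    intro i
    rcases hall i with rfl | rfl | rfl | rfl
    · rw [σa]; exact hab.symm
    · rw [σb]; exact hab
    · rw [σc]; exact hcd.symm
    · rw [σd]; exact hcd
  obtain ⟨A, hA⟩ := avoid_sigma hG hκ σ hσ' (by
    filter_upwards [Main_hull h1, Main_hull h2, Main_hull h3, Main_hull h4] with x x1 x2 x3 x4
    by_cases ia : x ∈ Hu κ a
    · have nc := x1 ia
      have nd := x2 ia
      by_cases ib : x ∈ Hu κ b
      · refine ⟨a, Or.inr ?_⟩
        rw [σa]
        refine ⟨ia, ib, fun k hk1 hk2 => ?_⟩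
        rcases hall k with rfl | rfl | rfl | rfl
        · exact absurd rfl hk1
        · exact absurd rfl hk2
        · exact nc
        · exact nd
      · refine ⟨a, Or.inl fun k hk => ?_⟩
        rcases hall k with rfl | rfl | rfl | rfl
        · exact absurd rfl hk
        · exact ib
        · exact nc
        · exact nd
    · by_cases ib : x ∈ Hu κ b
      · have nc := x3 ib
        have nd := x4 ib
        refine ⟨b, Or.inl fun k hk => ?_⟩
        rcases hall k with rfl | rfl | rfl | rfl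
        · exact ia
        · exact absurd rfl hk
        · exact nc
        · exact nd
      · by_cases ic : x ∈ Hu κ c
        · by_cases id : x ∈ Hu κ d
          · refine ⟨c, Or.inr ?_⟩
            rw [σc]
            refine ⟨ic, id, fun k hk1 hk2 => ?_⟩
            rcases hall k with rfl | rfl | rfl | rfl
            · exact ia
            · exact ib
            · exact absurd rfl hk1
            · exact absurd rfl hk2
          · refine ⟨c, Or.inl fun k hk => ?_⟩
            rcases hall k with rfl | rfl | rfl | rfl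
            · exact ia
            · exact ib
            · exact absurd rfl hk
            · exact id
        · refine ⟨d, Or.inl fun k hk => ?_⟩
          rcases hall k with rfl | rfl | rfl | rfl
          · exact ia
          · exact ib
          · exact ic
          · exact absurd rfl hk)
  exact no_avoid hG hA

theorem no_part (hG : Geo D γ T) {κ : ℝ × ℝ → Fin 4} (hκ : ∀ x y, κ x = κ y → x - y ∉ D)
    {S : Set (Fin 4)} (hS : S.Nonempty) (hS' : Sᶜ.Nonempty)
    (hm : NullMeasurableSet (κ ⁻¹' S)) : False := by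
  rcases Main_split hS hS' with ⟨m, h⟩ | ⟨a, b, c, d, ⟨hab, hac, had, hbc, hbd, hcd⟩, ha, hb, hc, hd⟩
  · refine Main_one hG hκ (m := m) fun j hj => ?_
    rcases h j hj with ⟨h1, h2⟩ | ⟨h1, h2⟩
    · exact hull_null hm h1 h2
    · rw [inter_comm]
      exact hull_null hm h2 h1
  · exact Main_two hG hκ hab hac had hbc hbd hcd (hull_null hm ha hc) (hull_null hm ha hd)
      (hull_null hm hb hc) (hull_null hm hb hd)

theorem main {N : Seminorm ℝ (ℝ × ℝ)} (h : Nm N) (κ : ℝ × ℝ → Fin 4) {S : Set (Fin 4)}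
    (hS : S.Nonempty) (hS' : Sᶜ.Nonempty) (hκ : NullMeasurableSet (κ ⁻¹' S)) :
    ∃ x y : ℝ × ℝ, κ x = κ y ∧ N (x - y) = 1 := by
  by_contra hcon
  push Not at hcon
  obtain ⟨γ, T, hG⟩ := h.geo
  exact no_part hG (fun x y hxy hmem => hcon x y hxy hmem) hS hS' hκ

theorem main_lp {p : ℝ} (hp : 1 < p) (κ : ℝ × ℝ → Fin 4) {S : Set (Fin 4)}
    (hS : S.Nonempty) (hS' : Sᶜ.Nonempty) (hκ : NullMeasurableSet (κ ⁻¹' S)) :
    ∃ x y : ℝ × ℝ, κ x = κ y ∧ |x.1 - y.1| ^ p + |x.2 - y.2| ^ p = 1 := by
  obtain ⟨N, hN, hNp⟩ := exists_lp hp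
  obtain ⟨x, y, hxy, h1⟩ := main hN κ hS hS' hκ
  refine ⟨x, y, hxy, ?_⟩
  have hp0 : 0 < p := by linarith
  rw [hNp] at h1
  simp only [Prod.fst_sub, Prod.snd_sub] at h1
  have hnn : 0 ≤ |x.1 - y.1| ^ p + |x.2 - y.2| ^ p := by positivity
  have h2 := congrArg (fun z : ℝ => z ^ p) h1
  simp only [Real.one_rpow] at h2
  rwa [← Real.rpow_mul hnn, one_div, inv_mul_cancel₀ hp0.ne', Real.rpow_one] at h2

end Pool.Agent.TNM
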