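import Pool.Agent.TNM.Aep
import Pool.Agent.H99M.DensB

/-!
# A measurable colouring which is proper almost everywhere can be made proper

Plan. Replace `B i` by `B' i = {x | x ∈ B i ∧ (∀ j < i, x ∉ B j) ∧ Dens1 (B i) x}`. These sets
are measurable (`measurable_dens1` in Pool/Agent/Helper2/LM/M1.lean), disjoint, cover almost
everything (almost every point of `B i` is a point of density one of `B i`: Lebesgue density
theorem, see the proof of `mix_null` in M1.lean or of `exists_ctx` in Pool/Agent/H99M/CtrB.lean;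
take the least `i` with `x ∈ B i`), and contain no two points with difference in `D`: let
`x, y ∈ B' i`, `x - y = γ t₀` (Geo.D_iff). By `hav` and `snd_of_null`, for almost every `s` the
set `{z | z ∈ B i ∧ z + γ s ∈ B i}` is null; take `n` large with `volume (closedBall y (2 rad n) \\
B i) ≤ ofReal (rad n ^ 2)` and the same at `x` (`dens1_scale` with `C = 2`, `ε = 1`), and such an
`s` with `|s - t₀| < rad n / L` (`L` from Geo.lip), so `dist (γ s) (γ t₀) < rad n`. Then for
`z ∈ closedBall y (rad n)`: `z + γ s ∈ closedBall x (2 rad n)`, so the set of `z` with `z ∉ B i` or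
`z + γ s ∉ B i` has measure at most `2 rad n ^ 2 < 4 rad n ^ 2 = volume (closedBall y (rad n))`
(`vol_ball`), contradiction. So `Avoid D B'` (the structure is in Pool/Agent/Helper2/LM/Defs.lean; check its
fields).
-/

open Set MeasureTheory Filter Topology Metric
open Pool.Agent.Helper2.LM Pool.Agent.H99M

namespace Pool.Agent.TNM

variable {D : Set (ℝ × ℝ)} {γ : ℝ → ℝ × ℝ} {T : ℝ → ℝ}

theorem avoid_ae (hG : Geo D γ T) {B : Fin 4 → Set (ℝ × ℝ)} (mB : ∀ i, MeasurableSet (B i))
    (hcov : ∀ᵐ x : ℝ × ℝ, ∃ i, x ∈ B i)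
    (hav : ∀ i, volume {p : (ℝ × ℝ) × ℝ | p.1 ∈ B i ∧ p.1 + γ p.2 ∈ B i} = 0) :
    ∃ A : Fin 4 → Set (ℝ × ℝ), Avoid D A := by
  classical
  have hden : ∀ᵐ x : ℝ × ℝ, ∀ i, x ∈ B i → Dens1 (B i) x := by
    rw [ae_all_iff]
    intro i
    have h2 := Besicovitch.ae_tendsto_measure_inter_div (volume : Measure (ℝ × ℝ)) (B i)
    rw [ae_restrict_iff' (mB i)] at h2
    filter_upwards [h2] with x hx hxA
    exact (hx hxA).comp tendsto_rad
  refine ⟨fun i => {x | x ∈ B i ∧ (∀ j < i, x ∉ B j) ∧ Dens1 (B i) x}, ?_, ?_, ?_, ?_⟩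
  · intro i
    have h1 : MeasurableSet {x | ∀ j < i, x ∉ B j} := by
      have h2 : {x | ∀ j < i, x ∉ B j} = ⋂ j, ⋂ (_ : j < i), (B j)ᶜ := by
        ext x
        simp
      rw [h2]
      exact MeasurableSet.iInter fun j => MeasurableSet.iInter fun _ => (mB j).compl
    exact (mB i).inter (h1.inter (measurable_dens1 (mB i)))
  · intro i j hij
    rw [Set.disjoint_left]
    rintro x ⟨hi, hi', _⟩ ⟨hj, hj', _⟩
    rcases lt_or_gt_of_ne hij with h | h
    · exact hj' i h hi
    · exact hi' j h hj
  · filter_upwards [hden, hcov] with x hx hc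
    obtain ⟨i, hi⟩ := hc
    have hS : (Finset.univ.filter (fun i => x ∈ B i)).Nonempty := ⟨i, by simp [hi]⟩
    have hm : x ∈ B ((Finset.univ.filter (fun i => x ∈ B i)).min' hS) := by
      have h := Finset.min'_mem _ hS
      exact (Finset.mem_filter.1 h).2
    refine ⟨(Finset.univ.filter (fun i => x ∈ B i)).min' hS, hm, ?_, hx _ hm⟩
    intro j hj hxj
    exact absurd (Finset.min'_le _ j (by simp [hxj])) (not_le.2 hj)
  · rintro i x ⟨hxi, _, hdx⟩ y ⟨hyi, _, hdy⟩ hD
    obtain ⟨t₀, ht⟩ := (hG.D_iff _).1 hD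
    obtain ⟨L, hL, hlip⟩ := hG.lip
    have hnull := snd_of_null (hav i)
    have e1 := dens1_scale (mB i) hdx (C := 2) (ε := 1) two_pos one_pos
    have e2 := dens1_scale (mB i) hdy (C := 2) (ε := 1) two_pos one_pos
    obtain ⟨n, hn1, hn2⟩ := (e1.and e2).exists
    have hr : 0 < rad n := rad_pos n
    obtain ⟨s, hs, hs'⟩ : ∃ s ∈ Ioo t₀ (t₀ + rad n / L),
        volume {z : ℝ × ℝ | z ∈ B i ∧ z + γ s ∈ B i} = 0 := by
      by_contra hno
      push Not at hno
      have h0 : volume {s : ℝ | ¬ volume {z : ℝ × ℝ | z ∈ B i ∧ z + γ s ∈ B i} = 0} = 0 := hnull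
      have h1 : volume (Ioo t₀ (t₀ + rad n / L)) = 0 := measure_mono_null (fun s hs => hno s hs) h0
      rw [Real.volume_Ioo, ENNReal.ofReal_eq_zero] at h1
      have h2 : 0 < rad n / L := div_pos hr hL
      linarith
    have hd : dist (γ s) (γ t₀) ≤ rad n := by
      refine (hlip s t₀).trans ?_
      have h1 : |s - t₀| ≤ rad n / L := by
        rw [abs_of_pos (sub_pos.2 hs.1)]
        linarith [hs.2]
      calc L * |s - t₀| ≤ L * (rad n / L) := mul_le_mul_of_nonneg_left h1 hL.le
        _ = rad n := by field_simp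
    have hsub : closedBall y (rad n) ⊆ {z : ℝ × ℝ | z ∈ B i ∧ z + γ s ∈ B i} ∪
        ((closedBall y (2 * rad n) \ B i) ∪
          (fun z : ℝ × ℝ => z + γ s) ⁻¹' (closedBall x (2 * rad n) \ B i)) := by
      intro z hz
      by_cases h1 : z ∈ B i
      · by_cases h2 : z + γ s ∈ B i
        · exact Or.inl ⟨h1, h2⟩
        · refine Or.inr (Or.inr ⟨?_, h2⟩)
          rw [mem_closedBall, dist_eq_norm] at hz ⊢
          rw [dist_eq_norm] at hd
          have h3 : z + γ s - x = (z - y) + (γ s - γ t₀) := by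
            rw [ht]
            abel
          rw [h3]
          refine (norm_add_le _ _).trans ?_
          linarith
      · refine Or.inr (Or.inl ⟨?_, h1⟩)
        exact closedBall_subset_closedBall (by linarith) hz
    have hvol := measure_mono (μ := volume) hsub
    have h4 : volume (closedBall y (rad n)) ≤ ENNReal.ofReal (2 * rad n ^ 2) := by
      refine hvol.trans ((measure_union_le _ _).trans ?_)
      rw [hs', zero_add]
      refine (measure_union_le _ _).trans ?_
      rw [measure_preimage_add_right]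
      refine (add_le_add hn2 hn1).trans ?_
      rw [← ENNReal.ofReal_add (by positivity) (by positivity)]
      apply ENNReal.ofReal_le_ofReal
      linarith
    rw [vol_ball y hr.le, ENNReal.ofReal_le_ofReal_iff (by positivity)] at h4
    nlinarith [sq_nonneg (rad n), pow_pos hr 2]

end Pool.Agent.TNM
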