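import Pool.Agent.TNM.Img

/-!
# Rhombi

Plan. `rhombus`: the points `x`, `p = x + γ s`, `q = x + γ (T s)` have pairwise differences
`γ s`, `γ (T s)`, `γ (T s) - γ s` in `D` (`Geo.mem`, `step_mem`), so three different colours,
all different from `m`; the point `w = x + (γ s + γ (T s))` has differences `γ (T s)`, `γ s` with
`p`, `q`, so its colour is different from theirs and from `m`; there are only four colours
(`Pool.Agent.Helper2.LM.fin4` or `omega` on `Fin.val`, or `decide`), so `κ w = κ x`.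
`forced`: let `U = GU γ T Z M u₀ δ y` (measurable). For `u ∈ U` put `w = y + γ u.1`,
`x = w - ww γ T u.2`; by `rhombus` (`w = x + ww γ T u.2`) `κ w = κ x` and `κ y ≠ κ w` because
`w - y = γ u.1 ∈ D`. By `img_meets` (`z = y`, `α = γ`, `β = fun s => - ww γ T s`,
`deriv β = - deriv (ww γ T)`) there is `u ∈ U` with `κ x = a`; so `κ y ≠ a`. And `U` is not empty,
so `y ∈ M`, `κ y ≠ m`.
-/

open Set MeasureTheory Filter Topology Metric
open Pool.Agent.Helper2.LM Pool.Agent.H99M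

namespace Pool.Agent.TNM

variable {D : Set (ℝ × ℝ)} {γ : ℝ → ℝ × ℝ} {T : ℝ → ℝ}

private theorem rh_fin : ∀ x p q w m : Fin 4, p ≠ x → q ≠ x → q ≠ p → w ≠ p → w ≠ q → x ≠ m → p ≠ m →
    q ≠ m → w ≠ m → w = x := by
  intro x p q w m h1 h2 h3 h4 h5 h6 h7 h8 h9
  simp only [ne_eq, Fin.ext_iff] at *
  omega

theorem rhombus (hG : Geo D γ T) {κ : ℝ × ℝ → Fin 4} (hκ : ∀ x y, κ x = κ y → x - y ∉ D)
    {m : Fin 4} {x : ℝ × ℝ} {s : ℝ} (h0 : κ x ≠ m) (h1 : κ (x + γ s) ≠ m)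
    (h2 : κ (x + γ (T s)) ≠ m) (h3 : κ (x + ww γ T s) ≠ m) : κ (x + ww γ T s) = κ x := by
  refine rh_fin (κ x) (κ (x + γ s)) (κ (x + γ (T s))) (κ (x + ww γ T s)) m ?_ ?_ ?_ ?_ ?_ h0 h1 h2 h3
  · intro h
    apply hκ _ _ h
    rw [add_sub_cancel_left]
    exact hG.mem s
  · intro h
    apply hκ _ _ h
    rw [add_sub_cancel_left]
    exact hG.mem (T s)
  · intro h
    apply hκ _ _ h
    rw [add_sub_add_left_eq_sub]
    exact step_mem hG s
  · intro h
    apply hκ _ _ h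
    rw [add_sub_add_left_eq_sub]
    show γ s + γ (T s) - γ s ∈ D
    rw [add_sub_cancel_left]
    exact hG.mem (T s)
  · intro h
    apply hκ _ _ h
    rw [add_sub_add_left_eq_sub]
    show γ s + γ (T s) - γ (T s) ∈ D
    rw [add_sub_cancel_right]
    exact hG.mem s

private theorem rh_meas (hG : Geo D γ T) {Z M : Set (ℝ × ℝ)} (mZ : MeasurableSet Z)
    (mM : MeasurableSet M) (u₀ : ℝ × ℝ) (δ : ℝ) (y : ℝ × ℝ) : MeasurableSet (GU γ T Z M u₀ δ y) := by
  have hγ := hG.γ_cont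
  have hT := hG.T_cont
  have hw : Continuous (ww γ T) := (cw hG).continuous
  have h1 : Measurable fun u : ℝ × ℝ => y + γ u.1 :=
    (continuous_const.add (hγ.comp continuous_fst)).measurable
  have h2 : Measurable fun u : ℝ × ℝ => y + (γ u.1 - ww γ T u.2) :=
    (continuous_const.add ((hγ.comp continuous_fst).sub (hw.comp continuous_snd))).measurable
  have h3 : Measurable fun u : ℝ × ℝ => y + (γ u.1 - ww γ T u.2 + γ u.2) :=
    (continuous_const.add (((hγ.comp continuous_fst).sub (hw.comp continuous_snd)).add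
      (hγ.comp continuous_snd))).measurable
  have h4 : Measurable fun u : ℝ × ℝ => y + (γ u.1 - ww γ T u.2 + γ (T u.2)) :=
    (continuous_const.add (((hγ.comp continuous_fst).sub (hw.comp continuous_snd)).add
      (hγ.comp (hT.comp continuous_snd)))).measurable
  exact isClosed_closedBall.measurableSet.inter ((MeasurableSet.const (y ∈ M)).inter
    ((h1 mM).inter ((h2 mZ).inter ((h3 mM).inter (h4 mM)))))

theorem forced (hG : Geo D γ T) {κ : ℝ × ℝ → Fin 4} (hκ : ∀ x y, κ x = κ y → x - y ∉ D)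
    {a m : Fin 4} {Z M : Set (ℝ × ℝ)} (mZ : MeasurableSet Z) (mM : MeasurableSet M)
    (hZ : Z ⊆ Hu κ a) (hM : ∀ x ∈ M, κ x ≠ m) (hZM : Z ⊆ M) {u₀ : ℝ × ℝ} {δ : ℝ}
    (hd : ∀ u ∈ closedBall u₀ δ, det2 (deriv γ u.1) (deriv (ww γ T) u.2) ≠ 0) {y : ℝ × ℝ}
    (hy : volume (GU γ T Z M u₀ δ y) ≠ 0) : κ y ≠ a ∧ κ y ≠ m := by
  obtain ⟨u, hu, hua⟩ := img_meets (κ := κ) (α := γ) (β := fun s => - ww γ T s) (z := y)
    (U := GU γ T Z M u₀ δ y) (i := a) hG.γ_c (cw hG).neg (rh_meas hG mZ mM u₀ δ y) hy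
    (fun u hu => by
      have h1 := hd u hu.1
      rw [deriv.fun_neg]
      intro h2
      apply h1
      have h3 : det2 (deriv γ u.1) (- deriv (ww γ T) u.2) = - det2 (deriv γ u.1) (deriv (ww γ T) u.2) := by
        simp only [det2, Prod.fst_neg, Prod.snd_neg]
        ring
      rw [h3] at h2
      exact neg_eq_zero.1 h2)
    (fun u hu => by
      rw [add_assoc, ← sub_eq_add_neg]
      exact hZ hu.2.2.2.1)
  obtain ⟨-, hyM, hw, hx, hp, hq⟩ := hu
  refine ⟨fun hya => ?_, hM y hyM⟩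
  rw [add_assoc, ← sub_eq_add_neg] at hua
  have e1 : y + (γ u.1 - ww γ T u.2) + ww γ T u.2 = y + γ u.1 := by
    rw [add_assoc, sub_add_cancel]
  have h1 := rhombus hG hκ (m := m) (x := y + (γ u.1 - ww γ T u.2)) (s := u.2)
    (hM _ (hZM hx)) (by rw [add_assoc]; exact hM _ hp) (by rw [add_assoc]; exact hM _ hq)
    (by rw [e1]; exact hM _ hw)
  rw [e1, hua] at h1
  apply hκ (y + γ u.1) y (h1.trans hya.symm)
  rw [add_sub_cancel_left]
  exact hG.mem u.1

end Pool.Agent.TNM
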