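import Pool.Agent.TNM.Img
import Pool.Agent.TNM.Aep

/-!
# Two-colour lemma

See `two_col`.
-/

open Set MeasureTheory Filter Topology Metric
open Pool.Agent.Helper2.LM Pool.Agent.H99M

namespace Pool.Agent.TNM

variable {D : Set (ℝ × ℝ)} {γ : ℝ → ℝ × ℝ} {T : ℝ → ℝ}

private theorem diag_null : volume {p : ℝ × ℝ | ∃ k : ℤ, p.2 = p.1 + k / 2} = 0 := by
  have h1 : {p : ℝ × ℝ | ∃ k : ℤ, p.2 = p.1 + k / 2} = ⋃ k : ℤ, {p : ℝ × ℝ | p.2 = p.1 + k / 2} := by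
    ext p
    simp
  rw [h1, measure_iUnion_null_iff]
  intro k
  have hc : IsClosed {p : ℝ × ℝ | p.2 = p.1 + k / 2} :=
    isClosed_eq continuous_snd (continuous_fst.add continuous_const)
  rw [Measure.volume_eq_prod, Measure.measure_prod_null hc.measurableSet]
  refine Filter.Eventually.of_forall fun x => ?_
  have h2 : Prod.mk x ⁻¹' {p : ℝ × ℝ | p.2 = p.1 + k / 2} = {x + k / 2} := by
    ext y
    simp
  beta_reduce
  rw [h2]
  simp

private theorem diag_meas : MeasurableSet {p : ℝ × ℝ | ∃ k : ℤ, p.2 = p.1 + k / 2} := by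
  have h1 : {p : ℝ × ℝ | ∃ k : ℤ, p.2 = p.1 + k / 2} = ⋃ k : ℤ, {p : ℝ × ℝ | p.2 = p.1 + k / 2} := by
    ext p
    simp
  rw [h1]
  exact MeasurableSet.iUnion fun k =>
    (isClosed_eq continuous_snd (continuous_fst.add continuous_const)).measurableSet

theorem two_col (hG : Geo D γ T) {κ : ℝ × ℝ → Fin 4} (hκ : ∀ x y, κ x = κ y → x - y ∉ D)
    {a b : Fin 4} (hab : a ≠ b) :
    volume {p : (ℝ × ℝ) × ℝ | p.1 ∈ Wt κ a b ∧ p.1 + γ p.2 ∈ Wt κ a b} = 0 := by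
  by_contra hQ
  obtain ⟨W, hW⟩ : ∃ W, W = Wt κ a b := ⟨_, rfl⟩
  have mW : MeasurableSet W := hW ▸ measurable_Wt κ a b
  rw [← hW] at hQ
  have hγ : Continuous γ := hG.γ_cont
  have mγ : Measurable γ := hγ.measurable
  have mS : MeasurableSet {p : (ℝ × ℝ) × ℝ | p.1 - γ p.2 ∈ W} :=
    (measurable_fst.sub (mγ.comp measurable_snd)) mW
  obtain ⟨f, hf⟩ : ∃ f : ℝ × ℝ → ENNReal, f = fun y => volume {θ : ℝ | y - γ θ ∈ W} := ⟨_, rfl⟩
  have mf : Measurable f := by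
    rw [hf]
    exact measurable_measure_prodMk_left (ν := (volume : Measure ℝ)) mS
  have mf0 : MeasurableSet {y | f y = 0} := mf (measurableSet_singleton 0)
  -- the null set
  have mN : MeasurableSet {p : (ℝ × ℝ) × ℝ | p.1 - γ p.2 ∈ W ∧ f p.1 = 0} :=
    mS.inter (measurable_fst mf0)
  have hN : volume {p : (ℝ × ℝ) × ℝ | p.1 - γ p.2 ∈ W ∧ f p.1 = 0} = 0 := by
    refine null_of_fst mN (Filter.Eventually.of_forall fun y => ?_)
    by_cases hy : f y = 0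
    · refine measure_mono_null (fun θ hθ => ?_) (show volume {θ : ℝ | y - γ θ ∈ W} = 0 by
        rw [hf] at hy
        exact hy)
      exact hθ.1
    · have : {s : ℝ | (y, s) ∈ {p : (ℝ × ℝ) × ℝ | p.1 - γ p.2 ∈ W ∧ f p.1 = 0}} = ∅ := by
        ext s
        simp only [mem_ofPred_eq, mem_empty_iff_false, iff_false]
        exact fun h => hy h.2
      rw [this, measure_empty]
  have hN' := null_shear hγ hN
  obtain ⟨Q', hQ'⟩ : ∃ Q' : Set ((ℝ × ℝ) × ℝ), Q' = {p : (ℝ × ℝ) × ℝ |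
    (p.1 ∈ W ∧ p.1 + γ p.2 ∈ W) ∧ f (p.1 + γ p.2) ≠ 0} := ⟨_, rfl⟩
  have mQ' : MeasurableSet Q' := by
    rw [hQ']
    exact ((measurable_fst mW).inter ((measurable_fst.add (mγ.comp measurable_snd)) mW)).inter
      ((measurable_fst.add (mγ.comp measurable_snd)) mf0.compl)
  have hQ0 : volume Q' ≠ 0 := by
    intro h0
    apply hQ
    refine measure_mono_null (t := Q' ∪ {p : (ℝ × ℝ) × ℝ | (p.1 + γ p.2, p.2) ∈
      {p : (ℝ × ℝ) × ℝ | p.1 - γ p.2 ∈ W ∧ f p.1 = 0}}) ?_ (measure_union_null h0 hN')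
    rintro p ⟨h1, h2⟩
    by_cases h3 : f (p.1 + γ p.2) = 0
    · right
      refine ⟨?_, h3⟩
      show p.1 + γ p.2 - γ p.2 ∈ W
      rwa [add_sub_cancel_right]
    · left
      rw [hQ']
      exact ⟨⟨h1, h2⟩, h3⟩
  obtain ⟨z, hz⟩ : ∃ z : ℝ × ℝ, volume {s : ℝ | (z, s) ∈ Q'} ≠ 0 := by
    by_contra hcon
    push Not at hcon
    exact hQ0 (null_of_fst mQ' (Filter.Eventually.of_forall hcon))
  obtain ⟨Θ, hΘ⟩ : ∃ Θ : Set ℝ, Θ = {s : ℝ | (z, s) ∈ Q'} := ⟨_, rfl⟩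
  rw [← hΘ] at hz
  have mΘ : MeasurableSet Θ := by
    rw [hΘ]
    exact measurable_prodMk_left mQ'
  have hΘm : ∀ θ ∈ Θ, z ∈ W ∧ z + γ θ ∈ W ∧ f (z + γ θ) ≠ 0 := by
    intro θ hθ
    rw [hΘ, hQ'] at hθ
    exact ⟨hθ.1.1, hθ.1.2, hθ.2⟩
  -- the set of pairs
  obtain ⟨U₀, hU₀⟩ : ∃ U₀ : Set (ℝ × ℝ), U₀ = {u : ℝ × ℝ | u.1 ∈ Θ ∧ z + γ u.1 + -γ u.2 ∈ W} :=
    ⟨_, rfl⟩
  have mU₀ : MeasurableSet U₀ := by
    rw [hU₀]
    exact (measurable_fst mΘ).inter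
      (((measurable_const.add (mγ.comp measurable_fst)).add (mγ.comp measurable_snd).neg) mW)
  have hU₀v : volume U₀ ≠ 0 := by
    intro h0
    rw [Measure.volume_eq_prod, Measure.measure_prod_null mU₀] at h0
    apply hz
    have h1 : ∀ᵐ θ : ℝ, θ ∉ Θ := by
      filter_upwards [h0] with θ hθ hm
      apply (hΘm θ hm).2.2
      rw [hf]
      have h2 : Prod.mk θ ⁻¹' U₀ = {θ' : ℝ | z + γ θ - γ θ' ∈ W} := by
        ext θ'
        rw [hU₀]
        simp only [mem_preimage, mem_ofPred_eq]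
        rw [← sub_eq_add_neg]
        exact ⟨fun h => h.2, fun h => ⟨hm, h⟩⟩
      rw [h2] at hθ
      exact hθ
    have h3 := ae_iff.1 h1
    simpa using h3
  obtain ⟨U, hU⟩ : ∃ U : Set (ℝ × ℝ), U = U₀ \ {p : ℝ × ℝ | ∃ k : ℤ, p.2 = p.1 + k / 2} :=
    ⟨_, rfl⟩
  have mU : MeasurableSet U := by
    rw [hU]
    exact mU₀.diff diag_meas
  have hUv : volume U ≠ 0 := by
    rw [hU, measure_sdiff_null diag_null]
    exact hU₀v
  have hUm : ∀ u ∈ U, z ∈ W ∧ z + γ u.1 ∈ W ∧ z + γ u.1 + -γ u.2 ∈ W ∧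
      det2 (deriv γ u.1) (deriv γ u.2) ≠ 0 := by
    intro u hu
    rw [hU, hU₀] at hu
    obtain ⟨⟨h1, h2⟩, h3⟩ := hu
    refine ⟨(hΘm _ h1).1, (hΘm _ h1).2.1, h2, hG.det_ne fun k hk => h3 ⟨k, hk⟩⟩
  have hβ : ContDiff ℝ 1 fun s => -γ s := hG.γ_c.neg
  have hdet : ∀ u ∈ U, det2 (deriv γ u.1) (deriv (fun s => -γ s) u.2) ≠ 0 := by
    intro u hu h0
    apply (hUm u hu).2.2.2
    rw [deriv.fun_neg] at h0
    unfold det2 at h0 ⊢
    simp only [Prod.fst_neg, Prod.snd_neg] at h0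
    linear_combination -h0
  have hcol : ∀ u ∈ U, κ (z + γ u.1 + -γ u.2) = κ z := by
    intro u hu
    obtain ⟨h1, h2, h3, -⟩ := hUm u hu
    rw [hW] at h1 h2 h3
    have c1 := Wt_col h1
    have c2 := Wt_col h2
    have c3 := Wt_col h3
    have n1 : κ (z + γ u.1) ≠ κ z := by
      intro h
      apply hκ _ _ h
      rw [add_sub_cancel_left]
      exact hG.mem _
    have n2 : κ (z + γ u.1) ≠ κ (z + γ u.1 + -γ u.2) := by
      intro h
      apply hκ _ _ h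
      have : z + γ u.1 - (z + γ u.1 + -γ u.2) = γ u.2 := by abel
      rw [this]
      exact hG.mem _
    rcases c1 with c1 | c1 <;> rcases c2 with c2 | c2 <;> rcases c3 with c3 | c3
    · rw [c1, c3]
    · exact absurd (c2.trans c1.symm) n1
    · rw [c1, c3]
    · exact absurd (c2.trans c3.symm) n2
    · exact absurd (c2.trans c3.symm) n2
    · rw [c1, c3]
    · exact absurd (c2.trans c1.symm) n1
    · rw [c1, c3]
  obtain ⟨u, hu, ha⟩ := img_meets hG.γ_c hβ mU hUv hdet (i := a) (z := z) (κ := κ) fun u hu => by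
    have h3 := (hUm u hu).2.2.1
    rw [hW] at h3
    exact h3.1
  obtain ⟨u', hu', hb⟩ := img_meets hG.γ_c hβ mU hUv hdet (i := b) (z := z) (κ := κ) fun u hu => by
    have h3 := (hUm u hu).2.2.1
    rw [hW] at h3
    exact h3.2.1
  apply hab
  rw [← ha, ← hb, hcol u hu, hcol u' hu']

end Pool.Agent.TNM
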