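import Pool.Agent.TNM.Kh
import Pool.Agent.TNM.TwoC
import Pool.Agent.TNM.Rec

/-!
# Recolouring

Proved by helper68.
-/

open Set MeasureTheory Filter Topology Metric
open Pool.Agent.Helper2.LM Pool.Agent.H99M

namespace Pool.Agent.TNM

variable {D : Set (ℝ × ℝ)} {γ : ℝ → ℝ × ℝ} {T : ℝ → ℝ}

theorem avoid_sigma (hG : Geo D γ T) {κ : ℝ × ℝ → Fin 4} (hκ : ∀ x y, κ x = κ y → x - y ∉ D)
    (σ : Fin 4 → Fin 4) (hσ : ∀ i, σ i ≠ i)
    (hcov : ∀ᵐ x : ℝ × ℝ, ∃ i, x ∈ Ke κ i ∨ x ∈ Wt κ i (σ i)) :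
    ∃ A : Fin 4 → Set (ℝ × ℝ), Avoid D A := by
  refine avoid_ae hG (B := fun i => Ke κ i ∪ Wt κ i (σ i))
    (fun i => (measurable_Ke κ i).union (measurable_Wt κ i (σ i))) ?_ ?_
  · filter_upwards [hcov] with x hx
    obtain ⟨i, hi⟩ := hx
    exact ⟨i, hi⟩
  · intro i
    have h1 := (ker_hull hG hκ i).1
    have h2 := (ker_hull hG hκ i).2
    have h3 := two_col hG hκ (a := i) (b := σ i) (hσ i).symm
    refine measure_mono_null (t := {p : (ℝ × ℝ) × ℝ | p.1 ∈ Ke κ i ∧ p.1 + γ p.2 ∈ Hu κ i} ∪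
      ({p : (ℝ × ℝ) × ℝ | p.1 ∈ Hu κ i ∧ p.1 + γ p.2 ∈ Ke κ i} ∪
        {p : (ℝ × ℝ) × ℝ | p.1 ∈ Wt κ i (σ i) ∧ p.1 + γ p.2 ∈ Wt κ i (σ i)})) ?_
      (measure_union_null h1 (measure_union_null h2 h3))
    rintro p ⟨hp, hq⟩
    rcases hp with hp | hp
    · left
      refine ⟨hp, ?_⟩
      rcases hq with hq | hq
      · exact Ke_sub hq
      · exact hq.1
    · rcases hq with hq | hq
      · right
        left
        exact ⟨hp.1, hq⟩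
      · right
        right
        exact ⟨hp, hq⟩

end Pool.Agent.TNM
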