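import Pool.Agent.TNM.Aep

/-!
# The rules at the six vertices

Plan. `per3`: `T^[i + 3] t = T (T (T (T^[i] t))) = T^[i] t + 1 / 2` (Function.iterate_succ_apply',
Geo.T_three), Geo.γ_half, `w_half`. `adj`: the differences are `γ (T s) - γ s` (`step_mem`, with
`s = T^[i] t`), `ww γ T s - γ s = γ (T s)`, `ww γ T s - γ (T s) = γ s` (Geo.mem; mind the order of
the difference, Geo.neg_mem). `six`: for each `i` the set of `p` such that `(p.1, T^[i] p.2)` violates `e1`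
or `e2` is null (`null_T`, induction on `i`), then `ae_all_iff`.
-/

open Set MeasureTheory Filter Topology Metric
open Pool.Agent.Helper2.LM Pool.Agent.H99M

namespace Pool.Agent.TNM

variable {D : Set (ℝ × ℝ)} {γ : ℝ → ℝ × ℝ} {T : ℝ → ℝ}

private theorem Six_it (i : ℕ) (t : ℝ) : T^[i + 3] t = T (T (T (T^[i] t))) := by
  rw [Function.iterate_succ_apply', Function.iterate_succ_apply', Function.iterate_succ_apply']

theorem per3 (hG : Geo D γ T) (i : ℕ) (t : ℝ) :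
    γ (T^[i + 3] t) = - γ (T^[i] t) ∧ ww γ T (T^[i + 3] t) = - ww γ T (T^[i] t) := by
  rw [Six_it, hG.T_three]
  exact ⟨hG.γ_half _, w_half hG _⟩

theorem adj (hG : Geo D γ T) {A : Set (ℝ × ℝ)} (av : ∀ x ∈ A, ∀ y ∈ A, x - y ∉ D) (x : ℝ × ℝ)
    (t : ℝ) (i : ℕ) :
    ¬ (x + γ (T^[i] t) ∈ A ∧ x + γ (T^[i + 1] t) ∈ A) ∧
      ¬ (x + ww γ T (T^[i] t) ∈ A ∧ x + γ (T^[i] t) ∈ A) ∧
      ¬ (x + ww γ T (T^[i] t) ∈ A ∧ x + γ (T^[i + 1] t) ∈ A) := by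
  rw [Function.iterate_succ_apply']
  generalize T^[i] t = s
  refine ⟨fun ⟨h1, h2⟩ => ?_, fun ⟨h1, h2⟩ => ?_, fun ⟨h1, h2⟩ => ?_⟩
  · apply av _ h2 _ h1
    have e : x + γ (T s) - (x + γ s) = γ (T s) - γ s := by abel
    rw [e]
    exact step_mem hG s
  · apply av _ h1 _ h2
    have e : x + ww γ T s - (x + γ s) = γ (T s) := by
      simp only [ww]
      abel
    rw [e]
    exact hG.mem _
  · apply av _ h1 _ h2
    have e : x + ww γ T s - (x + γ (T s)) = γ s := by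
      simp only [ww]
      abel
    rw [e]
    exact hG.mem _

private theorem Six_ae (hG : Geo D γ T) {P : (ℝ × ℝ) × ℝ → Prop} (h : ∀ᵐ p : (ℝ × ℝ) × ℝ, P p)
    (i : ℕ) : ∀ᵐ p : (ℝ × ℝ) × ℝ, P (p.1, T^[i] p.2) := by
  induction i with
  | zero => exact h
  | succ i ih =>
    have h1 := null_T hG (measure_eq_zero_iff_ae_notMem.2
      (show ∀ᵐ p : (ℝ × ℝ) × ℝ, p ∉ {p : (ℝ × ℝ) × ℝ | ¬ P (p.1, T^[i] p.2)} from by
        filter_upwards [ih] with p hp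
        simpa using hp))
    filter_upwards [measure_eq_zero_iff_ae_notMem.1 h1] with p hp
    have hp' : P (p.1, T^[i] (T p.2)) := by
      by_contra hcon
      exact hp hcon
    rw [Function.iterate_succ_apply]
    exact hp'

theorem six (hG : Geo D γ T) {A Y : Set (ℝ × ℝ)} (h : Pt D γ T A Y) :
    ∀ᵐ p : (ℝ × ℝ) × ℝ, p.1 ∈ Y → ∀ i : ℕ,
      (p.1 + γ (T^[i] p.2) ∈ A ∨ p.1 + γ (T^[i + 1] p.2) ∈ A ∨ p.1 + ww γ T (T^[i] p.2) ∈ A) ∧
      (p.1 + γ (T^[i] p.2) ∈ A ∨ p.1 + γ (T^[i + 1] p.2) ∈ A ∨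
        p.1 + γ (T^[i + 2] p.2) ∈ A) := by
  have h1 : ∀ i : ℕ, ∀ᵐ p : (ℝ × ℝ) × ℝ, p.1 ∈ Y →
      (p.1 + γ (T^[i] p.2) ∈ A ∨ p.1 + γ (T^[i + 1] p.2) ∈ A ∨ p.1 + ww γ T (T^[i] p.2) ∈ A) ∧
      (p.1 + γ (T^[i] p.2) ∈ A ∨ p.1 + γ (T^[i + 1] p.2) ∈ A ∨
        p.1 + γ (T^[i + 2] p.2) ∈ A) := by
    intro i
    filter_upwards [Six_ae hG h.e1 i, Six_ae hG h.e2 i] with p h1 h2 hp
    have e1 : T^[i + 1] p.2 = T (T^[i] p.2) := Function.iterate_succ_apply' _ _ _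
    have e2 : T^[i + 2] p.2 = T (T (T^[i] p.2)) := by
      rw [Function.iterate_succ_apply', Function.iterate_succ_apply']
    rw [e1, e2]
    exact ⟨h1 hp, h2 hp⟩
  filter_upwards [ae_all_iff.2 h1] with p hp hpY i
  exact hp i hpY

end Pool.Agent.TNM
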