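import Pool.Agent.TNM.Dn
import Pool.Agent.TNM.Dg
import Pool.Agent.TNM.Rh

/-!
# A rhombus of points of density one is impossible
-/

open Set MeasureTheory Filter Topology Metric
open Pool.Agent.Helper2.LM Pool.Agent.H99M

namespace Pool.Agent.TNM

variable {D : Set (ℝ × ℝ)} {γ : ℝ → ℝ × ℝ} {T : ℝ → ℝ}

private theorem Sq_dens (hG : Geo D γ T) {Z M : Set (ℝ × ℝ)} (mZ : MeasurableSet Z)
    (mM : MeasurableSet M) {u₀ y₀ : ℝ × ℝ} {δ : ℝ} (hδ : 0 < δ) (h0 : Dens1 M y₀)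
    (h1 : Dens1 M (y₀ + γ u₀.1)) (h2 : Dens1 Z (y₀ + (γ u₀.1 - ww γ T u₀.2)))
    (h3 : Dens1 M (y₀ + (γ u₀.1 - ww γ T u₀.2 + γ u₀.2)))
    (h4 : Dens1 M (y₀ + (γ u₀.1 - ww γ T u₀.2 + γ (T u₀.2)))) :
    Dens1 {y | volume (GU γ T Z M u₀ δ y) ≠ 0} y₀ ∧
      MeasurableSet {y | volume (GU γ T Z M u₀ δ y) ≠ 0} := by
  have c1 : ContDiff ℝ 1 fun u : ℝ × ℝ => γ u.1 := hG.γ_c.comp contDiff_fst
  have c2 : ContDiff ℝ 1 fun u : ℝ × ℝ => ww γ T u.2 := (cw hG).comp contDiff_snd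
  have c3 : ContDiff ℝ 1 fun u : ℝ × ℝ => γ u.2 := hG.γ_c.comp contDiff_snd
  have c4 : ContDiff ℝ 1 fun u : ℝ × ℝ => γ (T u.2) := (cT hG).comp contDiff_snd
  set φ : Fin 5 → ℝ × ℝ → ℝ × ℝ := ![fun _ => 0, fun u => γ u.1, fun u => γ u.1 - ww γ T u.2,
    fun u => γ u.1 - ww γ T u.2 + γ u.2, fun u => γ u.1 - ww γ T u.2 + γ (T u.2)] with hφ
  set G : Fin 5 → Set (ℝ × ℝ) := ![M, M, Z, M, M] with hGG
  have cφ : ∀ k, ContDiff ℝ 1 (φ k) := by
    intro k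
    fin_cases k
    · exact contDiff_const
    · exact c1
    · exact c1.sub c2
    · exact (c1.sub c2).add c3
    · exact (c1.sub c2).add c4
  have mG : ∀ k, MeasurableSet (G k) := by
    intro k
    fin_cases k
    · exact mM
    · exact mM
    · exact mZ
    · exact mM
    · exact mM
  have hset : ∀ y, {u : ℝ × ℝ | u ∈ closedBall u₀ δ ∧ ∀ k, y + φ k u ∈ G k} =
      GU γ T Z M u₀ δ y := by
    intro y
    ext u
    simp only [GU, mem_setOf_eq]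
    constructor
    · rintro ⟨hu, hk⟩
      have k0 := hk 0
      have k1 := hk 1
      have k2 := hk 2
      have k3 := hk 3
      have k4 := hk 4
      refine ⟨hu, ?_, k1, k2, k3, k4⟩
      have : y + (0 : ℝ × ℝ) ∈ M := k0
      rwa [add_zero] at this
    · rintro ⟨hu, k0, k1, k2, k3, k4⟩
      refine ⟨hu, fun k => ?_⟩
      fin_cases k
      · change y + (0 : ℝ × ℝ) ∈ M
        rwa [add_zero]
      · exact k1
      · exact k2
      · exact k3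
      · exact k4
  have hd := dens_good φ G cφ mG (y₀ := y₀) (u₀ := u₀) (by
    intro k
    fin_cases k
    · change Dens1 M (y₀ + (0 : ℝ × ℝ))
      rwa [add_zero]
    · exact h1
    · exact h2
    · exact h3
    · exact h4) hδ
  have hm := measurable_good φ G (fun k => (cφ k).continuous) mG u₀ δ
  simp only [hset] at hd hm
  exact ⟨hd, hm⟩

private theorem Sq_dw (hG : Geo D γ T) (t : ℝ) :
    deriv (ww γ T) t = deriv γ t + deriv T t • deriv γ (T t) := by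
  have h1 : HasDerivAt γ (deriv γ t) t :=
    (hG.γ_c.differentiable one_ne_zero t).hasDerivAt
  have h2 : HasDerivAt γ (deriv γ (T t)) (T t) :=
    (hG.γ_c.differentiable one_ne_zero (T t)).hasDerivAt
  have h3 : HasDerivAt T (deriv T t) t :=
    (hG.T_c.differentiable one_ne_zero t).hasDerivAt
  have h4 : HasDerivAt (fun s => γ (T s)) (deriv T t • deriv γ (T t)) t := h2.scomp t h3
  exact (h1.add h4).deriv

private theorem Sq_fourth : ∀ a b m i j : Fin 4, a ≠ b → a ≠ m → b ≠ m → i ≠ a → i ≠ b → i ≠ m →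
    j ≠ a → j ≠ b → j ≠ m → i = j := by
  decide

theorem square (hG : Geo D γ T) {κ : ℝ × ℝ → Fin 4} (hκ : ∀ x y, κ x = κ y → x - y ∉ D)
    {a b m : Fin 4} (hab : a ≠ b) (ham : a ≠ m) (hbm : b ≠ m) {x₀ : ℝ × ℝ} {t₀ : ℝ}
    (h0 : Dens1 (Hu κ a ∩ Hu κ b ∩ (Hu κ m)ᶜ) x₀) (h1 : Dens1 (Hu κ m)ᶜ (x₀ + γ t₀))
    (h2 : Dens1 (Hu κ m)ᶜ (x₀ + γ (T t₀))) (h3 : Dens1 (Hu κ m)ᶜ (x₀ + ww γ T t₀)) : False := by
  have mM : MeasurableSet (Hu κ m)ᶜ := (measurable_Hu κ m).compl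
  have mZ : MeasurableSet (Hu κ a ∩ Hu κ b ∩ (Hu κ m)ᶜ) :=
    ((measurable_Hu κ a).inter (measurable_Hu κ b)).inter mM
  have hMm : ∀ x ∈ (Hu κ m)ᶜ, κ x ≠ m := by
    intro x hx h
    apply hx
    rw [← h]
    exact mem_Hu κ x
  generalize hZdef : Hu κ a ∩ Hu κ b ∩ (Hu κ m)ᶜ = Z at h0 mZ
  generalize hMdef : (Hu κ m)ᶜ = M at h1 h2 h3 mM hMm hZdef
  have hZM : Z ⊆ M := by
    rw [← hZdef]
    exact fun x hx => hx.2
  have hZa : Z ⊆ Hu κ a := by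
    rw [← hZdef]
    exact fun x hx => hx.1.1
  have hZb : Z ⊆ Hu κ b := by
    rw [← hZdef]
    exact fun x hx => hx.1.2
  have hcont : Continuous fun u : ℝ × ℝ => det2 (deriv γ u.1) (deriv (ww γ T) u.2) := by
    have e1 : Continuous (deriv γ) := hG.γ_c.continuous_deriv le_rfl
    have e2 : Continuous (deriv (ww γ T)) := (cw hG).continuous_deriv le_rfl
    unfold det2
    fun_prop
  have hp : 0 < det2 (deriv γ t₀) (deriv γ (T t₀)) := hG.d_ab t₀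
  have hT := hG.T_pos t₀
  have d1 : det2 (deriv γ (T t₀)) (deriv (ww γ T) t₀) ≠ 0 := by
    rw [Sq_dw hG]
    have e : det2 (deriv γ (T t₀)) (deriv γ t₀ + deriv T t₀ • deriv γ (T t₀)) =
        - det2 (deriv γ t₀) (deriv γ (T t₀)) := by
      simp only [det2, Prod.fst_add, Prod.snd_add, Prod.smul_fst, Prod.smul_snd, smul_eq_mul]
      ring
    rw [e]
    exact (neg_lt_zero.2 hp).ne
  have d2 : det2 (deriv γ t₀) (deriv (ww γ T) t₀) ≠ 0 := by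
    rw [Sq_dw hG]
    have e : det2 (deriv γ t₀) (deriv γ t₀ + deriv T t₀ • deriv γ (T t₀)) =
        deriv T t₀ * det2 (deriv γ t₀) (deriv γ (T t₀)) := by
      simp only [det2, Prod.fst_add, Prod.snd_add, Prod.smul_fst, Prod.smul_snd, smul_eq_mul]
      ring
    rw [e]
    exact (mul_pos hT hp).ne'
  have hop : IsOpen {u : ℝ × ℝ | det2 (deriv γ u.1) (deriv (ww γ T) u.2) ≠ 0} :=
    isOpen_ne_fun hcont continuous_const
  obtain ⟨δ₁, hδ₁, hb₁⟩ := Metric.nhds_basis_closedBall.mem_iff.1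
    (hop.mem_nhds (show (T t₀, t₀) ∈ {u : ℝ × ℝ | det2 (deriv γ u.1) (deriv (ww γ T) u.2) ≠ 0}
      from d1))
  obtain ⟨δ₂, hδ₂, hb₂⟩ := Metric.nhds_basis_closedBall.mem_iff.1
    (hop.mem_nhds (show (t₀, t₀) ∈ {u : ℝ × ℝ | det2 (deriv γ u.1) (deriv (ww γ T) u.2) ≠ 0}
      from d2))
  -- the first point
  have a1 : x₀ + γ t₀ + γ (T t₀) = x₀ + ww γ T t₀ := by
    simp only [ww]; abel
  have a2 : x₀ + γ t₀ + (γ (T t₀) - ww γ T t₀) = x₀ := by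
    simp only [ww]; abel
  have a3 : x₀ + γ t₀ + (γ (T t₀) - ww γ T t₀ + γ t₀) = x₀ + γ t₀ := by
    simp only [ww]; abel
  have a4 : x₀ + γ t₀ + (γ (T t₀) - ww γ T t₀ + γ (T t₀)) = x₀ + γ (T t₀) := by
    simp only [ww]; abel
  obtain ⟨y1, my1⟩ := Sq_dens hG mZ mM (u₀ := (T t₀, t₀)) (y₀ := x₀ + γ t₀) hδ₁ h1
    (by simpa only [a1] using h3) (by simpa only [a2] using h0) (by simpa only [a3] using h1)
    (by simpa only [a4] using h2)
  -- the second point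
  have b1 : x₀ + γ (T t₀) + γ t₀ = x₀ + ww γ T t₀ := by
    simp only [ww]; abel
  have b2 : x₀ + γ (T t₀) + (γ t₀ - ww γ T t₀) = x₀ := by
    simp only [ww]; abel
  have b3 : x₀ + γ (T t₀) + (γ t₀ - ww γ T t₀ + γ t₀) = x₀ + γ t₀ := by
    simp only [ww]; abel
  have b4 : x₀ + γ (T t₀) + (γ t₀ - ww γ T t₀ + γ (T t₀)) = x₀ + γ (T t₀) := by
    simp only [ww]; abel
  obtain ⟨y2, my2⟩ := Sq_dens hG mZ mM (u₀ := (t₀, t₀)) (y₀ := x₀ + γ (T t₀)) hδ₂ h2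
    (by simpa only [b1] using h3) (by simpa only [b2] using h0) (by simpa only [b3] using h1)
    (by simpa only [b4] using h2)
  obtain ⟨z, hz1, hz2⟩ := meet2 my1 my2 y1 y2
  have f1 := forced hG hκ mZ mM hZa hMm hZM (fun u hu => hb₁ hu) hz1
  have f2 := forced hG hκ mZ mM hZb hMm hZM (fun u hu => hb₁ hu) hz1
  have f3 := forced hG hκ mZ mM hZa hMm hZM (fun u hu => hb₂ hu) hz2
  have f4 := forced hG hκ mZ mM hZb hMm hZM (fun u hu => hb₂ hu) hz2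
  have hc : κ (x₀ + γ (T t₀) + z) = κ (x₀ + γ t₀ + z) :=
    Sq_fourth a b m _ _ hab ham hbm f3.1 f4.1 f3.2 f1.1 f2.1 f1.2
  apply hκ _ _ hc
  have e : x₀ + γ (T t₀) + z - (x₀ + γ t₀ + z) = γ (T t₀) - γ t₀ := by abel
  rw [e]
  exact step_mem hG t₀

end Pool.Agent.TNM
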