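import Pool.Agent.TNM.Stg
import Pool.Agent.TNM.Imp
import Pool.Agent.TNM.Dets

/-!
# If `A` and its complement are both visible at `x₀ + γ t` then `A` is not visible at `x₀ + w`

Three applications of `st_gen` with the implications from `imps`.
-/

open Set MeasureTheory Filter Topology Metric
open Pool.Agent.Helper2.LM Pool.Agent.H99M

namespace Pool.Agent.TNM

variable {D : Set (ℝ × ℝ)} {γ : ℝ → ℝ × ℝ} {T : ℝ → ℝ}

theorem st1 (hG : Geo D γ T) {A Y : Set (ℝ × ℝ)} (h : Pt D γ T A Y) {x₀ : ℝ × ℝ}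
    (hx : Dens1 Y x₀) (t₀ : ℝ) :
    ∃ η : ℝ, 0 < η ∧ ∀ C ε : ℝ, 1 ≤ C → 0 < ε → ∀ᶠ n in atTop, ∀ t : ℝ, |t - t₀| ≤ η →
      ENNReal.ofReal (rad n ^ 2) ≤ volume (A ∩ closedBall (x₀ + γ t) (rad n)) →
      ENNReal.ofReal (rad n ^ 2) ≤ volume (closedBall (x₀ + γ t) (rad n) \ A) →
        volume (A ∩ closedBall (x₀ + ww γ T t) (C * rad n)) ≤ ENNReal.ofReal (ε * rad n ^ 2) ∧
        volume (A ∩ closedBall (x₀ + ww γ T (T t)) (C * rad n)) ≤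
          ENNReal.ofReal (ε * rad n ^ 2) ∧
        volume (A ∩ closedBall (x₀ + ww γ T (T (T t))) (C * rad n)) ≤
          ENNReal.ofReal (ε * rad n ^ 2) := by
  have himp := imps hG h
  have hγ := hG.γ_c
  have hT := hG.T_c
  have w0 : ContDiff ℝ 1 (ww γ T) := by
    unfold ww
    exact hγ.add (hγ.comp hT)
  have w1 : ContDiff ℝ 1 (fun s => ww γ T (T s)) := w0.comp hT
  have w2 : ContDiff ℝ 1 (fun s => ww γ T (T (T s))) := w1.comp hT
  obtain ⟨η₁, hη₁, H₁⟩ := st_gen w0 w0.neg hγ (det_a hG t₀) h.mA h.mY h.mA.compl hx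
    (himp.mono fun p hp hY => (hp hY).1) (himp.mono fun p hp hY => (hp hY).2.2.2.1)
  obtain ⟨η₂, hη₂, H₂⟩ := st_gen w1 w1.neg hγ (det_b hG t₀) h.mA h.mY h.mA hx
    (himp.mono fun p hp hY => (hp hY).2.1) (himp.mono fun p hp hY => (hp hY).2.2.2.2.1)
  obtain ⟨η₃, hη₃, H₃⟩ := st_gen w2 w2.neg hγ (det_c hG t₀) h.mA h.mY h.mA.compl hx
    (himp.mono fun p hp hY => (hp hY).2.2.1) (himp.mono fun p hp hY => (hp hY).2.2.2.2.2.1)
  refine ⟨min η₁ (min η₂ η₃), lt_min hη₁ (lt_min hη₂ hη₃), fun C ε hC hε => ?_⟩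
  filter_upwards [H₁ C ε hC hε, H₂ C ε hC hε, H₃ C ε hC hε] with n h₁ h₂ h₃ t ht a b
  have t₁ : |t - t₀| ≤ η₁ := ht.trans (min_le_left _ _)
  have t₂ : |t - t₀| ≤ η₂ := ht.trans ((min_le_right _ _).trans (min_le_left _ _))
  have t₃ : |t - t₀| ≤ η₃ := ht.trans ((min_le_right _ _).trans (min_le_right _ _))
  have e : closedBall (x₀ + γ t) (rad n) \ Aᶜ = A ∩ closedBall (x₀ + γ t) (rad n) := by
    rw [sdiff_compl, inter_comm]
  refine ⟨h₁ t t₁ ?_, h₂ t t₂ b, h₃ t t₃ ?_⟩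
  · rw [e]
    exact a
  · rw [e]
    exact a

end Pool.Agent.TNM
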