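import Pool.Agent.TNM.FillY

/-!
# Two implications without alternatives

Plan. `fillY` with `V = ∅`, `δ₁ = δ₂ = fun _ => 0`, `S₁ = S₂ = A`, `S₃ = S`; the two smallness
hypotheses are trivial. For `1 ≤ C`, `closedBall _ (rad n) ⊆ closedBall _ (C * rad n)`, so
`volume (A ∩ closedBall (x₀ + β₁ t) (C * rad n)) * ofReal (rad n ^ 2) ≤ ofReal (ε * rad n ^ 4)
= ofReal (ε * rad n ^ 2) * ofReal (rad n ^ 2)`; cancel (`ENNReal.mul_le_mul_iff_left`-type lemmas,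
`ofReal (rad n ^ 2)` is positive and finite).
-/

open Set MeasureTheory Filter Topology Metric
open Pool.Agent.Helper2.LM Pool.Agent.H99M

namespace Pool.Agent.TNM

theorem st_gen {β₁ β₂ β₃ : ℝ → ℝ × ℝ} (h₁ : ContDiff ℝ 1 β₁) (h₂ : ContDiff ℝ 1 β₂)
    (h₃ : ContDiff ℝ 1 β₃) {t₀ : ℝ}
    (h : det2 (deriv β₂ t₀ - deriv β₁ t₀) (deriv β₃ t₀ - deriv β₂ t₀) ≠ 0)
    {A Y S : Set (ℝ × ℝ)} (mA : MeasurableSet A) (mY : MeasurableSet Y) (mS : MeasurableSet S)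
    {x₀ : ℝ × ℝ} (hx : Dens1 Y x₀)
    (i₁ : ∀ᵐ p : (ℝ × ℝ) × ℝ, p.1 ∈ Y → p.1 + β₁ p.2 ∈ A → p.1 + β₂ p.2 ∈ A)
    (i₂ : ∀ᵐ p : (ℝ × ℝ) × ℝ, p.1 ∈ Y → p.1 + β₂ p.2 ∈ A → p.1 + β₃ p.2 ∈ S) :
    ∃ η : ℝ, 0 < η ∧ ∀ C ε : ℝ, 1 ≤ C → 0 < ε → ∀ᶠ n in atTop, ∀ t : ℝ, |t - t₀| ≤ η →
      ENNReal.ofReal (rad n ^ 2) ≤ volume (closedBall (x₀ + β₃ t) (rad n) \ S) →
        volume (A ∩ closedBall (x₀ + β₁ t) (C * rad n)) ≤ ENNReal.ofReal (ε * rad n ^ 2) := by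
  obtain ⟨η, K, hη, hK, H⟩ := fillY (δ₁ := fun _ => 0) (δ₂ := fun _ => 0) (V := ∅) h₁ h₂ h₃
    contDiff_const contDiff_const h mY MeasurableSet.empty mA mS hx
    (i₁.mono fun p hp a b => Or.inl (hp a b)) (i₂.mono fun p hp a b => Or.inl (hp a b))
  refine ⟨η, hη, fun C ε hC hε => ?_⟩
  obtain ⟨ε', hε', hev⟩ := H C ε (by linarith) hε
  filter_upwards [hev] with n hn t ht hS
  have h1 := hn t ht (by rw [empty_inter, measure_empty]; exact zero_le)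
    (by rw [empty_inter, measure_empty]; exact zero_le)
  have hr : 0 < rad n := by
    unfold rad
    positivity
  have h2 : ENNReal.ofReal (rad n ^ 2) ≤ volume (closedBall (x₀ + β₃ t) (C * rad n) \ S) :=
    hS.trans (measure_mono (sdiff_subset_sdiff_left (closedBall_subset_closedBall (by nlinarith))))
  have h3 : volume (A ∩ closedBall (x₀ + β₁ t) (C * rad n)) * ENNReal.ofReal (rad n ^ 2) ≤
      ENNReal.ofReal (ε * rad n ^ 2) * ENNReal.ofReal (rad n ^ 2) := by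
    refine (mul_le_mul_right h2 _).trans (h1.trans_eq ?_)
    rw [← ENNReal.ofReal_mul (by positivity)]
    congr 1
    ring
  refine (ENNReal.mul_le_mul_iff_left ?_ ENNReal.ofReal_ne_top).1 h3
  rw [Ne, ENNReal.ofReal_eq_zero, not_le]
  positivity

end Pool.Agent.TNM
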