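import Pool.Agent.TNM.Sq

/-!
# Rule for points in two hulls

Proved by helper68.
-/

open Set MeasureTheory Filter Topology Metric
open Pool.Agent.Helper2.LM Pool.Agent.H99M

namespace Pool.Agent.TNM

variable {D : Set (ℝ × ℝ)} {γ : ℝ → ℝ × ℝ} {T : ℝ → ℝ}

theorem two_hulls (hG : Geo D γ T) {κ : ℝ × ℝ → Fin 4} (hκ : ∀ x y, κ x = κ y → x - y ∉ D)
    {a b m : Fin 4} (hab : a ≠ b) (ham : a ≠ m) (hbm : b ≠ m) :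
    volume {p : (ℝ × ℝ) × ℝ | (p.1 ∈ Hu κ a ∧ p.1 ∈ Hu κ b ∧ p.1 ∉ Hu κ m) ∧
      p.1 + γ p.2 ∉ Hu κ m ∧ p.1 + γ (T p.2) ∉ Hu κ m ∧ p.1 + ww γ T p.2 ∉ Hu κ m} = 0 := by
  have mM : MeasurableSet (Hu κ m)ᶜ := (measurable_Hu κ m).compl
  have mZ : MeasurableSet (Hu κ a ∩ Hu κ b ∩ (Hu κ m)ᶜ) :=
    ((measurable_Hu κ a).inter (measurable_Hu κ b)).inter mM
  have h0 := ae_dens1_pt (β := fun _ => (0 : ℝ × ℝ)) continuous_const mZ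
  have h1 := ae_dens1_pt (β := γ) hG.γ_c.continuous mM
  have h2 := ae_dens1_pt (β := fun t => γ (T t)) (cT hG).continuous mM
  have h3 := ae_dens1_pt (β := ww γ T) (cw hG).continuous mM
  have h4 : ∀ᵐ p : (ℝ × ℝ) × ℝ, p ∉ {p : (ℝ × ℝ) × ℝ |
      (p.1 ∈ Hu κ a ∧ p.1 ∈ Hu κ b ∧ p.1 ∉ Hu κ m) ∧
      p.1 + γ p.2 ∉ Hu κ m ∧ p.1 + γ (T p.2) ∉ Hu κ m ∧ p.1 + ww γ T p.2 ∉ Hu κ m} := by
    filter_upwards [h0, h1, h2, h3] with p e0 e1 e2 e3 hp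
    obtain ⟨⟨ha, hb, hm⟩, q1, q2, q3⟩ := hp
    rw [add_zero] at e0
    exact square hG hκ hab ham hbm (e0 ⟨⟨ha, hb⟩, hm⟩) (e1 q1) (e2 q2) (e3 q3)
  rw [ae_iff] at h4
  simpa only [not_not, ofPred_mem_eq] using h4

end Pool.Agent.TNM
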